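import Mathlib

/-!
# Sequences with few terms in the windows of length one
-/

set_option autoImplicit false

open Filter Topology Set

namespace Pool.Agent.H49.BZ

/-- Every window `[T, T + 1]`, `T ≥ 0`, contains at most `C (T + 1) ^ ε` terms of the sequence, for every `ε > 0`, with a
constant `C` which depends on `ε`. -/
def Windows (γ : ℕ → ℝ) : Prop :=
  ∀ ε : ℝ, 0 < ε → ∃ C : ℝ, ∀ T : ℝ, 0 ≤ T → ∀ S : Finset ℕ,
    (∀ k ∈ S, T ≤ γ k ∧ γ k ≤ T + 1) → (S.card : ℝ) ≤ C * (T + 1) ^ ε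

theorem win_fin {γ : ℕ → ℝ} (h0 : ∀ k, 0 < γ k) (hW : Windows γ) {ε : ℝ} (hε : 0 < ε) :
    ∃ C : ℝ, 0 ≤ C ∧ ∀ g : ℕ → ℝ, (∀ n, 0 ≤ g n) → ∀ S : Finset ℕ,
      ∑ k ∈ S, g ⌊γ k⌋₊ ≤ C * ∑ n ∈ S.image (fun k => ⌊γ k⌋₊), ((n : ℝ) + 1) ^ ε * g n := by
  classical
  obtain ⟨C, hC⟩ := hW ε hε
  have hC0 : 0 ≤ C := by
    have := hC 0 le_rfl ∅ (by simp)
    simpa using this
  refine ⟨C, hC0, fun g hg S => ?_⟩
  rw [← Finset.sum_fiberwise_of_maps_to (t := S.image (fun k => ⌊γ k⌋₊)) (g := fun k => ⌊γ k⌋₊)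
    (fun k hk => Finset.mem_image_of_mem _ hk), Finset.mul_sum]
  refine Finset.sum_le_sum fun n _ => ?_
  have h1 : ∑ k ∈ S with ⌊γ k⌋₊ = n, g ⌊γ k⌋₊ = ((S.filter fun k => ⌊γ k⌋₊ = n).card : ℝ) * g n := by
    rw [Finset.sum_congr rfl (fun k hk => by rw [(Finset.mem_filter.1 hk).2]), Finset.sum_const, nsmul_eq_mul]
  rw [h1]
  have h2 := hC n (Nat.cast_nonneg n) (S.filter fun k => ⌊γ k⌋₊ = n) (fun k hk => by
    have h3 := (Finset.mem_filter.1 hk).2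
    constructor
    · have := Nat.floor_le (h0 k).le
      rw [h3] at this
      exact this
    · have := Nat.lt_floor_add_one (γ k)
      rw [h3] at this
      exact this.le)
  calc ((S.filter fun k => ⌊γ k⌋₊ = n).card : ℝ) * g n ≤ (C * ((n : ℝ) + 1) ^ ε) * g n :=
        mul_le_mul_of_nonneg_right h2 (hg n)
    _ = _ := by ring

theorem win_sum {γ : ℕ → ℝ} (h0 : ∀ k, 0 < γ k) (hW : Windows γ) {ε : ℝ} (hε : 0 < ε) :
    ∃ C : ℝ, 0 ≤ C ∧ ∀ g : ℕ → ℝ, (∀ n, 0 ≤ g n) → Summable (fun n : ℕ => ((n : ℝ) + 1) ^ ε * g n) →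
      Summable (fun k => g ⌊γ k⌋₊) ∧ ∑' k, g ⌊γ k⌋₊ ≤ C * ∑' n : ℕ, ((n : ℝ) + 1) ^ ε * g n := by
  classical
  obtain ⟨C, hC0, hC⟩ := win_fin h0 hW hε
  refine ⟨C, hC0, fun g hg hs => ?_⟩
  have hfin : ∀ S : Finset ℕ, ∑ k ∈ S, g ⌊γ k⌋₊ ≤ C * ∑' n : ℕ, ((n : ℝ) + 1) ^ ε * g n := by
    intro S
    refine (hC g hg S).trans (mul_le_mul_of_nonneg_left ?_ hC0)
    exact hs.sum_le_tsum _ fun n _ => mul_nonneg (by positivity) (hg n)
  have h0' : (0 : ℕ → ℝ) ≤ fun k => g ⌊γ k⌋₊ := fun k => hg _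
  exact ⟨summable_of_sum_le h0' hfin, Real.tsum_le_of_sum_le h0' hfin⟩

/-- the bounds for the index -/
theorem idx {γ : ℕ → ℝ} (h0 : ∀ k, 0 < γ k) (hm : Monotone γ) (hW : Windows γ) :
    ∃ C : ℝ, 1 ≤ C ∧ ∀ k : ℕ, (k : ℝ) + 1 ≤ C * (1 + γ k) ^ (3 / 2 : ℝ) := by
  classical
  obtain ⟨C, hC0, hC⟩ := win_fin h0 hW (ε := 1 / 2) (by norm_num)
  refine ⟨max C 1, le_max_right _ _, fun k => ?_⟩
  have h1 := hC (fun _ => 1) (fun _ => zero_le_one) (Finset.range (k + 1))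
  simp only [Finset.sum_const, Finset.card_range, nsmul_eq_mul, mul_one] at h1
  have hg := (h0 k).le
  have hfl := Nat.floor_le hg
  have h2 : ∑ n ∈ (Finset.range (k + 1)).image (fun k => ⌊γ k⌋₊), ((n : ℝ) + 1) ^ (1 / 2 : ℝ) ≤
      ∑ n ∈ Finset.range (⌊γ k⌋₊ + 1), (1 + γ k) ^ (1 / 2 : ℝ) := by
    have hsub : (Finset.range (k + 1)).image (fun k => ⌊γ k⌋₊) ⊆ Finset.range (⌊γ k⌋₊ + 1) := by
      intro n hn
      obtain ⟨j, hj, rfl⟩ := Finset.mem_image.1 hn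
      rw [Finset.mem_range] at hj ⊢
      have := Nat.floor_le_floor (hm (show j ≤ k by omega))
      omega
    refine (Finset.sum_le_sum_of_subset_of_nonneg hsub fun n _ _ => by positivity).trans ?_
    refine Finset.sum_le_sum fun n hn => ?_
    rw [Finset.mem_range] at hn
    have h3 : (n : ℝ) ≤ ⌊γ k⌋₊ := by exact_mod_cast (by omega : n ≤ ⌊γ k⌋₊)
    exact Real.rpow_le_rpow (by positivity) (by linarith) (by norm_num)
  rw [Finset.sum_const, Finset.card_range, nsmul_eq_mul] at h2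
  have h4 : ((⌊γ k⌋₊ + 1 : ℕ) : ℝ) ≤ 1 + γ k := by push_cast; linarith
  have h5 : (1 + γ k) * (1 + γ k) ^ (1 / 2 : ℝ) = (1 + γ k) ^ (3 / 2 : ℝ) := by
    have : (1 + γ k) ^ (3 / 2 : ℝ) = (1 + γ k) ^ (1 + 1 / 2 : ℝ) := by norm_num
    rw [this, Real.rpow_add (by linarith), Real.rpow_one]
  have h6 : 0 ≤ (1 + γ k) ^ (1 / 2 : ℝ) := by positivity
  calc (k : ℝ) + 1 ≤ C * ∑ n ∈ (Finset.range (k + 1)).image (fun k => ⌊γ k⌋₊), ((n : ℝ) + 1) ^ (1 / 2 : ℝ) := by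
        push_cast at h1
        exact h1
    _ ≤ C * (((⌊γ k⌋₊ + 1 : ℕ) : ℝ) * (1 + γ k) ^ (1 / 2 : ℝ)) := mul_le_mul_of_nonneg_left h2 hC0
    _ ≤ C * ((1 + γ k) * (1 + γ k) ^ (1 / 2 : ℝ)) :=
        mul_le_mul_of_nonneg_left (mul_le_mul_of_nonneg_right h4 h6) hC0
    _ = C * (1 + γ k) ^ (3 / 2 : ℝ) := by rw [h5]
    _ ≤ max C 1 * (1 + γ k) ^ (3 / 2 : ℝ) :=
        mul_le_mul_of_nonneg_right (le_max_left _ _) (by positivity)

theorem gam_top {γ : ℕ → ℝ} (h0 : ∀ k, 0 < γ k) (hm : Monotone γ) (hW : Windows γ) : Tendsto γ atTop atTop := by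
  obtain ⟨C, hC1, hC⟩ := idx h0 hm hW
  refine tendsto_atTop_atTop_of_monotone hm fun b => ?_
  obtain ⟨k, hk⟩ := exists_nat_gt (C * (1 + |b|) ^ (3 / 2 : ℝ))
  refine ⟨k, ?_⟩
  by_contra h
  push Not at h
  have h1 := hC k
  have h2 : (1 + γ k) ^ (3 / 2 : ℝ) ≤ (1 + |b|) ^ (3 / 2 : ℝ) :=
    Real.rpow_le_rpow (by linarith [h0 k]) (by linarith [le_abs_self b]) (by norm_num)
  have h3 := mul_le_mul_of_nonneg_left h2 (by linarith : 0 ≤ C)
  linarith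

/-- the sequence `(1 + γ k) ^ (- 1 - δ)` is summable -/
theorem win_pow {γ : ℕ → ℝ} (h0 : ∀ k, 0 < γ k) (hW : Windows γ) {δ : ℝ} (hδ : 0 < δ) :
    Summable fun k => (1 + γ k) ^ (-1 - δ) := by
  obtain ⟨C, hC0, hC⟩ := win_sum h0 hW (ε := δ / 2) (by linarith)
  have h1 := (hC (fun n => ((n : ℝ) + 1) ^ (-1 - δ)) (fun n => by positivity) (by
    have h2 : Summable fun n : ℕ => ((n : ℝ) + 1) ^ (-1 - δ / 2) := by
      have := (summable_nat_add_iff 1).2 (Real.summable_nat_rpow.2 (by linarith : -1 - δ / 2 < -1))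
      simpa using this
    refine h2.congr fun n => ?_
    rw [← Real.rpow_add (by positivity)]
    congr 1
    ring)).1
  refine Summable.of_nonneg_of_le (fun k => Real.rpow_nonneg (by linarith [h0 k]) _) (fun k => ?_) h1
  have hfl := Nat.floor_le (h0 k).le
  exact Real.rpow_le_rpow_of_nonpos (by positivity) (by linarith) (by linarith)

/-- shifted sums -/
theorem shift_sum {p : ℝ} (hp : 1 < p) : ∃ B : ℝ, 0 ≤ B ∧ ∀ T : ℝ, ∀ S : Finset ℕ,
    ∑ n ∈ S, (1 + |T - n|) ^ (-p) ≤ B := by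
  classical
  have hs : Summable fun j : ℤ => (1 + |(j : ℝ)|) ^ (-p) := by
    have h2 := (Real.summable_one_div_int_add_rpow (1 / 2) p).2 hp
    refine Summable.of_nonneg_of_le (fun m => by positivity) (fun m => ?_) h2
    have h3 : (0 : ℝ) < |(m : ℝ) + 1 / 2| := by
      rw [abs_pos]
      intro h
      have h4 : (2 * m + 1 : ℤ) = 0 := by
        have : (2 * (m : ℝ) + 1) = 0 := by linarith
        exact_mod_cast this
      omega
    have h5 : |(m : ℝ) + 1 / 2| ≤ 1 + |(m : ℝ)| := by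
      have := abs_add_le (m : ℝ) (1 / 2)
      rw [abs_of_nonneg (by norm_num : (0 : ℝ) ≤ 1 / 2)] at this
      linarith
    rw [Real.rpow_neg (by positivity), one_div]
    exact inv_anti₀ (Real.rpow_pos_of_pos h3 _) (Real.rpow_le_rpow h3.le h5 (by linarith))
  refine ⟨2 ^ p * ∑' j : ℤ, (1 + |(j : ℝ)|) ^ (-p), mul_nonneg (by positivity) (tsum_nonneg fun j => by positivity),
    fun T S => ?_⟩
  set m : ℤ := ⌊T⌋ with hm
  have h1 : ∀ n : ℕ, (1 + |T - n|) ^ (-p) ≤ 2 ^ p * (1 + |((m - n : ℤ) : ℝ)|) ^ (-p) := by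
    intro n
    have h2 : (1 + |((m - n : ℤ) : ℝ)|) / 2 ≤ 1 + |T - n| := by
      have h3 : (m : ℝ) ≤ T := Int.floor_le T
      have h4 : T < m + 1 := Int.lt_floor_add_one T
      have h5 : |((m - n : ℤ) : ℝ)| ≤ |T - n| + 1 := by
        have e : ((m - n : ℤ) : ℝ) = (T - n) + (m - T) := by push_cast; ring
        rw [e]
        refine (abs_add_le _ _).trans ?_
        have : |(m : ℝ) - T| ≤ 1 := by
          rw [abs_le]
          constructor <;> linarith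
        linarith
      linarith [abs_nonneg (T - n)]
    have h6 : (0 : ℝ) < (1 + |((m - n : ℤ) : ℝ)|) / 2 := by positivity
    refine (Real.rpow_le_rpow_of_nonpos h6 h2 (by linarith)).trans (le_of_eq ?_)
    rw [Real.div_rpow (by positivity) (by norm_num), Real.rpow_neg (by norm_num : (0 : ℝ) ≤ 2)]
    field_simp
  calc ∑ n ∈ S, (1 + |T - n|) ^ (-p) ≤ ∑ n ∈ S, 2 ^ p * (1 + |((m - n : ℤ) : ℝ)|) ^ (-p) :=
        Finset.sum_le_sum fun n _ => h1 n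
    _ = 2 ^ p * ∑ j ∈ S.image (fun n : ℕ => m - (n : ℤ)), (1 + |(j : ℝ)|) ^ (-p) := by
        rw [Finset.sum_image, Finset.mul_sum]
        intro a _ b _ hab
        have : (a : ℤ) = b := by
          simp only at hab
          omega
        exact_mod_cast this
    _ ≤ 2 ^ p * ∑' j : ℤ, (1 + |(j : ℝ)|) ^ (-p) :=
        mul_le_mul_of_nonneg_left (hs.sum_le_tsum _ fun j _ => by positivity) (by positivity)

/-- the product of two decreasing functions -/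
theorem young {η x y : ℝ} (hη : 0 < η) (hx : 1 ≤ x) (hy : 1 ≤ y) :
    x ^ (-η) / y ≤ x ^ (-2 : ℝ) + y ^ (-(1 + η / 2)) := by
  have hx0 : 0 < x := by linarith
  have hy0 : 0 < y := by linarith
  have hxp : 0 < x ^ (-2 : ℝ) := Real.rpow_pos_of_pos hx0 _
  have hyp : 0 < y ^ (-(1 + η / 2)) := Real.rpow_pos_of_pos hy0 _
  rcases le_total (x ^ (-η)) (y ^ (-(η / 2))) with h | h
  · have h1 : x ^ (-η) / y ≤ y ^ (-(1 + η / 2)) := by
      rw [div_le_iff₀ hy0]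
      refine h.trans (le_of_eq ?_)
      have e : -(η / 2) = -(1 + η / 2) + 1 := by ring
      rw [e, Real.rpow_add hy0, Real.rpow_one]
    linarith
  · -- y is at least x ^ 2
    have h1 : x ^ (2 : ℝ) ≤ y := by
      by_contra h2
      push Not at h2
      have h3 : (x ^ (2 : ℝ)) ^ (-(η / 2)) < y ^ (-(η / 2)) := Real.rpow_lt_rpow_of_neg hy0 h2 (by linarith)
      rw [← Real.rpow_mul hx0.le] at h3
      have e : 2 * -(η / 2) = -η := by ring
      rw [e] at h3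
      linarith
    have h4 : x ^ (-η) ≤ 1 := Real.rpow_le_one_of_one_le_of_nonpos hx (by linarith)
    have h5 : x ^ (-η) / y ≤ x ^ (-2 : ℝ) := by
      calc x ^ (-η) / y ≤ 1 / x ^ (2 : ℝ) := div_le_div₀ zero_le_one h4 (by positivity) h1
        _ = x ^ (-2 : ℝ) := by rw [Real.rpow_neg hx0.le, one_div]
    linarith

/-- the sum over the zeros, uniformly in the height -/
theorem zsum {γ : ℕ → ℝ} (h0 : ∀ k, 0 < γ k) (hW : Windows γ) {δ : ℝ} (hδ : 0 < δ) :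
    ∃ C : ℝ, 0 ≤ C ∧ ∀ T : ℝ, Summable (fun k => ((⌊γ k⌋₊ : ℝ) + 1) ^ (-δ) / (1 + |T - ⌊γ k⌋₊|)) ∧
      ∑' k, ((⌊γ k⌋₊ : ℝ) + 1) ^ (-δ) / (1 + |T - ⌊γ k⌋₊|) ≤ C := by
  obtain ⟨C, hC0, hC⟩ := win_sum h0 hW (ε := δ / 2) (by linarith)
  obtain ⟨B, hB0, hB⟩ := shift_sum (p := 1 + δ / 4) (by linarith)
  have h2 : Summable fun n : ℕ => ((n : ℝ) + 1) ^ (-2 : ℝ) := by
    have := (summable_nat_add_iff 1).2 (Real.summable_nat_rpow.2 (by norm_num : (-2 : ℝ) < -1))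
    simpa using this
  set B2 := ∑' n : ℕ, ((n : ℝ) + 1) ^ (-2 : ℝ) with hB2
  have hB20 : 0 ≤ B2 := tsum_nonneg fun n => by positivity
  refine ⟨C * (B2 + B), by positivity, fun T => ?_⟩
  have hle : ∀ n : ℕ, ((n : ℝ) + 1) ^ (δ / 2) * (((n : ℝ) + 1) ^ (-δ) / (1 + |T - n|)) ≤
      ((n : ℝ) + 1) ^ (-2 : ℝ) + (1 + |T - n|) ^ (-(1 + δ / 4)) := by
    intro n
    have h3 := young (η := δ / 2) (x := (n : ℝ) + 1) (y := 1 + |T - n|) (by linarith)
      (by linarith [Nat.cast_nonneg (α := ℝ) n]) (by linarith [abs_nonneg (T - n)])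
    have e : δ / 2 / 2 = δ / 4 := by ring
    rw [e] at h3
    refine le_trans (le_of_eq ?_) h3
    rw [← mul_div_assoc, ← Real.rpow_add (by positivity)]
    congr 2
    ring
  have hfin : ∀ S : Finset ℕ, ∑ n ∈ S, ((n : ℝ) + 1) ^ (δ / 2) * (((n : ℝ) + 1) ^ (-δ) / (1 + |T - n|)) ≤ B2 + B := by
    intro S
    refine (Finset.sum_le_sum fun n _ => hle n).trans ?_
    rw [Finset.sum_add_distrib]
    exact add_le_add (h2.sum_le_tsum _ fun n _ => by positivity) (hB T S)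
  have hnn : (0 : ℕ → ℝ) ≤ fun n : ℕ => ((n : ℝ) + 1) ^ (δ / 2) * (((n : ℝ) + 1) ^ (-δ) / (1 + |T - n|)) :=
    fun n => by
      show (0 : ℝ) ≤ _
      positivity
  have hsum := summable_of_sum_le hnn hfin
  obtain ⟨h5, h6⟩ := hC (fun n => ((n : ℝ) + 1) ^ (-δ) / (1 + |T - n|)) (fun n => by positivity) hsum
  refine ⟨h5, h6.trans ?_⟩
  exact mul_le_mul_of_nonneg_left (Real.tsum_le_of_sum_le hnn hfin) hC0

end Pool.Agent.H49.BZ
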