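import Pool.Agent.H49.BZ.Near

/-!
# Sequences with a prescribed proportion of distinct terms
-/

set_option autoImplicit false

open Filter Topology Set

namespace Pool.Agent.H49.BZ

/-- the increments of the smooth counting function of the blocks -/
noncomputable def inc (c : ℝ) (k : ℕ) : ℝ := c + (1 - c) / Real.log (k + 3)

/-- the smooth counting function of the blocks -/
noncomputable def hc (c : ℝ) (n : ℕ) : ℝ := ∑ k ∈ Finset.range n, inc c k

/-- the index of the block -/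
noncomputable def Dc (c : ℝ) (n : ℕ) : ℕ := ⌊hc c n⌋₊

theorem log3 (k : ℕ) : 1 ≤ Real.log ((k : ℝ) + 3) := by
  rw [Real.le_log_iff_exp_le (by positivity)]
  have := Real.exp_one_lt_d9
  have := Nat.cast_nonneg (α := ℝ) k
  linarith

section

variable {c : ℝ} (hc0 : 0 ≤ c) (hc1 : c ≤ 1)

include hc0 hc1

theorem inc_bounds (k : ℕ) : (Real.log (k + 3))⁻¹ ≤ inc c k ∧ inc c k ≤ 1 ∧ c ≤ inc c k ∧
    inc c k ≤ c + (Real.log (k + 3))⁻¹ := by
  have hL := log3 k
  have hi : (Real.log ((k : ℝ) + 3))⁻¹ ≤ 1 := inv_le_one_of_one_le₀ hL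
  have hi0 : 0 < (Real.log ((k : ℝ) + 3))⁻¹ := by positivity
  unfold inc
  rw [div_eq_mul_inv]
  refine ⟨?_, ?_, ?_, ?_⟩ <;> nlinarith

theorem hc_mono : Monotone (hc c) := by
  refine monotone_nat_of_le_succ fun n => ?_
  unfold hc
  rw [Finset.sum_range_succ]
  have h1 := (inc_bounds hc0 hc1 n).1
  have h2 : 0 < (Real.log ((n : ℝ) + 3))⁻¹ := by
    have := log3 n
    positivity
  linarith

theorem hc_nonneg (n : ℕ) : 0 ≤ hc c n := by
  have := hc_mono hc0 hc1 (Nat.zero_le n)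
  simpa [hc] using this

theorem Dc_mono : Monotone (Dc c) := fun _ _ h => Nat.floor_mono (hc_mono hc0 hc1 h)

theorem Dc_succ (n : ℕ) : Dc c (n + 1) ≤ Dc c n + 1 := by
  have h1 : hc c (n + 1) ≤ hc c n + 1 := by
    unfold hc
    rw [Finset.sum_range_succ]
    linarith [(inc_bounds hc0 hc1 n).2.1]
  unfold Dc
  rw [← Nat.floor_add_one (hc_nonneg hc0 hc1 n)]
  exact Nat.floor_mono h1

theorem Dc_bounds (n : ℕ) : (Dc c n : ℝ) ≤ hc c n ∧ hc c n < Dc c n + 1 :=
  ⟨Nat.floor_le (hc_nonneg hc0 hc1 n), Nat.lt_floor_add_one _⟩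

theorem hc_diff {m n : ℕ} (h : m ≤ n) : ((n : ℝ) - m) * (Real.log (n + 3))⁻¹ ≤ hc c n - hc c m ∧
    c * ((n : ℝ) - m) ≤ hc c n - hc c m ∧ hc c n - hc c m ≤ ((n : ℝ) - m) * (c + (Real.log (m + 3))⁻¹) := by
  have e : hc c n - hc c m = ∑ k ∈ Finset.Ico m n, inc c k := by
    unfold hc
    rw [Finset.sum_Ico_eq_sub _ h]
  have hcard : ((Finset.Ico m n).card : ℝ) = (n : ℝ) - m := by
    rw [Nat.card_Ico, Nat.cast_sub h]
  rw [e]
  refine ⟨?_, ?_, ?_⟩
  · rw [← hcard, ← nsmul_eq_mul]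
    refine Finset.card_nsmul_le_sum _ _ _ fun k hk => ?_
    refine le_trans ?_ (inc_bounds hc0 hc1 k).1
    have hk' := (Finset.mem_Ico.1 hk).2
    refine inv_anti₀ (by linarith [log3 k]) (Real.log_le_log (by positivity) ?_)
    have : (k : ℝ) ≤ n := by exact_mod_cast hk'.le
    linarith
  · rw [← hcard, mul_comm, ← nsmul_eq_mul]
    exact Finset.card_nsmul_le_sum _ _ _ fun k _ => (inc_bounds hc0 hc1 k).2.2.1
  · rw [← hcard, ← nsmul_eq_mul]
    refine Finset.sum_le_card_nsmul _ _ _ fun k hk => ?_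
    refine (inc_bounds hc0 hc1 k).2.2.2.trans (add_le_add le_rfl ?_)
    have hk' := (Finset.mem_Ico.1 hk).1
    refine inv_anti₀ (by linarith [log3 m]) (Real.log_le_log (by positivity) ?_)
    have : (m : ℝ) ≤ k := by exact_mod_cast hk'
    linarith

end

/-- the first index of the block of `n` -/
noncomputable def rr (c : ℝ) (n : ℕ) : ℕ := sInf {m | Dc c m = Dc c n}

theorem rr_spec (c : ℝ) (n : ℕ) : Dc c (rr c n) = Dc c n :=
  Nat.sInf_mem (s := {m | Dc c m = Dc c n}) ⟨n, rfl⟩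

theorem rr_le (c : ℝ) (n : ℕ) : rr c n ≤ n := Nat.sInf_le rfl

theorem rr_eq {c : ℝ} {m n : ℕ} : rr c m = rr c n ↔ Dc c m = Dc c n := by
  constructor
  · intro h
    rw [← rr_spec c m, ← rr_spec c n, h]
  · intro h
    unfold rr
    rw [h]

section

variable {c : ℝ} (hc0 : 0 ≤ c) (hc1 : c ≤ 1)

include hc0 hc1

theorem rr_mono : Monotone (rr c) := by
  intro m n h
  rcases eq_or_lt_of_le (Dc_mono hc0 hc1 h) with h1 | h1
  · exact (rr_eq.2 h1).le
  · by_contra h2
    push Not at h2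
    have h3 := Dc_mono hc0 hc1 h2.le
    rw [rr_spec, rr_spec] at h3
    exact absurd h1 (not_lt.2 h3)

theorem rr_ge (n : ℕ) : (n : ℝ) ≤ rr c n + Real.log (n + 3) := by
  have h1 := rr_spec c n
  have h2 := Dc_bounds hc0 hc1 n
  have h3 := Dc_bounds hc0 hc1 (rr c n)
  rw [h1] at h3
  have h4 := (hc_diff hc0 hc1 (rr_le c n)).1
  have hL := log3 n
  have h5 : ((n : ℝ) - rr c n) * (Real.log (n + 3))⁻¹ ≤ 1 := by linarith
  rw [← div_eq_mul_inv, div_le_one (by linarith)] at h5
  linarith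

/-- the sequence of the ordinates -/
theorem seq_near : Near (fun n => gi (rr c n)) := by
  refine ⟨fun k => gi_ge _, fun k => ?_, fun k => ?_⟩
  · rw [rvm_gi]
    have : (rr c k : ℝ) ≤ k := by exact_mod_cast rr_le c k
    linarith
  · rw [rvm_gi]
    exact rr_ge hc0 hc1 k

theorem seq_mono : Monotone fun n => gi (rr c n) := gi_mono.monotone.comp (rr_mono hc0 hc1)

theorem Dc_surj {a b : ℕ} (hab : a ≤ b) : ∀ d : ℕ, Dc c a ≤ d → d < Dc c b → ∃ k ∈ Finset.Ico a b, Dc c k = d := by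
  induction b, hab using Nat.le_induction with
  | base =>
    intro d h1 h2
    omega
  | succ b hb ih =>
    intro d h1 h2
    rcases lt_or_ge d (Dc c b) with h3 | h3
    · obtain ⟨k, hk, he⟩ := ih d h1 h3
      rw [Finset.mem_Ico] at hk
      exact ⟨k, Finset.mem_Ico.2 ⟨hk.1, by omega⟩, he⟩
    · have h4 := Dc_succ hc0 hc1 b
      exact ⟨b, Finset.mem_Ico.2 ⟨hb, by omega⟩, by omega⟩

/-- the number of distinct terms -/
theorem image_card {a b : ℕ} (hab : a ≤ b) :
    |((((Finset.Ico a b).image fun n => gi (rr c n)).card : ℕ) : ℝ) - (hc c b - hc c a)| ≤ 2 := by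
  classical
  have h1 : ((Finset.Ico a b).image fun n => gi (rr c n)).card = ((Finset.Ico a b).image (Dc c)).card := by
    let φ : ℕ → ℝ := fun d => gi (sInf {m | Dc c m = d})
    have e : (Finset.Ico a b).image (fun n => gi (rr c n)) = ((Finset.Ico a b).image (Dc c)).image φ := by
      rw [Finset.image_image]
      rfl
    rw [e, Finset.card_image_of_injOn]
    intro d1 h1 d2 h2 h
    obtain ⟨m, _, rfl⟩ := Finset.mem_image.1 (Finset.mem_coe.1 h1)
    obtain ⟨n, _, rfl⟩ := Finset.mem_image.1 (Finset.mem_coe.1 h2)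
    exact rr_eq.1 (gi_mono.injective h)
  have h2 : Finset.Ico (Dc c a) (Dc c b) ⊆ (Finset.Ico a b).image (Dc c) := by
    intro d hd
    rw [Finset.mem_Ico] at hd
    obtain ⟨k, hk, he⟩ := Dc_surj hc0 hc1 hab d hd.1 hd.2
    exact Finset.mem_image.2 ⟨k, hk, he⟩
  have h3 : (Finset.Ico a b).image (Dc c) ⊆ Finset.Icc (Dc c a) (Dc c b) := by
    intro d hd
    obtain ⟨k, hk, rfl⟩ := Finset.mem_image.1 hd
    rw [Finset.mem_Ico] at hk
    exact Finset.mem_Icc.2 ⟨Dc_mono hc0 hc1 hk.1, Dc_mono hc0 hc1 hk.2.le⟩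
  have h4 := Finset.card_le_card h2
  have h5 := Finset.card_le_card h3
  rw [Nat.card_Ico] at h4
  rw [Nat.card_Icc] at h5
  have hD := Dc_mono hc0 hc1 hab
  have h6 : (Dc c b : ℝ) - Dc c a ≤ ((((Finset.Ico a b).image (Dc c)).card : ℕ) : ℝ) := by
    rw [← Nat.cast_sub hD]
    exact_mod_cast h4
  have h7 : ((((Finset.Ico a b).image (Dc c)).card : ℕ) : ℝ) ≤ (Dc c b : ℝ) - Dc c a + 1 := by
    rw [← Nat.cast_sub hD]
    have : Dc c b + 1 - Dc c a = Dc c b - Dc c a + 1 := by omega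
    rw [this] at h5
    exact_mod_cast h5
  have h8 := Dc_bounds hc0 hc1 a
  have h9 := Dc_bounds hc0 hc1 b
  rw [h1, abs_le]
  constructor <;> linarith

end

theorem rvm_top : Tendsto rvm atTop atTop := by
  have h1 : Tendsto (fun T : ℝ => T / (2 * Real.pi) - Real.exp 1) atTop atTop :=
    tendsto_atTop_add_const_right _ _ (tendsto_id.atTop_div_const tp)
  refine tendsto_atTop_mono' _ ?_ h1
  filter_upwards [eventually_ge_atTop (2 * Real.pi * Real.exp 1)] with T hT
  have := GA_inc le_rfl (div_ge hT)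
  rw [GA_e] at this
  unfold rvm
  linarith

theorem rvm_double {T : ℝ} (hT : 2 * Real.pi * Real.exp 1 ≤ T) : T / (2 * Real.pi) ≤ rvm (2 * T) - rvm T := by
  have h0 : 0 < T := by linarith [c_bounds.1]
  have h1 := GA_inc (div_ge hT) (show T / (2 * Real.pi) ≤ 2 * T / (2 * Real.pi) from
    div_le_div_of_nonneg_right (by linarith) tp.le)
  unfold rvm
  have e : 2 * T / (2 * Real.pi) - T / (2 * Real.pi) = T / (2 * Real.pi) := by ring
  linarith

theorem lin_log_top (A : ℝ) : Tendsto (fun T : ℝ => T / (2 * Real.pi) - 4 * Real.log T - A) atTop atTop := by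
  have h1 : ∀ᶠ T : ℝ in atTop, 4 * Real.log T ≤ T / (2 * Real.pi) / 2 := by
    have h2 := Real.isLittleO_log_id_atTop.bound (show 0 < 1 / (16 * Real.pi) by
      have := Real.pi_pos
      positivity)
    filter_upwards [h2, eventually_gt_atTop 1] with T h3 h4
    rw [id, Real.norm_of_nonneg (Real.log_nonneg h4.le), Real.norm_of_nonneg (by linarith)] at h3
    have hp := Real.pi_pos
    calc 4 * Real.log T ≤ 4 * (1 / (16 * Real.pi) * T) := by linarith
      _ = T / (2 * Real.pi) / 2 := by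
        field_simp
        norm_num
  have h2 : Tendsto (fun T : ℝ => T / (4 * Real.pi) - A) atTop atTop :=
    tendsto_atTop_add_const_right _ _ (tendsto_id.atTop_div_const (by have := Real.pi_pos; linarith))
  refine tendsto_atTop_mono' _ ?_ h2
  filter_upwards [h1] with T hT
  have hp := Real.pi_pos
  have e : T / (4 * Real.pi) = T / (2 * Real.pi) / 2 := by
    field_simp
    norm_num
  linarith

/-- there are many terms between `T` and `2 T` -/
theorem near_double {γ : ℕ → ℝ} (h : Near γ) (hm : Monotone γ) (htop : Tendsto γ atTop atTop) :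
    Tendsto (fun T : ℝ => (cnt γ T : ℝ)) atTop atTop ∧
      Tendsto (fun T : ℝ => (cnt γ (2 * T) : ℝ) - cnt γ T) atTop atTop := by
  have hbig := lin_log_top 6
  have h2 : ∀ᶠ T : ℝ in atTop, T / (2 * Real.pi) - 4 * Real.log T - 6 ≤ (cnt γ (2 * T) : ℝ) - cnt γ T := by
    filter_upwards [eventually_ge_atTop (2 * Real.pi * Real.exp 1)] with T hT
    have h17 : 17 ≤ T := c_bounds.1.trans hT
    have h3 := abs_le.1 (near_cnt h hm htop hT)
    have h4 := abs_le.1 (near_cnt h hm htop (T := 2 * T) (by linarith))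
    have h5 := rvm_double hT
    have h6 : Real.log (2 * T) = Real.log 2 + Real.log T := Real.log_mul (by norm_num) (by linarith)
    have h7 := Real.log_two_lt_d9
    linarith [h3.2, h4.1]
  have h3 := tendsto_atTop_mono' _ h2 hbig
  refine ⟨?_, h3⟩
  refine tendsto_atTop_mono' _ ?_ (hbig.comp (tendsto_id.atTop_div_const (show (0 : ℝ) < 2 by norm_num)))
  have h4 := (tendsto_id.atTop_div_const (show (0 : ℝ) < 2 by norm_num)).eventually h2
  filter_upwards [h4] with T hT
  simp only [id, Function.comp] at hT ⊢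
  have e : 2 * (T / 2) = T := by ring
  rw [e] at hT
  have : (0 : ℝ) ≤ cnt γ (T / 2) := Nat.cast_nonneg _
  linarith

/-- the proportion of the distinct terms -/
theorem ratio {c : ℝ} (hc0 : 0 ≤ c) (hc1 : c ≤ 1) (htop : Tendsto (fun n => gi (rr c n)) atTop atTop) :
    Tendsto (fun T : ℝ => ((((Finset.Ico (cnt (fun n => gi (rr c n)) T) (cnt (fun n => gi (rr c n)) (2 * T))).image
      fun n => gi (rr c n)).card : ℕ) : ℝ) / ((cnt (fun n => gi (rr c n)) (2 * T) : ℝ) - cnt (fun n => gi (rr c n)) T))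
      atTop (𝓝 c) := by
  have hN := seq_near hc0 hc1
  have hm := seq_mono hc0 hc1
  obtain ⟨h1, h2⟩ := near_double hN hm htop
  rw [tendsto_iff_norm_sub_tendsto_zero]
  have hlim : Tendsto (fun T : ℝ => (Real.log ((cnt (fun n => gi (rr c n)) T : ℝ) + 3))⁻¹ +
      2 / ((cnt (fun n => gi (rr c n)) (2 * T) : ℝ) - cnt (fun n => gi (rr c n)) T)) atTop (𝓝 0) := by
    have a1 : Tendsto (fun T : ℝ => (Real.log ((cnt (fun n => gi (rr c n)) T : ℝ) + 3))⁻¹) atTop (𝓝 0) :=
      (Real.tendsto_log_atTop.comp (tendsto_atTop_add_const_right _ 3 h1)).inv_tendsto_atTop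
    have a2 := h2.const_div_atTop 2
    simpa using a1.add a2
  refine squeeze_zero' (Eventually.of_forall fun T => norm_nonneg _) ?_ hlim
  filter_upwards [h2.eventually (eventually_gt_atTop 0)] with T hT
  generalize cnt (fun n => gi (rr c n)) T = a at *
  generalize cnt (fun n => gi (rr c n)) (2 * T) = b at *
  have hab : a ≤ b := by
    have : (a : ℝ) ≤ b := by linarith
    exact_mod_cast this
  have h3 := image_card hc0 hc1 hab
  obtain ⟨_, h4, h5⟩ := hc_diff hc0 hc1 hab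
  set X := ((((Finset.Ico a b).image fun n => gi (rr c n)).card : ℕ) : ℝ) with hX
  rw [abs_le] at h3
  have e : X / ((b : ℝ) - a) - c = (X - c * ((b : ℝ) - a)) / ((b : ℝ) - a) := by
    field_simp
  rw [e, norm_div, Real.norm_eq_abs, Real.norm_of_nonneg hT.le, div_le_iff₀ hT, add_mul, div_mul_cancel₀ _ hT.ne',
    abs_le]
  have h6 : 0 ≤ (Real.log ((a : ℝ) + 3))⁻¹ * ((b : ℝ) - a) := by
    have := log3 a
    positivity
  constructor
  · linarith
  · have : ((b : ℝ) - a) * (c + (Real.log ((a : ℝ) + 3))⁻¹) =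
        c * ((b : ℝ) - a) + (Real.log ((a : ℝ) + 3))⁻¹ * ((b : ℝ) - a) := by ring
    linarith

end Pool.Agent.H49.BZ
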