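import Pool.Agent.H49.BP.Euler

/-!
# The prime powers of order at least three
-/

set_option autoImplicit false

open Filter Topology Set Complex

namespace Pool.Agent.H49.BZ

open Pool.Agent.H49.BP (gint summable_q qs_norm)

/-- the terms of the prime powers of order at least three -/
noncomputable def h3 (q : ℕ → ℝ) (j : ℕ) (s : ℂ) : ℂ :=
  -Complex.log (1 - (q j : ℂ) ^ (-s)) - (q j : ℂ) ^ (-s) - ((q j : ℂ) ^ (-s)) ^ 2 / 2

theorem qs_le3 {q : ℕ → ℝ} (hq : StrictMono q) (hq1 : ∀ j, 1 < q j) (j : ℕ) {s : ℂ} (hs : 1 / 3 < s.re) :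
    ‖(q j : ℂ) ^ (-s)‖ ≤ (q 0) ^ (-(1 / 3 : ℝ)) := by
  rw [qs_norm hq1]
  calc (q j) ^ (-s.re) ≤ (q 0) ^ (-s.re) :=
        Real.rpow_le_rpow_of_nonpos (by linarith [hq1 0]) (hq.monotone (Nat.zero_le j)) (by linarith)
    _ ≤ (q 0) ^ (-(1 / 3 : ℝ)) := Real.rpow_le_rpow_of_exponent_le (hq1 0).le (by linarith)

theorem z_lt3 {q : ℕ → ℝ} (hq1 : ∀ j, 1 < q j) : (q 0) ^ (-(1 / 3 : ℝ)) < 1 :=
  Real.rpow_lt_one_of_one_lt_of_neg (hq1 0) (by norm_num)

theorem h3_bound {q : ℕ → ℝ} (hq : StrictMono q) (hq1 : ∀ j, 1 < q j) (j : ℕ) {s : ℂ} {σ : ℝ} (hσ : 1 / 3 < σ)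
    (hs : σ ≤ s.re) : ‖h3 q j s‖ ≤ (1 - (q 0) ^ (-(1 / 3 : ℝ)))⁻¹ * (q j) ^ (-(3 * σ)) := by
  unfold h3
  have h1 := qs_le3 hq hq1 j (s := s) (by linarith)
  have h1' := qs_norm hq1 j s
  have hz := z_lt3 hq1
  set z0 := (q 0) ^ (-(1 / 3 : ℝ)) with hz0
  generalize (q j : ℂ) ^ (-s) = z at *
  have h2 : ‖-z‖ < 1 := by rw [norm_neg]; linarith
  have h3 := Complex.norm_log_sub_logTaylor_le 2 h2
  rw [norm_neg] at h3
  have e0 : Complex.logTaylor (2 + 1) (-z) = -z - z ^ 2 / 2 := by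
    simp [Complex.logTaylor, Finset.sum_range_succ]
    ring
  rw [e0] at h3
  have e1 : -Complex.log (1 - z) - z - z ^ 2 / 2 = -(Complex.log (1 + -z) - (-z - z ^ 2 / 2)) := by
    rw [← sub_eq_add_neg]
    ring
  rw [e1, norm_neg]
  have h4 : (1 - ‖z‖)⁻¹ ≤ (1 - z0)⁻¹ := inv_anti₀ (by linarith) (by linarith)
  have h5 : ‖z‖ ^ 3 ≤ (q j) ^ (-(3 * σ)) := by
    rw [h1', ← Real.rpow_natCast, ← Real.rpow_mul (by linarith [hq1 j])]
    refine Real.rpow_le_rpow_of_exponent_le (hq1 j).le ?_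
    push_cast
    linarith
  have h7 : 0 ≤ (1 - z0)⁻¹ := inv_nonneg.2 (by linarith)
  have h8 : 0 ≤ (1 - ‖z‖)⁻¹ := inv_nonneg.2 (by linarith)
  have h9 : 0 ≤ ‖z‖ ^ 3 * (1 - ‖z‖)⁻¹ := by positivity
  calc ‖Complex.log (1 + -z) - (-z - z ^ 2 / 2)‖ ≤ ‖z‖ ^ (2 + 1) * (1 - ‖z‖)⁻¹ / ((2 : ℕ) + 1) := h3
    _ ≤ ‖z‖ ^ 3 * (1 - ‖z‖)⁻¹ := by
        norm_num
        linarith
    _ ≤ (q j) ^ (-(3 * σ)) * (1 - z0)⁻¹ := mul_le_mul h5 h4 h8 (Real.rpow_nonneg (by linarith [hq1 j]) _)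
    _ = _ := mul_comm _ _

theorem h3_diff {q : ℕ → ℝ} (hq : StrictMono q) (hq1 : ∀ j, 1 < q j) (j : ℕ) :
    DifferentiableOn ℂ (h3 q j) {s | 1 / 3 < s.re} := by
  intro s hs
  apply DifferentiableAt.differentiableWithinAt
  unfold h3
  have hn0 : (q j : ℂ) ≠ 0 := by
    have : q j ≠ 0 := by linarith [hq1 j]
    exact_mod_cast this
  have h1 : DifferentiableAt ℂ (fun s : ℂ => (q j : ℂ) ^ (-s)) s :=
    differentiableAt_id.neg.const_cpow (Or.inl hn0)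
  have h2 : (1 - (q j : ℂ) ^ (-s)) ∈ Complex.slitPlane := by
    left
    have h3 := qs_le3 hq hq1 j (s := s) hs
    have h3' := z_lt3 hq1
    have h4 := Complex.abs_re_le_norm ((q j : ℂ) ^ (-s))
    have h5 := (abs_le.1 h4).2
    rw [Complex.sub_re, Complex.one_re]
    linarith
  exact (((((differentiableAt_const _).sub h1).clog h2).neg).sub h1).sub ((h1.pow 2).div_const 2)

/-- the contribution of the prime powers of order at least three -/
theorem lgp3 {q : ℕ → ℝ} (hq : StrictMono q) (hq1 : ∀ j, 1 < q j) (hg : ∀ j : ℕ, (j : ℝ) + 1 ≤ q j) :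
    ∃ H : ℂ → ℂ, DifferentiableOn ℂ H {s | 1 / 3 < s.re} ∧
      (∀ σ : ℝ, 1 / 3 < σ → ∃ C : ℝ, 0 ≤ C ∧ ∀ s : ℂ, σ ≤ s.re → ‖H s‖ ≤ C) ∧
      ∀ s : ℂ, 1 < s.re → ∑' j, -Complex.log (1 - (q j : ℂ) ^ (-s)) =
        (∑' j, (q j : ℂ) ^ (-s)) + 1 / 2 * (∑' j, (q j : ℂ) ^ (-(2 * s))) + H s := by
  set K := (1 - (q 0) ^ (-(1 / 3 : ℝ)))⁻¹ with hK
  have hK0 : 0 ≤ K := inv_nonneg.2 (by linarith [z_lt3 hq1])
  have hsumm : ∀ σ : ℝ, 1 / 3 < σ → Summable fun j => K * (q j) ^ (-(3 * σ)) := fun σ hσ =>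
    (summable_q hq1 hg (by linarith)).mul_left K
  refine ⟨fun s => ∑' j, h3 q j s, ?_, ?_, ?_⟩
  · intro s hs
    have hs' : 1 / 3 < s.re := hs
    obtain ⟨σ, h1, h2⟩ := exists_between hs'
    have hopen : IsOpen {s : ℂ | σ < s.re} := isOpen_lt continuous_const Complex.continuous_re
    have h3' : DifferentiableOn ℂ (fun s => ∑' j, h3 q j s) {s | σ < s.re} := by
      refine Complex.differentiableOn_tsum_of_summable_norm (hsumm σ h1)
        (fun j => (h3_diff hq hq1 j).mono fun w hw => ?_) hopen fun j w hw => ?_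
      · have hw' : σ < w.re := hw
        show 1 / 3 < w.re
        linarith
      · exact h3_bound hq hq1 j h1 (le_of_lt hw)
    exact (h3'.differentiableAt (hopen.mem_nhds h2)).differentiableWithinAt
  · intro σ hσ
    refine ⟨∑' j, K * (q j) ^ (-(3 * σ)), tsum_nonneg fun j => ?_, fun s hs => ?_⟩
    · exact mul_nonneg hK0 (Real.rpow_nonneg (by linarith [hq1 j]) _)
    · exact tsum_of_norm_bounded (hsumm σ hσ).hasSum fun j => h3_bound hq hq1 j hσ hs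
  · intro s hs
    have hsum1 : ∀ z : ℂ, 1 < z.re → Summable fun j => (q j : ℂ) ^ (-z) := by
      intro z hz
      refine Summable.of_norm_bounded (summable_q hq1 hg hz) fun j => ?_
      rw [qs_norm hq1]
    have hsum2 : Summable fun j => h3 q j s :=
      Summable.of_norm_bounded (hsumm (1 / 2) (by norm_num)) fun j =>
        h3_bound hq hq1 j (by norm_num) (by linarith)
    have hs2 : 1 < (2 * s).re := by
      simp
      linarith
    rw [← tsum_mul_left, ← (hsum1 s hs).tsum_add ((hsum1 _ hs2).mul_left _),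
      ← ((hsum1 s hs).add ((hsum1 _ hs2).mul_left _)).tsum_add hsum2]
    refine tsum_congr fun j => ?_
    unfold h3
    have hn0 : (q j : ℂ) ≠ 0 := by
      have : q j ≠ 0 := by linarith [hq1 j]
      exact_mod_cast this
    have e : (q j : ℂ) ^ (-(2 * s)) = ((q j : ℂ) ^ (-s)) ^ 2 := by
      rw [← Complex.cpow_nat_mul]
      congr 1
      push_cast
      ring
    rw [e]
    ring

end Pool.Agent.H49.BZ
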