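import Pool.Agent.H49.BP.Zeta

/-!
# The integers of a system with a zeta function of slow growth
-/

set_option autoImplicit false

open MeasureTheory Filter Topology Set Complex

namespace Pool.Agent.H49.BZ

open Pool.Agent.H49.BP (gint one_le_gint summable_gint exp_growth count)

theorem ints {q : ℕ → ℝ} (hq : StrictMono q) (hg : ∀ j : ℕ, (j : ℝ) + 1 ≤ q j) (hq0 : 1 < q 0) {G : ℂ → ℂ}
    (hGd : DifferentiableOn ℂ G {s | 1 / 2 < s.re})
    (hZ : ∀ s : ℂ, 1 < s.re → ∑' n : ℕ, ((gint q (n + 1) : ℝ) : ℂ) ^ (-s) = s / (s - 1) * Complex.exp (G s))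
    (hGb : ∀ σ : ℝ, 1 / 2 < σ → ∃ C : ℝ, 0 ≤ C ∧ ∀ s : ℂ, σ ≤ s.re → ‖G s‖ ≤ C * √(Real.log (|s.im| + 3))) :
    ∃ ρ : ℝ, 0 < ρ ∧ ∀ ε : ℝ, 0 < ε → ∃ C : ℝ, ∀ x : ℝ, 1 ≤ x →
        |({n : ℕ | gint q (n + 1) ≤ x}.ncard : ℝ) - ρ * x| ≤ C * x ^ (1 / 2 + ε) := by
  have hq1 : ∀ j, 1 < q j := fun j => lt_of_lt_of_le hq0 (hq.monotone (Nat.zero_le j))
  -- the residue
  have hopen : IsOpen {s : ℂ | 1 / 2 < s.re} := isOpen_lt continuous_const Complex.continuous_re
  have h1U : (1 : ℂ) ∈ {s : ℂ | 1 / 2 < s.re} := by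
    show (1 / 2 : ℝ) < (1 : ℂ).re
    norm_num
  have hreal : ∀ σ : ℝ, 1 < σ → 0 ≤ (Complex.exp (G σ)).re ∧ (Complex.exp (G σ)).im = 0 := by
    intro σ hσ
    have h1 := hZ σ (by simpa using hσ)
    have h2 : ∀ n : ℕ, ((gint q (n + 1) : ℝ) : ℂ) ^ (-(σ : ℂ)) = (((gint q (n + 1)) ^ (-σ) : ℝ) : ℂ) := by
      intro n
      rw [Complex.ofReal_cpow (by linarith [one_le_gint hq1 (n + 1)])]
      push_cast
      rfl
    simp only [h2] at h1
    rw [← Complex.ofReal_tsum] at h1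
    set S := ∑' n : ℕ, (gint q (n + 1)) ^ (-σ) with hS
    have hS0 : 0 ≤ S := tsum_nonneg fun n => Real.rpow_nonneg (by linarith [one_le_gint hq1 (n + 1)]) _
    have h3 : Complex.exp (G σ) = (((σ - 1) / σ * S : ℝ) : ℂ) := by
      have hs0 : (σ : ℂ) ≠ 0 := by
        have : σ ≠ 0 := by linarith
        exact_mod_cast this
      have hs1 : (σ : ℂ) - 1 ≠ 0 := by
        have : σ - 1 ≠ 0 := by linarith
        exact_mod_cast this
      push_cast
      rw [h1]
      field_simp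
    rw [h3, Complex.ofReal_re, Complex.ofReal_im]
    refine ⟨?_, rfl⟩
    have : 0 ≤ (σ - 1) / σ := div_nonneg (by linarith) (by linarith)
    positivity
  have hcont : ContinuousAt (fun s : ℂ => Complex.exp (G s)) 1 :=
    ((hGd.differentiableAt (hopen.mem_nhds h1U)).cexp).continuousAt
  have hlim : Tendsto (fun σ : ℝ => Complex.exp (G σ)) (𝓝[>] 1) (𝓝 (Complex.exp (G 1))) := by
    have h1 : Tendsto (fun σ : ℝ => (σ : ℂ)) (𝓝[>] 1) (𝓝 ((1 : ℝ) : ℂ)) :=
      (Complex.continuous_ofReal.tendsto 1).mono_left nhdsWithin_le_nhds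
    rw [Complex.ofReal_one] at h1
    exact hcont.tendsto.comp h1
  have him : (Complex.exp (G 1)).im = 0 := by
    have h1 : Tendsto (fun σ : ℝ => (Complex.exp (G σ)).im) (𝓝[>] 1) (𝓝 (Complex.exp (G 1)).im) :=
      (Complex.continuous_im.tendsto _).comp hlim
    have h2 : Tendsto (fun σ : ℝ => (Complex.exp (G σ)).im) (𝓝[>] 1) (𝓝 0) := by
      refine tendsto_const_nhds.congr' ?_
      filter_upwards [self_mem_nhdsWithin] with σ hσ
      exact (hreal σ hσ).2.symm
    exact tendsto_nhds_unique h1 h2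
  have hre : 0 ≤ (Complex.exp (G 1)).re := by
    have h1 : Tendsto (fun σ : ℝ => (Complex.exp (G σ)).re) (𝓝[>] 1) (𝓝 (Complex.exp (G 1)).re) :=
      (Complex.continuous_re.tendsto _).comp hlim
    refine ge_of_tendsto h1 ?_
    filter_upwards [self_mem_nhdsWithin] with σ hσ
    exact (hreal σ hσ).1
  set ρ := (Complex.exp (G 1)).re with hρ
  have hρe : Complex.exp (G 1) = (ρ : ℂ) := by
    apply Complex.ext
    · rw [Complex.ofReal_re]
    · rw [Complex.ofReal_im, him]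
  have hρ0 : 0 < ρ := by
    rcases eq_or_lt_of_le hre with h | h
    · exfalso
      rw [← h] at hρe
      exact Complex.exp_ne_zero _ (by rw [hρe]; simp)
    · exact h
  refine ⟨ρ, hρ0, fun ε hε => ?_⟩
  -- the remainder
  set E : ℂ → ℂ := fun s => Complex.exp (G s) with hE
  have hEd : DifferentiableOn ℂ E {s | 1 / 2 < s.re} := hGd.cexp
  set R : ℂ → ℂ := fun s => s * dslope E 1 s with hR
  have hdd : DifferentiableOn ℂ (dslope E 1) {s | 1 / 2 < s.re} :=
    (Complex.differentiableOn_dslope (hopen.mem_nhds h1U)).2 hEd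
  have hRd : DifferentiableOn ℂ R {s | 1 / 2 < s.re} := differentiableOn_id.mul hdd
  have hRe : ∀ s : ℂ, s ≠ 1 → R s = s / (s - 1) * Complex.exp (G s) - ρ * (s / (s - 1)) := by
    intro s hs
    rw [hR]
    beta_reduce
    rw [dslope_of_ne _ hs, slope_def_field, hE]
    beta_reduce
    rw [hρe]
    ring
  have hgr : ∀ σ ε : ℝ, 1 / 2 < σ → 0 < ε → ∃ C : ℝ, ∀ s : ℂ, σ ≤ s.re → ‖R s‖ ≤ C * (|s.im| + 3) ^ ε := by
    intro σ ε hσ hε
    obtain ⟨C, hC0, hC⟩ := hGb σ hσ
    -- near the point 1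
    have hK : IsCompact (Metric.closedBall (1 : ℂ) 1 ∩ {s : ℂ | σ ≤ s.re}) :=
      (isCompact_closedBall _ _).inter_right (isClosed_le continuous_const Complex.continuous_re)
    obtain ⟨B, hB⟩ := hK.exists_bound_of_continuousOn (f := R) (hRd.continuousOn.mono fun s hs => by
      show 1 / 2 < s.re
      have : σ ≤ s.re := hs.2
      linarith)
    have hB0 : 0 ≤ |B| := abs_nonneg B
    refine ⟨|B| + 2 * (Real.exp (C ^ 2 / (4 * ε)) + ρ), fun s hs => ?_⟩
    have hT : 1 ≤ (|s.im| + 3) ^ ε := Real.one_le_rpow (by linarith [abs_nonneg s.im]) hε.le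
    by_cases hball : s ∈ Metric.closedBall (1 : ℂ) 1
    · have h1 := hB s ⟨hball, hs⟩
      have h2 : 0 ≤ 2 * (Real.exp (C ^ 2 / (4 * ε)) + ρ) := by positivity
      calc ‖R s‖ ≤ |B| := h1.trans (le_abs_self B)
        _ ≤ |B| + 2 * (Real.exp (C ^ 2 / (4 * ε)) + ρ) := by linarith
        _ ≤ (|B| + 2 * (Real.exp (C ^ 2 / (4 * ε)) + ρ)) * (|s.im| + 3) ^ ε :=
            le_mul_of_one_le_right (by positivity) hT
    · rw [Metric.mem_closedBall, dist_eq_norm, not_le] at hball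
      have hs1 : s ≠ 1 := by
        intro h
        rw [h] at hball
        simp at hball
        linarith
      rw [hRe s hs1]
      have h3 : ‖s / (s - 1)‖ ≤ 2 := by
        rw [norm_div, div_le_iff₀ (by linarith)]
        have h4 : ‖s‖ ≤ ‖s - 1‖ + ‖(1 : ℂ)‖ := by
          have := norm_add_le (s - 1) 1
          simpa using this
        rw [norm_one] at h4
        linarith
      have hL : 0 ≤ Real.log (|s.im| + 3) := Real.log_nonneg (by linarith [abs_nonneg s.im])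
      have h5 : ‖Complex.exp (G s)‖ ≤ Real.exp (C ^ 2 / (4 * ε)) * (|s.im| + 3) ^ ε := by
        rw [Complex.norm_exp]
        calc Real.exp (G s).re ≤ Real.exp (C * √(Real.log (|s.im| + 3))) := by
              refine Real.exp_le_exp.2 ?_
              exact (Complex.re_le_norm _).trans (hC s hs)
          _ ≤ Real.exp (C ^ 2 / (4 * ε)) * Real.exp (ε * Real.log (|s.im| + 3)) := exp_growth hε hL
          _ = Real.exp (C ^ 2 / (4 * ε)) * (|s.im| + 3) ^ ε := by
              rw [Real.rpow_def_of_pos (by linarith [abs_nonneg s.im]), mul_comm ε]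
      have h6 : s / (s - 1) * Complex.exp (G s) - ρ * (s / (s - 1)) = s / (s - 1) * (Complex.exp (G s) - ρ) := by ring
      rw [h6, norm_mul]
      have h7 : ‖Complex.exp (G s) - (ρ : ℂ)‖ ≤ (Real.exp (C ^ 2 / (4 * ε)) + ρ) * (|s.im| + 3) ^ ε := by
        refine (norm_sub_le _ _).trans ?_
        rw [Complex.norm_real, Real.norm_of_nonneg hρ0.le]
        have := le_mul_of_one_le_right hρ0.le hT
        linarith
      calc ‖s / (s - 1)‖ * ‖Complex.exp (G s) - (ρ : ℂ)‖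
          ≤ 2 * ((Real.exp (C ^ 2 / (4 * ε)) + ρ) * (|s.im| + 3) ^ ε) :=
            mul_le_mul h3 h7 (norm_nonneg _) (by norm_num)
        _ ≤ (|B| + 2 * (Real.exp (C ^ 2 / (4 * ε)) + ρ)) * (|s.im| + 3) ^ ε := by
            have : 0 ≤ |B| * (|s.im| + 3) ^ ε := by positivity
            nlinarith
  have hsum2 : Summable fun n => (gint q (n + 1)) ^ (-2 : ℝ) := summable_gint hq hq1 hg (by norm_num)
  refine count (l := fun n => gint q (n + 1)) (ρ := ρ) (G := R) (θ := 1 / 2) (fun n => one_le_gint hq1 _) hsum2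
    (by norm_num) (by norm_num) hRd hgr (fun t => ?_) hε
  have hs2 : (1 : ℝ) < (((2 : ℝ) : ℂ) + t * I).re := by simp
  have hne : (((2 : ℝ) : ℂ) + t * I) ≠ 1 := by
    intro h
    rw [h] at hs2
    simp at hs2
  rw [hRe _ hne, hZ _ hs2]

end Pool.Agent.H49.BZ
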