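import Pool.Agent.H49.BZ.Phi

/-!
# The function with the prescribed zeros
-/

set_option autoImplicit false

open MeasureTheory Filter Topology Set Complex

namespace Pool.Agent.H49.BZ

section
variable {γ : ℕ → ℝ}

/-- the product of the first factors and the exponential of the tail -/
noncomputable def PP (γ : ℕ → ℝ) (A : ℕ → ℂ → ℂ) (K : ℕ) (s : ℂ) : ℂ :=
  (∏ k ∈ Finset.range K, A k s) * Complex.exp (TT γ K s)

theorem TT_succ (h0 : ∀ k, 0 < γ k) (hm : Monotone γ) (hW : Windows γ) (K : ℕ) {s : ℂ} (hs : 1 / 3 < s.re) :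
    TT γ K s = hh γ K s + TT γ (K + 1) s := by
  unfold TT
  have h1 : Summable fun k => hh γ (k + K) s := (summable_nat_add_iff K).2 (hh_sum h0 hm hW hs)
  rw [h1.tsum_eq_zero_add, zero_add]
  congr 1
  refine tsum_congr fun k => ?_
  congr 1
  omega

theorem PP_step (h0 : ∀ k, 0 < γ k) (hm : Monotone γ) (hW : Windows γ) {A : ℕ → ℂ → ℂ}
    (hA : ∀ k s, (1 / 2 < s.re ∨ |s.im| < γ k) → A k s = Complex.exp (hh γ k s)) (K : ℕ) {s : ℂ}
    (hs : 1 / 3 < s.re) (h : 1 / 2 < s.re ∨ |s.im| < γ K) : PP γ A K s = PP γ A (K + 1) s := by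
  unfold PP
  rw [Finset.prod_range_succ, TT_succ h0 hm hW K hs, Complex.exp_add, hA K s h]
  ring

theorem PP_eq (h0 : ∀ k, 0 < γ k) (hm : Monotone γ) (hW : Windows γ) {A : ℕ → ℂ → ℂ}
    (hA : ∀ k s, (1 / 2 < s.re ∨ |s.im| < γ k) → A k s = Complex.exp (hh γ k s)) {K K' : ℕ} (hK : K ≤ K') {s : ℂ}
    (hs : 1 / 3 < s.re) (h : 1 / 2 < s.re ∨ |s.im| < γ K) : PP γ A K s = PP γ A K' s := by
  induction K', hK using Nat.le_induction with
  | base => rfl
  | succ n hn ih =>
    rw [ih]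
    refine PP_step h0 hm hW hA n hs ?_
    rcases h with h | h
    · exact Or.inl h
    · exact Or.inr (h.trans_le (hm hn))

theorem exists_K (h0 : ∀ k, 0 < γ k) (hm : Monotone γ) (hW : Windows γ) (s : ℂ) : ∃ K, 2 * |s.im| < γ K :=
  ((gam_top h0 hm hW).eventually (eventually_gt_atTop (2 * |s.im|))).exists

theorem prod_order (A : ℕ → ℂ → ℂ) (hA : ∀ k, Differentiable ℂ (A k)) (s : ℂ) (K : ℕ) :
    AnalyticAt ℂ (fun s => ∏ k ∈ Finset.range K, A k s) s ∧
      analyticOrderAt (fun s => ∏ k ∈ Finset.range K, A k s) s = ∑ k ∈ Finset.range K, analyticOrderAt (A k) s := by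
  induction K with
  | zero =>
    simp only [Finset.range_zero, Finset.prod_empty, Finset.sum_empty]
    refine ⟨analyticAt_const, ?_⟩
    rw [analyticAt_const.analyticOrderAt_eq_zero]
    exact one_ne_zero
  | succ K ih =>
    have e : (fun s => ∏ k ∈ Finset.range (K + 1), A k s) = (fun s => ∏ k ∈ Finset.range K, A k s) * A K := by
      funext s
      rw [Pi.mul_apply, Finset.prod_range_succ]
    rw [e, Finset.sum_range_succ, ← ih.2]
    exact ⟨ih.1.mul ((hA K).analyticAt s), analyticOrderAt_mul ih.1 ((hA K).analyticAt s)⟩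

/-- the function with the prescribed zeros -/
theorem exists_Phi (h0 : ∀ k, 0 < γ k) (hm : Monotone γ) (hW : Windows γ) : ∃ Φ : ℂ → ℂ,
    (∀ s : ℂ, 1 / 3 < s.re → AnalyticAt ℂ Φ s) ∧ (∀ s : ℂ, 1 / 2 < s.re → Φ s = Complex.exp (HH γ s)) ∧
    ∀ s : ℂ, 1 / 3 < s.re → analyticOrderAt Φ s = {k | s = 1 / 2 + γ k * I ∨ s = 1 / 2 - γ k * I}.encard := by
  classical
  obtain ⟨A, hA1, hA2, hA3⟩ := exists_AA h0
  let KS : ℂ → ℕ := fun s => Nat.find (exists_K h0 hm hW s)
  have hKS : ∀ s, 2 * |s.im| < γ (KS s) := fun s => Nat.find_spec (exists_K h0 hm hW s)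
  have hKSmin : ∀ s K, 2 * |s.im| < γ K → KS s ≤ K := fun s K h => Nat.find_min' (exists_K h0 hm hW s) h
  let Φ : ℂ → ℂ := fun s => PP γ A (KS s) s
  -- the function near a point
  have hloc : ∀ s0 : ℂ, 1 / 3 < s0.re → ∃ K : ℕ, 2 * |s0.im| < γ K ∧ Φ =ᶠ[𝓝 s0] PP γ A K := by
    intro s0 hs0
    obtain ⟨K, hK⟩ := ((gam_top h0 hm hW).eventually (eventually_gt_atTop (2 * |s0.im| + 2))).exists
    refine ⟨K, by linarith, ?_⟩
    have h1 : ∀ᶠ s : ℂ in 𝓝 s0, 1 / 3 < s.re :=
      (isOpen_lt continuous_const Complex.continuous_re).mem_nhds hs0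
    have h2 : ∀ᶠ s : ℂ in 𝓝 s0, |s.im| < |s0.im| + 1 := by
      refine (isOpen_lt Complex.continuous_im.abs continuous_const).mem_nhds ?_
      show |s0.im| < |s0.im| + 1
      linarith
    filter_upwards [h1, h2] with s hs1 hs2
    have h3 : 2 * |s.im| < γ K := by linarith
    refine PP_eq h0 hm hW hA2 (hKSmin s K h3) hs1 (Or.inr ?_)
    have := hKS s
    have := abs_nonneg s.im
    linarith
  have hPan : ∀ (K : ℕ) (s : ℂ), 1 / 3 < s.re → 2 * |s.im| < γ K → AnalyticAt ℂ (PP γ A K) s ∧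
      analyticOrderAt (PP γ A K) s = ∑ k ∈ Finset.range K, analyticOrderAt (A k) s := by
    intro K s hs hK
    have h1 := prod_order A hA1 s K
    have h2 : AnalyticAt ℂ (fun s => Complex.exp (TT γ K s)) s := (TT_diff h0 hm hW K hs hK).cexp
    have e : PP γ A K = (fun s => ∏ k ∈ Finset.range K, A k s) * fun s => Complex.exp (TT γ K s) := rfl
    rw [e]
    refine ⟨h1.1.mul h2, ?_⟩
    rw [analyticOrderAt_mul h1.1 h2, h1.2]
    have h3 : analyticOrderAt (fun s => Complex.exp (TT γ K s)) s = 0 := by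
      rw [h2.analyticOrderAt_eq_zero]
      exact Complex.exp_ne_zero _
    rw [h3, add_zero]
  refine ⟨Φ, fun s hs => ?_, fun s hs => ?_, fun s hs => ?_⟩
  · obtain ⟨K, hK, he⟩ := hloc s hs
    exact ((hPan K s hs hK).1).congr he.symm
  · have h1 : Φ s = PP γ A 0 s := (PP_eq h0 hm hW hA2 (Nat.zero_le _) (by linarith) (Or.inl hs)).symm
    rw [h1]
    unfold PP TT HH
    simp
  · obtain ⟨K, hK, he⟩ := hloc s hs
    rw [analyticOrderAt_congr he, (hPan K s hs hK).2]
    simp only [hA3]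
    have hset : {k | s = 1 / 2 + γ k * I ∨ s = 1 / 2 - γ k * I} =
        ((Finset.range K).filter fun k => s = 1 / 2 + γ k * I ∨ s = 1 / 2 - γ k * I : Finset ℕ) := by
      ext k
      rw [Finset.coe_filter]
      simp only [mem_ofPred_eq, Finset.mem_range]
      constructor
      · intro h
        refine ⟨?_, h⟩
        by_contra h2
        push Not at h2
        have h3 : γ K ≤ γ k := hm h2
        have hg := h0 k
        have h4 : |s.im| = γ k := by
          rcases h with h | h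
          · rw [h]
            simp [abs_of_pos hg]
          · rw [h]
            simp [abs_of_pos hg]
        linarith
      · exact fun h => h.2
    rw [hset, Set.encard_coe_eq_coe_finsetCard, Finset.sum_ite, Finset.sum_const_zero, add_zero, Finset.sum_const,
      nsmul_eq_mul, mul_one]

end

end Pool.Agent.H49.BZ
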