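import Pool.Agent.H49.BZ.Hk
import Pool.Agent.H49.BP.Tz

/-!
# The transform of the density with prescribed zeros
-/

set_option autoImplicit false

open MeasureTheory Filter Topology Set Complex

namespace Pool.Agent.H49.BZ

open Pool.Agent.H49.BP (Tz Tz_eq Tz_int fd fd_meas fd_norm)

/-- the second order term -/
noncomputable def cd (u : ℝ) : ℝ := ((√u)⁻¹ - u⁻¹) / Real.log u

theorem cd_meas : Measurable cd := by
  unfold cd
  fun_prop

theorem cd_bd {u : ℝ} (hu : 1 < u) : 0 ≤ cd u ∧ cd u ≤ 1 := by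
  have hl := Real.log_pos hu
  have hs : 0 < √u := Real.sqrt_pos.2 (by linarith)
  have h1 := inv_sqrt_lt hu
  have h2 := log_ge hu
  have e : u⁻¹ = (√u)⁻¹ * (√u)⁻¹ := by
    rw [← mul_inv, Real.mul_self_sqrt (by linarith)]
  have h3 : 0 < (√u)⁻¹ := by positivity
  unfold cd
  rw [e]
  constructor
  · refine div_nonneg ?_ hl.le
    nlinarith
  · rw [div_le_one hl]
    nlinarith

theorem pow_int {f : ℝ → ℝ} (hf : Measurable f) {C : ℝ} (hC : ∀ u, 1 < u → |f u| ≤ C) {s : ℂ} (hs : 1 < s.re) :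
    IntegrableOn (fun u : ℝ => (u : ℂ) ^ (-s) * (f u : ℂ)) (Ioi 1) := by
  have h1 := integrableOn_Ioi_cpow_of_lt (a := -s) (by simpa using hs) zero_lt_one
  refine Integrable.mono' (h1.norm.mul_const C) ?_ ?_
  · exact h1.aestronglyMeasurable.mul (Complex.measurable_ofReal.comp hf).aestronglyMeasurable
  · refine (ae_restrict_iff' measurableSet_Ioi).2 (Eventually.of_forall fun u hu => ?_)
    have hu1 : (1 : ℝ) < u := hu
    rw [norm_mul, Complex.norm_real]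
    exact mul_le_mul_of_nonneg_left (hC u hu1) (norm_nonneg _)

/-- the transform of the second order term -/
theorem cd_trans {s : ℂ} : ∫ u in Ioi (1 : ℝ), (u : ℂ) ^ (-s) * (cd u : ℂ) = Tz (2 * s) := by
  have h0 : ∀ z : ℂ, Tz z = ∫ v in Ioi (0 : ℝ), (v : ℂ) ^ (-z) * fd v := by
    intro z
    unfold Tz mellin
    refine setIntegral_congr_fun measurableSet_Ioi fun v _ => ?_
    beta_reduce
    rw [smul_eq_mul]
    congr 2
    ring
  rw [h0, ← integral_comp_rpow_Ioi_of_pos (p := 1 / 2) (by norm_num)]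
  have h1 : ∫ u in Ioi (1 : ℝ), (u : ℂ) ^ (-s) * (cd u : ℂ) =
      ∫ u in Ioi (0 : ℝ), indicator (Ioi (1 : ℝ)) (fun u : ℝ => (u : ℂ) ^ (-s) * (cd u : ℂ)) u := by
    rw [setIntegral_indicator measurableSet_Ioi]
    congr 2
    exact (inter_eq_self_of_subset_right (Ioi_subset_Ioi zero_le_one)).symm
  rw [h1]
  refine setIntegral_congr_fun measurableSet_Ioi fun u hu => ?_
  have hu0 : (0 : ℝ) < u := hu
  have hune : (u : ℂ) ≠ 0 := by exact_mod_cast hu0.ne'
  beta_reduce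
  by_cases h : 1 < u
  · rw [indicator_of_mem (show u ∈ Ioi (1 : ℝ) from h)]
    have h2 : 1 < u ^ (1 / 2 : ℝ) := Real.one_lt_rpow h (by norm_num)
    have h3 : fd (u ^ (1 / 2 : ℝ)) = ((Pool.Agent.H49.BP.md (u ^ (1 / 2 : ℝ)) : ℝ) : ℂ) := by
      unfold fd
      rw [if_pos h2]
    have h4 : (((u ^ (1 / 2 : ℝ) : ℝ)) : ℂ) ^ (-(2 * s)) = (u : ℂ) ^ (-s) := by
      rw [Complex.ofReal_cpow hu0.le, ← Complex.cpow_mul]
      · congr 1
        push_cast
        ring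
      · rw [← Complex.ofReal_log hu0.le]
        have e : (Real.log u : ℂ) * ((1 / 2 : ℝ) : ℂ) = ((Real.log u * (1 / 2) : ℝ) : ℂ) := by push_cast; ring
        rw [e, Complex.ofReal_im]
        linarith [Real.pi_pos]
      · rw [← Complex.ofReal_log hu0.le]
        have e : (Real.log u : ℂ) * ((1 / 2 : ℝ) : ℂ) = ((Real.log u * (1 / 2) : ℝ) : ℂ) := by push_cast; ring
        rw [e, Complex.ofReal_im]
        exact Real.pi_pos.le
    rw [h3, h4, Complex.real_smul]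
    have h5 : cd u = 1 / 2 * u ^ (1 / 2 - 1 : ℝ) * Pool.Agent.H49.BP.md (u ^ (1 / 2 : ℝ)) := by
      unfold cd Pool.Agent.H49.BP.md
      rw [← Real.sqrt_eq_rpow, Real.log_sqrt hu0.le]
      have hl := (Real.log_pos h).ne'
      have e1 : u ^ (1 / 2 - 1 : ℝ) = (√u)⁻¹ := by
        rw [show (1 / 2 - 1 : ℝ) = -(1 / 2) by norm_num, Real.rpow_neg hu0.le, ← Real.sqrt_eq_rpow]
      have e2 : u⁻¹ = (√u)⁻¹ * (√u)⁻¹ := by
        rw [← mul_inv, Real.mul_self_sqrt hu0.le]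
      rw [e1, e2]
      field_simp
    rw [h5]
    push_cast
    ring
  · rw [indicator_of_notMem (by simpa using h)]
    have h2 : ¬ 1 < u ^ (1 / 2 : ℝ) := by
      push Not at h ⊢
      exact Real.rpow_le_one hu0.le h (by norm_num)
    have h3 : fd (u ^ (1 / 2 : ℝ)) = 0 := by
      unfold fd
      rw [if_neg h2]
    rw [h3, mul_zero, smul_zero]

/-- the transform of the density -/
theorem Tm_formula {γ : ℕ → ℝ} (h0 : ∀ k, 0 < γ k) {s : ℂ} (hs : 1 < s.re) :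
    let _ := dens γ h0
    Tm s = Tz s - 1 / 2 * Tz (2 * s) + HH γ s := by
  show ∫ u in Ioi (1 : ℝ), (u : ℂ) ^ (-s) * (nd γ u : ℂ) = _
  have hi1 : IntegrableOn (fun u : ℝ => (u : ℂ) ^ (-s) * (Pool.Agent.H49.BP.md u : ℂ)) (Ioi 1) := Tz_int hs
  have hi2 : IntegrableOn (fun u : ℝ => (u : ℂ) ^ (-s) * (cd u : ℂ)) (Ioi 1) :=
    pow_int cd_meas (C := 1) (fun u hu => by
      rw [abs_of_nonneg (cd_bd hu).1]
      exact (cd_bd hu).2) hs
  have hi3 : IntegrableOn (fun u : ℝ => (u : ℂ) ^ (-s) * ((∑' k, ek γ k u : ℝ) : ℂ)) (Ioi 1) :=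
    pow_int (ek_tsum_meas h0) (C := 1) (fun u hu => by
      refine (ek_tsum_abs h0 hu).trans ?_
      have hl := Real.log_pos hu
      rw [div_le_one (by positivity)]
      have h1 := log_ge hu
      have h2 := inv_sqrt_lt hu
      linarith) hs
  have hsplit : ∀ u ∈ Ioi (1 : ℝ), (u : ℂ) ^ (-s) * (nd γ u : ℂ) =
      ((u : ℂ) ^ (-s) * (Pool.Agent.H49.BP.md u : ℂ) - 1 / 2 * ((u : ℂ) ^ (-s) * (cd u : ℂ))) -
        (u : ℂ) ^ (-s) * ((∑' k, ek γ k u : ℝ) : ℂ) := by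
    intro u _
    have e : nd γ u = Pool.Agent.H49.BP.md u - 1 / 2 * cd u - ∑' k, ek γ k u := by
      unfold nd Pool.Agent.H49.BP.md cd
      ring
    rw [e]
    push_cast
    ring
  have hi2' : IntegrableOn (fun u : ℝ => 1 / 2 * ((u : ℂ) ^ (-s) * (cd u : ℂ))) (Ioi 1) := hi2.const_mul _
  have hi12 : IntegrableOn (fun u : ℝ => (u : ℂ) ^ (-s) * (Pool.Agent.H49.BP.md u : ℂ) -
      1 / 2 * ((u : ℂ) ^ (-s) * (cd u : ℂ))) (Ioi 1) := hi1.sub hi2'
  rw [setIntegral_congr_fun measurableSet_Ioi hsplit, integral_sub hi12 hi3, integral_sub hi1 hi2',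
    integral_const_mul, cd_trans, ← Tz_eq]
  have hsum : Summable fun k : ℕ => 4 * ((k : ℝ) + 1) ^ (1 - 2 * s.re) := by
    refine Summable.mul_left _ ?_
    have := (summable_nat_add_iff 1).2 (Real.summable_nat_rpow.2 (by linarith : 1 - 2 * s.re < -1))
    simpa using this
  have hH := hasSum_integral_of_summable_integral_norm (μ := volume.restrict (Ioi (1 : ℝ)))
    (F := fun k (u : ℝ) => (u : ℂ) ^ (-s) * (ek γ k u : ℂ)) (fun k => (ek_trans h0 k hs).1)
    (Summable.of_nonneg_of_le (fun k => integral_nonneg fun u => norm_nonneg _)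
      (fun k => (ek_trans h0 k hs).2.2) hsum)
  have h3 : ∫ u in Ioi (1 : ℝ), (u : ℂ) ^ (-s) * ((∑' k, ek γ k u : ℝ) : ℂ) = -HH γ s := by
    have h4 : ∫ u in Ioi (1 : ℝ), (u : ℂ) ^ (-s) * ((∑' k, ek γ k u : ℝ) : ℂ) =
        ∫ u in Ioi (1 : ℝ), ∑' k, (u : ℂ) ^ (-s) * (ek γ k u : ℂ) := by
      refine integral_congr_ae (Eventually.of_forall fun u => ?_)
      beta_reduce
      rw [tsum_mul_left, Complex.ofReal_tsum]
    rw [h4, ← hH.tsum_eq]
    unfold HH
    rw [← tsum_neg]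
    exact tsum_congr fun k => (ek_trans h0 k hs).2.1
  rw [h3]
  ring

end Pool.Agent.H49.BZ
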