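import Pool.Agent.H49.BZ.Sys
import Pool.Agent.H49.BZ.Euler3
import Pool.Agent.H49.BZ.Ints
import Pool.Agent.H49.BZ.Tm
import Pool.Agent.H49.BZ.Phi2

/-!
# The zeta function of the sampled system
-/

set_option autoImplicit false

open MeasureTheory Filter Topology Set Complex

namespace Pool.Agent.H49.BZ

open Pool.Agent.H49.BP (Tz Tz_eq Tz_deriv Tz_exp gint euler pc summable_q qs_norm)

theorem Tz_norm {z : ℂ} (hz : 1 < z.re) : ‖Tz z‖ ≤ 1 / (z.re - 1) := by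
  rw [Tz_eq]
  have h1 : ‖∫ u in Ioi (1 : ℝ), (u : ℂ) ^ (-z) * (Pool.Agent.H49.BP.md u : ℂ)‖ ≤ ∫ u in Ioi (1 : ℝ), u ^ (-z.re) := by
    refine norm_integral_le_of_norm_le (integrableOn_Ioi_rpow_of_lt (by linarith) zero_lt_one) ?_
    refine (ae_restrict_iff' measurableSet_Ioi).2 (Eventually.of_forall fun u hu => ?_)
    have hu1 : (1 : ℝ) < u := hu
    rw [norm_mul, Complex.norm_real, Real.norm_of_nonneg (Pool.Agent.H49.BP.md_nonneg hu1.le),
      Complex.norm_cpow_eq_rpow_re_of_pos (by linarith)]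
    rw [Complex.neg_re]
    exact mul_le_of_le_one_right (Real.rpow_nonneg (by linarith) _) (Pool.Agent.H49.BP.md_le_one hu1.le)
  refine h1.trans (le_of_eq ?_)
  rw [integral_Ioi_rpow_of_lt (by linarith) zero_lt_one, Real.one_rpow]
  have h2 : z.re - 1 ≠ 0 := by linarith
  have h3 : -z.re + 1 ≠ 0 := by
    intro h
    apply h2
    linarith
  field_simp
  ring

theorem Tz_diffOn : DifferentiableOn ℂ Tz {s | 1 < s.re} :=
  fun _ hs => (Tz_deriv hs).differentiableAt.differentiableWithinAt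

theorem re_mul_nat (n : ℕ) (s : ℂ) : ((n : ℂ) * s).re = n * s.re := by simp

theorem re2m (s : ℂ) : (2 * s).re = 2 * s.re := by simp
theorem im2m (s : ℂ) : (2 * s).im = 2 * s.im := by simp
theorem re4m (s : ℂ) : (4 * s).re = 4 * s.re := by simp

/-- a system whose zeta function has the prescribed zeros -/
theorem core {γ : ℕ → ℝ} (h0 : ∀ k, 0 < γ k) (hm : Monotone γ) (hW : Windows γ) :
    ∃ q : ℕ → ℝ, StrictMono q ∧ 1 < q 0 ∧ (∀ j : ℕ, (j : ℝ) + 1 ≤ q j) ∧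
      (∀ x : ℝ, 1 ≤ x → |(pc q x : ℝ) - ∫ u in (1 : ℝ)..x, nd γ u| ≤ 1) ∧
      (∃ ρ : ℝ, 0 < ρ ∧ ∀ ε : ℝ, 0 < ε → ∃ C : ℝ, ∀ x : ℝ, 1 ≤ x →
        |({n : ℕ | gint q (n + 1) ≤ x}.ncard : ℝ) - ρ * x| ≤ C * x ^ (1 / 2 + ε)) ∧
      ∃ Z G : ℂ → ℂ, (∀ s : ℂ, 1 / 3 < s.re → AnalyticAt ℂ Z s) ∧
        (∀ s : ℂ, 1 < s.re → ∑' n : ℕ, ((gint q (n + 1) : ℝ) : ℂ) ^ (-s) = Z s / (s - 1)) ∧
        DifferentiableOn ℂ G {s | 1 / 2 < s.re} ∧
        (∀ s : ℂ, 1 / 2 < s.re → Z s = s * Complex.exp (G s)) ∧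
        (∀ σ : ℝ, 1 / 2 < σ → ∃ C : ℝ, 0 ≤ C ∧ ∀ s : ℂ, σ ≤ s.re → ‖G s‖ ≤ C * √(Real.log (|s.im| + 3))) ∧
        ∀ s : ℂ, 1 / 3 < s.re →
          analyticOrderAt Z s = {k | s = 1 / 2 + γ k * I ∨ s = 1 / 2 - γ k * I}.encard := by
  let _ : Dens := dens γ h0
  obtain ⟨q, hq, hsm⟩ := sample
  have hmono := s_mono hq
  have hg := s_ge hq
  have hq0 := s_zero hq
  have hq1 : ∀ j, 1 < q j := fun j => lt_of_lt_of_le hq0 (hmono.monotone (Nat.zero_le j))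
  have hD : Disc q := s_disc hq hsm
  obtain ⟨H, hH1, hH2, hH3⟩ := lgp3 hmono hq1 hg
  obtain ⟨Φ, hΦ1, hΦ2, hΦ3⟩ := exists_Phi h0 hm hW
  have hT : ∀ s : ℂ, 1 < s.re → Tm s = Tz s - 1 / 2 * Tz (2 * s) + HH γ s := fun s hs => Tm_formula h0 hs
  have hP2 : ∀ s : ℂ, 1 < s.re → FF q 0 s = (∑' j, (q j : ℂ) ^ (-s)) - Tm s := by
    intro s hs
    rw [FF_eq hmono hg hq0 0 hs]
    have e1 : s + ((0 : ℤ) : ℂ) * I = s := by simp
    rw [e1]
  have hP0 : DifferentiableOn ℂ (FF q 0) {s | 0 < s.re} := FF_half hq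
  -- the regular part
  let Ex : ℂ → ℂ := fun s => FF q 0 s + 1 / 2 * FF q 0 (2 * s) - 1 / 4 * Tz (4 * s) + 1 / 2 * HH γ (2 * s) + H s
  have hExd : DifferentiableOn ℂ Ex {s | 1 / 3 < s.re} := by
    have a1 : DifferentiableOn ℂ (FF q 0) {s | 1 / 3 < s.re} := hP0.mono fun s hs => by
      have hs' : 1 / 3 < s.re := hs
      show 0 < s.re
      linarith
    have a2 : DifferentiableOn ℂ (fun s => FF q 0 (2 * s)) {s | 1 / 3 < s.re} :=
      hP0.comp (by fun_prop) fun s hs => by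
        have hs' : 1 / 3 < s.re := hs
        show 0 < (2 * s).re
        rw [re2m]
        linarith
    have a3 : DifferentiableOn ℂ (fun s => Tz (4 * s)) {s | 1 / 3 < s.re} :=
      Tz_diffOn.comp (by fun_prop) fun s hs => by
        have hs' : 1 / 3 < s.re := hs
        show 1 < (4 * s).re
        rw [re4m]
        linarith
    have a4 : DifferentiableOn ℂ (fun s => HH γ (2 * s)) {s | 1 / 3 < s.re} :=
      (HH_diff h0 hW).comp (by fun_prop) fun s hs => by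
        have hs' : 1 / 3 < s.re := hs
        show 1 / 2 < (2 * s).re
        rw [re2m]
        linarith
    exact (((a1.add (a2.const_mul _)).sub (a3.const_mul _)).add (a4.const_mul _)).add hH1
  have hopen3 : IsOpen {s : ℂ | 1 / 3 < s.re} := isOpen_lt continuous_const Complex.continuous_re
  have hopen2 : IsOpen {s : ℂ | 1 / 2 < s.re} := isOpen_lt continuous_const Complex.continuous_re
  have hExa : ∀ s : ℂ, 1 / 3 < s.re → AnalyticAt ℂ Ex s := fun s hs =>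
    hExd.analyticAt (hopen3.mem_nhds hs)
  let G : ℂ → ℂ := fun s => HH γ s + Ex s
  have hGd : DifferentiableOn ℂ G {s | 1 / 2 < s.re} := (HH_diff h0 hW).add (hExd.mono fun s hs => by
    have hs' : 1 / 2 < s.re := hs
    show 1 / 3 < s.re
    linarith)
  have hGb : ∀ σ : ℝ, 1 / 2 < σ → ∃ C : ℝ, 0 ≤ C ∧ ∀ s : ℂ, σ ≤ s.re → ‖G s‖ ≤ C * √(Real.log (|s.im| + 3)) := by
    intro σ hσ
    obtain ⟨C1, h10, h1⟩ := FF_log hmono hg hq0 hD hσ
    obtain ⟨C2, h20, h2⟩ := hH2 σ (by linarith)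
    obtain ⟨C3, h30, h3⟩ := HH_bd h0 hW hσ
    have hσ4 : 0 < 4 * σ - 1 := by linarith
    refine ⟨C1 + 1 / 2 * (2 * C1) + 1 / 4 * (1 / (4 * σ - 1)) + 1 / 2 * C3 + C2 + C3, by positivity, fun s hs => ?_⟩
    have hL3 : (3 : ℝ) ≤ |s.im| + 3 := by linarith [abs_nonneg s.im]
    have hL0 : 0 ≤ Real.log (|s.im| + 3) := Real.log_nonneg (by linarith)
    have hL : 1 ≤ √(Real.log (|s.im| + 3)) := by
      rw [Real.one_le_sqrt, Real.le_log_iff_exp_le (by positivity)]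
      have := Real.exp_one_lt_d9
      linarith
    set L := √(Real.log (|s.im| + 3)) with hLdef
    have b1 := h1 s hs
    have b2 : ‖FF q 0 (2 * s)‖ ≤ C1 * (2 * L) := by
      refine (h1 (2 * s) (by rw [re2m]; linarith)).trans (mul_le_mul_of_nonneg_left ?_ h10)
      rw [im2m]
      have h4 : |2 * s.im| + 3 ≤ (|s.im| + 3) ^ 2 := by
        rw [abs_mul, abs_two]
        nlinarith [abs_nonneg s.im]
      have h7 : Real.log (|2 * s.im| + 3) ≤ 2 * Real.log (|s.im| + 3) := by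
        have := Real.log_le_log (by positivity) h4
        rw [Real.log_pow] at this
        push_cast at this
        exact this
      calc √(Real.log (|2 * s.im| + 3)) ≤ √(2 ^ 2 * Real.log (|s.im| + 3)) := Real.sqrt_le_sqrt (by linarith)
        _ = 2 * L := by rw [Real.sqrt_mul (by norm_num), Real.sqrt_sq (by norm_num)]
    have b3 : ‖Tz (4 * s)‖ ≤ 1 / (4 * σ - 1) := by
      have h5 : 1 < (4 * s).re := by rw [re4m]; linarith
      refine (Tz_norm h5).trans (one_div_le_one_div_of_le hσ4 ?_)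
      rw [re4m]
      linarith
    have b4 : ‖HH γ (2 * s)‖ ≤ C3 := (h3 (2 * s) (by rw [re2m]; linarith)).2
    have b5 : ‖HH γ s‖ ≤ C3 := (h3 s hs).2
    have b6 := h2 s hs
    have e : G s = FF q 0 s + 1 / 2 * FF q 0 (2 * s) - 1 / 4 * Tz (4 * s) + 1 / 2 * HH γ (2 * s) + H s + HH γ s := by
      show HH γ s + (FF q 0 s + 1 / 2 * FF q 0 (2 * s) - 1 / 4 * Tz (4 * s) + 1 / 2 * HH γ (2 * s) + H s) = _
      ring
    have n1 : ‖(1 / 2 : ℂ) * FF q 0 (2 * s)‖ = 1 / 2 * ‖FF q 0 (2 * s)‖ := by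
      rw [norm_mul]
      norm_num
    have n2 : ‖(1 / 4 : ℂ) * Tz (4 * s)‖ = 1 / 4 * ‖Tz (4 * s)‖ := by
      rw [norm_mul]
      norm_num
    have n3 : ‖(1 / 2 : ℂ) * HH γ (2 * s)‖ = 1 / 2 * ‖HH γ (2 * s)‖ := by
      rw [norm_mul]
      norm_num
    have t : ‖G s‖ ≤ ‖FF q 0 s‖ + 1 / 2 * ‖FF q 0 (2 * s)‖ + 1 / 4 * ‖Tz (4 * s)‖ + 1 / 2 * ‖HH γ (2 * s)‖ + ‖H s‖ +
        ‖HH γ s‖ := by
      rw [e, ← n1, ← n2, ← n3]
      refine (norm_add_le _ _).trans (add_le_add ?_ le_rfl)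
      refine (norm_add_le _ _).trans (add_le_add ?_ le_rfl)
      refine (norm_add_le _ _).trans (add_le_add ?_ le_rfl)
      refine (norm_sub_le _ _).trans (add_le_add ?_ le_rfl)
      exact norm_add_le _ _
    have c1 : (1 / 4 * (1 / (4 * σ - 1)) + 1 / 2 * C3 + C2 + C3) ≤
        (1 / 4 * (1 / (4 * σ - 1)) + 1 / 2 * C3 + C2 + C3) * L := le_mul_of_one_le_right (by positivity) hL
    have c2 : C1 * (2 * L) = 2 * C1 * L := by ring
    nlinarith
  have hZ0 : ∀ s : ℂ, 1 < s.re → ∑' n : ℕ, ((gint q (n + 1) : ℝ) : ℂ) ^ (-s) = s / (s - 1) * Complex.exp (G s) := by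
    intro s hs
    rw [euler hmono hq1 hg hs, hH3 s hs]
    have hs2 : 1 < (2 * s).re := by rw [re2m]; linarith
    have e1 : (∑' j, (q j : ℂ) ^ (-s)) = FF q 0 s + (Tz s - 1 / 2 * Tz (2 * s) + HH γ s) := by
      rw [hP2 s hs, ← hT s hs]
      ring
    have e2 : (∑' j, (q j : ℂ) ^ (-(2 * s))) = FF q 0 (2 * s) + (Tz (2 * s) - 1 / 2 * Tz (4 * s) + HH γ (2 * s)) := by
      have e3 : (4 : ℂ) * s = 2 * (2 * s) := by ring
      rw [hP2 (2 * s) hs2, e3, ← hT (2 * s) hs2]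
      ring
    rw [e1, e2]
    have e4 : FF q 0 s + (Tz s - 1 / 2 * Tz (2 * s) + HH γ s) +
        1 / 2 * (FF q 0 (2 * s) + (Tz (2 * s) - 1 / 2 * Tz (4 * s) + HH γ (2 * s))) + H s = Tz s + G s := by
      show _ = Tz s + (HH γ s + (FF q 0 s + 1 / 2 * FF q 0 (2 * s) - 1 / 4 * Tz (4 * s) + 1 / 2 * HH γ (2 * s) + H s))
      ring
    rw [e4, Complex.exp_add, Tz_exp hs]
  obtain ⟨ρ, hρ, hN⟩ := ints hmono hg hq0 hGd hZ0 hGb
  have hZG : ∀ s : ℂ, 1 / 2 < s.re → s * Φ s * Complex.exp (Ex s) = s * Complex.exp (G s) := by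
    intro s hs
    have e := Complex.exp_add (HH γ s) (Ex s)
    show s * Φ s * Complex.exp (Ex s) = s * Complex.exp (HH γ s + Ex s)
    rw [hΦ2 s hs, e, mul_assoc]
  refine ⟨q, hmono, hq0, hg, fun x hx => s_count hq hx, ⟨ρ, hρ, hN⟩, fun s => s * Φ s * Complex.exp (Ex s), G,
    fun s hs => ?_, fun s hs => ?_, hGd, hZG, hGb, fun s hs => ?_⟩
  · exact (analyticAt_id.mul (hΦ1 s hs)).mul (hExa s hs).cexp
  · rw [hZ0 s hs]
    beta_reduce
    rw [hZG s (by linarith)]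
    ring
  · have a1 : AnalyticAt ℂ (fun s : ℂ => s) s := analyticAt_id
    have a2 := hΦ1 s hs
    have a3 : AnalyticAt ℂ (fun s => Complex.exp (Ex s)) s := (hExa s hs).cexp
    have hs0 : s ≠ 0 := by
      intro h
      rw [h] at hs
      simp at hs
      linarith
    have o1 : analyticOrderAt (fun s : ℂ => s) s = 0 := by
      rw [a1.analyticOrderAt_eq_zero]
      exact hs0
    have o3 : analyticOrderAt (fun s => Complex.exp (Ex s)) s = 0 := by
      rw [a3.analyticOrderAt_eq_zero]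
      exact Complex.exp_ne_zero _
    have e : (fun s => s * Φ s * Complex.exp (Ex s)) = ((fun s : ℂ => s) * Φ) * fun s => Complex.exp (Ex s) := rfl
    rw [e, analyticOrderAt_mul (a1.mul a2) a3, analyticOrderAt_mul a1 a2, o1, o3, zero_add, add_zero, hΦ3 s hs]

end Pool.Agent.H49.BZ
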