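import Pool.Agent.H49.BZ.Base
import Pool.Agent.H49.BZ.Win

/-!
# The density with prescribed zeros
-/

set_option autoImplicit false

open MeasureTheory Filter Topology Set

namespace Pool.Agent.H49.BZ

/-- the number of half turns before the start -/
noncomputable def nn (γ : ℕ → ℝ) (k : ℕ) : ℕ :=
  ⌈γ k * (2 * Real.log (8 * k + 9) + Real.log (1 + γ k)) / Real.pi⌉₊

/-- the logarithm of the start -/
noncomputable def LL (γ : ℕ → ℝ) (k : ℕ) : ℝ := Real.pi * nn γ k / γ k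

theorem LL_ge {γ : ℕ → ℝ} (h0 : ∀ k, 0 < γ k) (k : ℕ) :
    2 * Real.log (8 * k + 9) + Real.log (1 + γ k) ≤ LL γ k := by
  unfold LL nn
  have h := Nat.le_ceil (γ k * (2 * Real.log (8 * k + 9) + Real.log (1 + γ k)) / Real.pi)
  rw [div_le_iff₀ Real.pi_pos] at h
  rw [le_div_iff₀ (h0 k)]
  linarith

theorem LL_le {γ : ℕ → ℝ} (h0 : ∀ k, 0 < γ k) (k : ℕ) :
    LL γ k ≤ 2 * Real.log (8 * k + 9) + Real.log (1 + γ k) + Real.pi / γ k := by
  unfold LL nn
  have hl1 : 0 ≤ Real.log (8 * k + 9) := Real.log_nonneg (by linarith [Nat.cast_nonneg (α := ℝ) k])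
  have hl2 : 0 ≤ Real.log (1 + γ k) := Real.log_nonneg (by linarith [h0 k])
  have hg := h0 k
  have hpi := Real.pi_pos
  have hA0 : 0 ≤ γ k * (2 * Real.log (8 * k + 9) + Real.log (1 + γ k)) := by positivity
  have e : 2 * Real.log (8 * k + 9) + Real.log (1 + γ k) + Real.pi / γ k =
      (γ k * (2 * Real.log (8 * k + 9) + Real.log (1 + γ k)) + Real.pi) / γ k := by
    field_simp
  rw [e]
  refine div_le_div_of_nonneg_right ?_ hg.le
  set A := γ k * (2 * Real.log (8 * k + 9) + Real.log (1 + γ k)) with hA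
  have h := (Nat.ceil_lt_add_one (a := A / Real.pi) (by positivity)).le
  have h3 := mul_le_mul_of_nonneg_left h hpi.le
  rw [mul_add, mul_div_cancel₀ _ hpi.ne', mul_one] at h3
  exact h3

theorem LL_sin {γ : ℕ → ℝ} (h0 : ∀ k, 0 < γ k) (k : ℕ) : Real.sin (γ k * LL γ k) = 0 := by
  unfold LL
  rw [mul_div_cancel₀ _ (h0 k).ne', mul_comm]
  exact Real.sin_nat_mul_pi _

theorem log9 (k : ℕ) : 1 ≤ Real.log (8 * k + 9) := by
  rw [Real.le_log_iff_exp_le (by positivity)]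
  have := Real.exp_one_lt_d9
  have := Nat.cast_nonneg (α := ℝ) k
  linarith

theorem LL_one {γ : ℕ → ℝ} (h0 : ∀ k, 0 < γ k) (k : ℕ) : 1 ≤ LL γ k := by
  have h1 := LL_ge h0 k
  have h2 := log9 k
  have h3 : 0 ≤ Real.log (1 + γ k) := Real.log_nonneg (by linarith [h0 k])
  linarith

/-- the start -/
noncomputable def UU (γ : ℕ → ℝ) (k : ℕ) : ℝ := Real.exp (LL γ k)

theorem UU_log (γ : ℕ → ℝ) (k : ℕ) : Real.log (UU γ k) = LL γ k := Real.log_exp _

theorem UU_pos (γ : ℕ → ℝ) (k : ℕ) : 0 < UU γ k := Real.exp_pos _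

theorem UU_ge {γ : ℕ → ℝ} (h0 : ∀ k, 0 < γ k) (k : ℕ) : (8 * (k : ℝ) + 9) ^ 2 * (1 + γ k) ≤ UU γ k := by
  unfold UU
  have h1 := LL_ge h0 k
  have h2 : (8 * (k : ℝ) + 9) ^ 2 * (1 + γ k) = Real.exp (2 * Real.log (8 * k + 9) + Real.log (1 + γ k)) := by
    rw [Real.exp_add, Real.exp_log (by linarith [h0 k]), mul_comm (2 : ℝ), Real.exp_mul,
      Real.exp_log (by positivity)]
    congr 1
    rw [show (2 : ℝ) = ((2 : ℕ) : ℝ) by norm_num, Real.rpow_natCast]
  rw [h2]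
  exact Real.exp_le_exp.2 h1

theorem UU_sq {γ : ℕ → ℝ} (h0 : ∀ k, 0 < γ k) (k : ℕ) : (8 * (k : ℝ) + 9) ^ 2 ≤ UU γ k := by
  refine le_trans ?_ (UU_ge h0 k)
  exact le_mul_of_one_le_right (by positivity) (by linarith [h0 k])

theorem UU_one {γ : ℕ → ℝ} (h0 : ∀ k, 0 < γ k) (k : ℕ) : 1 < UU γ k := by
  have := UU_sq h0 k
  have h2 := Nat.cast_nonneg (α := ℝ) k
  nlinarith

/-- the contribution of one zero to the density, up to the sign -/
noncomputable def ek (γ : ℕ → ℝ) (k : ℕ) (u : ℝ) : ℝ :=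
  if UU γ k ≤ u then 2 * Real.cos (γ k * Real.log u) / (√u * Real.log u) else 0

theorem ek_meas (γ : ℕ → ℝ) (k : ℕ) : Measurable (ek γ k) := by
  unfold ek
  refine Measurable.ite measurableSet_Ici ?_ measurable_const
  fun_prop

theorem ek_abs {γ : ℕ → ℝ} (k : ℕ) {u : ℝ} (hu : 1 < u) : |ek γ k u| ≤ 2 / (√u * Real.log u) := by
  have hl := Real.log_pos hu
  have hs : 0 < √u := Real.sqrt_pos.2 (by linarith)
  unfold ek
  split_ifs
  · rw [abs_div, abs_mul, abs_two, abs_of_pos (mul_pos hs hl)]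
    refine div_le_div_of_nonneg_right ?_ (by positivity)
    have := Real.abs_cos_le_one (γ k * Real.log u)
    linarith
  · rw [abs_zero]
    positivity

/-- the number of the terms -/
noncomputable def KK (u : ℝ) : ℕ := ⌊(√u - 1) / 8⌋₊

theorem ek_zero {γ : ℕ → ℝ} (h0 : ∀ k, 0 < γ k) {u : ℝ} {k : ℕ} (hk : KK u ≤ k) : ek γ k u = 0 := by
  unfold ek
  rw [if_neg]
  intro h
  have h1 := (UU_sq h0 k).trans h
  have h2 : 8 * (k : ℝ) + 9 ≤ √u := Real.le_sqrt_of_sq_le h1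
  have h3 : (√u - 1) / 8 < KK u + 1 := Nat.lt_floor_add_one _
  have h4 : (KK u : ℝ) ≤ k := by exact_mod_cast hk
  linarith

theorem ek_sum {γ : ℕ → ℝ} (h0 : ∀ k, 0 < γ k) (u : ℝ) :
    ∑' k, ek γ k u = ∑ k ∈ Finset.range (KK u), ek γ k u := by
  refine tsum_eq_sum fun k hk => ek_zero h0 ?_
  rw [Finset.mem_range] at hk
  omega

theorem ek_hasSum {γ : ℕ → ℝ} (h0 : ∀ k, 0 < γ k) (u : ℝ) :
    HasSum (fun k => ek γ k u) (∑ k ∈ Finset.range (KK u), ek γ k u) := by
  refine hasSum_sum_of_ne_finset_zero fun k hk => ek_zero h0 ?_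
  rw [Finset.mem_range] at hk
  omega

theorem ek_tsum_abs {γ : ℕ → ℝ} (h0 : ∀ k, 0 < γ k) {u : ℝ} (hu : 1 < u) :
    |∑' k, ek γ k u| ≤ (1 - (√u)⁻¹) / (4 * Real.log u) := by
  have hl := Real.log_pos hu
  have hs1 : 1 ≤ √u := Real.one_le_sqrt.2 hu.le
  have hs : 0 < √u := by linarith
  rw [ek_sum h0]
  have h1 : |∑ k ∈ Finset.range (KK u), ek γ k u| ≤ ∑ k ∈ Finset.range (KK u), 2 / (√u * Real.log u) :=
    (Finset.abs_sum_le_sum_abs _ _).trans (Finset.sum_le_sum fun k _ => ek_abs k hu)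
  rw [Finset.sum_const, Finset.card_range, nsmul_eq_mul] at h1
  have h2 : (KK u : ℝ) ≤ (√u - 1) / 8 := Nat.floor_le (by linarith)
  calc |∑ k ∈ Finset.range (KK u), ek γ k u| ≤ (KK u : ℝ) * (2 / (√u * Real.log u)) := h1
    _ ≤ (√u - 1) / 8 * (2 / (√u * Real.log u)) := mul_le_mul_of_nonneg_right h2 (by positivity)
    _ = (1 - (√u)⁻¹) / (4 * Real.log u) := by
        field_simp
        ring

theorem ek_tsum_meas {γ : ℕ → ℝ} (h0 : ∀ k, 0 < γ k) : Measurable fun u => ∑' k, ek γ k u := by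
  refine measurable_of_tendsto_metrizable (f := fun (n : ℕ) u => ∑ k ∈ Finset.range n, ek γ k u) (fun n => ?_) ?_
  · exact Finset.measurable_fun_sum _ fun k _ => ek_meas γ k
  · rw [tendsto_pi_nhds]
    intro u
    rw [ek_sum h0]
    exact (ek_hasSum h0 u).tendsto_sum_nat

/-- the density -/
noncomputable def nd (γ : ℕ → ℝ) (u : ℝ) : ℝ :=
  ((1 - u⁻¹) - 1 / 2 * ((√u)⁻¹ - u⁻¹)) / Real.log u - ∑' k, ek γ k u

theorem nd_meas {γ : ℕ → ℝ} (h0 : ∀ k, 0 < γ k) : Measurable (nd γ) := by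
  unfold nd
  refine Measurable.sub ?_ (ek_tsum_meas h0)
  fun_prop

theorem main_eq {u : ℝ} (hu : 1 < u) : ((1 - u⁻¹) - 1 / 2 * ((√u)⁻¹ - u⁻¹)) / Real.log u =
    (1 - (√u)⁻¹) * (1 + (√u)⁻¹ / 2) / Real.log u := by
  have hs : 0 < √u := Real.sqrt_pos.2 (by linarith)
  have e : u⁻¹ = (√u)⁻¹ * (√u)⁻¹ := by
    rw [← mul_inv, Real.mul_self_sqrt (by linarith)]
  rw [e]
  congr 1
  ring

theorem inv_sqrt_lt {u : ℝ} (hu : 1 < u) : (√u)⁻¹ < 1 := by
  have h1 : 1 < √u := by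
    rw [Real.lt_sqrt (by norm_num)]
    linarith
  exact inv_lt_one_of_one_lt₀ h1

theorem nd_bounds {γ : ℕ → ℝ} (h0 : ∀ k, 0 < γ k) {u : ℝ} (hu : 1 < u) :
    3 / 4 * (1 - (√u)⁻¹) / Real.log u ≤ nd γ u ∧ nd γ u ≤ 7 / 4 * (1 - (√u)⁻¹) / Real.log u := by
  have hl := Real.log_pos hu
  have hs : 0 < √u := Real.sqrt_pos.2 (by linarith)
  have h1 := abs_le.1 (ek_tsum_abs h0 hu)
  have h2 := inv_sqrt_lt hu
  have h3 : 0 < (√u)⁻¹ := by positivity
  unfold nd
  rw [main_eq hu]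
  set y := (√u)⁻¹ with hy
  have e1 : (1 - y) / (4 * Real.log u) = (1 - y) / 4 / Real.log u := by
    field_simp
  rw [e1] at h1
  have h4 : 3 / 4 * (1 - y) / Real.log u + (1 - y) / 4 / Real.log u ≤ (1 - y) * (1 + y / 2) / Real.log u := by
    rw [← add_div]
    refine div_le_div_of_nonneg_right ?_ hl.le
    nlinarith
  have h5 : (1 - y) * (1 + y / 2) / Real.log u + (1 - y) / 4 / Real.log u ≤ 7 / 4 * (1 - y) / Real.log u := by
    rw [← add_div]
    refine div_le_div_of_nonneg_right ?_ hl.le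
    nlinarith
  constructor
  · linarith [h1.2]
  · linarith [h1.1]

theorem log_ge {u : ℝ} (hu : 1 < u) : 2 * (1 - (√u)⁻¹) ≤ Real.log u := by
  have hs : 0 < √u := Real.sqrt_pos.2 (by linarith)
  have h1 := Real.one_sub_inv_le_log_of_pos hs
  have h2 : Real.log (√u) = Real.log u / 2 := Real.log_sqrt (by linarith)
  linarith

/-- the density of the generalised primes with prescribed zeros -/
@[reducible] noncomputable def dens (γ : ℕ → ℝ) (h0 : ∀ k, 0 < γ k) : Dens where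
  md := nd γ
  meas := nd_meas h0
  pos u hu := by
    have hl := Real.log_pos hu
    have h2 := inv_sqrt_lt hu
    refine lt_of_lt_of_le ?_ (nd_bounds h0 hu).1
    have : 0 < 1 - (√u)⁻¹ := by linarith
    positivity
  nonneg u hu := by
    rcases eq_or_lt_of_le hu with h | h
    · subst h
      unfold nd
      have h1 : ∀ k, ek γ k 1 = 0 := by
        intro k
        unfold ek
        rw [if_neg (not_le.2 (UU_one h0 k))]
      simp [h1]
    · have hl := Real.log_pos h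
      have h2 := inv_sqrt_lt h
      refine le_trans ?_ (nd_bounds h0 h).1
      have : 0 < 1 - (√u)⁻¹ := by linarith
      positivity
  le_one u hu := by
    rcases eq_or_lt_of_le hu with h | h
    · subst h
      unfold nd
      have h1 : ∀ k, ek γ k 1 = 0 := by
        intro k
        unfold ek
        rw [if_neg (not_le.2 (UU_one h0 k))]
      simp [h1]
    · have hl := Real.log_pos h
      refine (nd_bounds h0 h).2.trans ?_
      rw [div_le_one hl]
      have := log_ge h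
      have h2 := inv_sqrt_lt h
      linarith
  low u hu := by
    have h1 : 1 < u := by linarith
    have hl := Real.log_pos h1
    refine le_trans ?_ (nd_bounds h0 h1).1
    have h2 : (√u)⁻¹ ≤ 3 / 4 := by
      have h3 : (4 / 3 : ℝ) ≤ √u := by
        refine Real.le_sqrt_of_sq_le ?_
        norm_num
        linarith
      have h4 := inv_anti₀ (by norm_num : (0 : ℝ) < 4 / 3) h3
      norm_num at h4
      exact h4
    rw [div_le_div_iff₀ (by positivity) hl]
    nlinarith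

end Pool.Agent.H49.BZ
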