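import Pool.Agent.H49.BZ.Win

/-!
# Sequences close to the solutions of the Riemann-von Mangoldt equation
-/

set_option autoImplicit false

open Filter Topology Set

namespace Pool.Agent.H49.BZ

/-- `t log t - t` -/
noncomputable def GA (t : ℝ) : ℝ := t * Real.log t - t

theorem GA_e : GA (Real.exp 1) = 0 := by
  unfold GA
  rw [Real.log_exp]
  ring

theorem GA_ge {a b : ℝ} (ha : 0 < a) (hab : a ≤ b) : (b - a) * Real.log a ≤ GA b - GA a := by
  unfold GA
  have hb : 0 < b := lt_of_lt_of_le ha hab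
  have h1 := Real.one_sub_inv_le_log_of_pos (div_pos hb ha)
  rw [Real.log_div hb.ne' ha.ne', inv_div] at h1
  have h2 := mul_le_mul_of_nonneg_left h1 hb.le
  have e : b * (1 - a / b) = b - a := by
    field_simp
  rw [e] at h2
  linarith

theorem GA_le {a b : ℝ} (ha : 0 < a) (hab : a ≤ b) : GA b - GA a ≤ (b - a) * Real.log b := by
  unfold GA
  have hb : 0 < b := lt_of_lt_of_le ha hab
  have h1 := Real.log_le_sub_one_of_pos (div_pos hb ha)
  rw [Real.log_div hb.ne' ha.ne'] at h1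
  have h2 := mul_le_mul_of_nonneg_left h1 ha.le
  have e : a * (b / a - 1) = b - a := by
    field_simp
  rw [e] at h2
  linarith

theorem e_pos : 0 < Real.exp 1 := Real.exp_pos 1

theorem GA_inc {a b : ℝ} (ha : Real.exp 1 ≤ a) (hab : a ≤ b) : b - a ≤ GA b - GA a := by
  have h1 := GA_ge (lt_of_lt_of_le e_pos ha) hab
  have h2 : 1 ≤ Real.log a := by
    rw [Real.le_log_iff_exp_le (lt_of_lt_of_le e_pos ha)]
    exact ha
  nlinarith

theorem GA_lt_iff {a b : ℝ} (ha : Real.exp 1 ≤ a) (hb : Real.exp 1 ≤ b) : GA a < GA b ↔ a < b := by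
  constructor
  · intro h
    by_contra h2
    push Not at h2
    have := GA_inc hb h2
    linarith
  · intro h
    have := GA_inc ha h.le
    linarith

theorem GA_le_iff {a b : ℝ} (ha : Real.exp 1 ≤ a) (hb : Real.exp 1 ≤ b) : GA a ≤ GA b ↔ a ≤ b := by
  rw [← not_lt, GA_lt_iff hb ha, not_lt]

theorem exists_gi {y : ℝ} (hy : 0 ≤ y) : ∃ t : ℝ, Real.exp 1 ≤ t ∧ GA t = y := by
  have hc : ContinuousOn GA (Icc (Real.exp 1) (Real.exp 1 + y)) := by
    intro u hu
    have hu0 : u ≠ 0 := (lt_of_lt_of_le e_pos hu.1).ne'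
    unfold GA
    exact ((continuousAt_id.mul (Real.continuousAt_log hu0)).sub continuousAt_id).continuousWithinAt
  have h1 : y ≤ GA (Real.exp 1 + y) := by
    have := GA_inc le_rfl (show Real.exp 1 ≤ Real.exp 1 + y by linarith)
    rw [GA_e] at this
    linarith
  obtain ⟨t, ht, he⟩ := intermediate_value_Icc (by linarith) hc (show y ∈ Icc _ _ from ⟨by rw [GA_e]; exact hy, h1⟩)
  exact ⟨t, ht.1, he⟩

/-- the main term of the Riemann-von Mangoldt formula -/
noncomputable def rvm (T : ℝ) : ℝ := GA (T / (2 * Real.pi))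

/-- the solution of the equation `rvm T = n` -/
noncomputable def gi (n : ℕ) : ℝ := 2 * Real.pi * (exists_gi (Nat.cast_nonneg (α := ℝ) n)).choose

theorem tp : 0 < 2 * Real.pi := by
  have := Real.pi_pos
  linarith

theorem gi_ge (n : ℕ) : 2 * Real.pi * Real.exp 1 ≤ gi n :=
  mul_le_mul_of_nonneg_left (exists_gi (Nat.cast_nonneg (α := ℝ) n)).choose_spec.1 tp.le

theorem rvm_gi (n : ℕ) : rvm (gi n) = n := by
  unfold rvm gi
  rw [mul_div_cancel_left₀ _ tp.ne']
  exact (exists_gi (Nat.cast_nonneg (α := ℝ) n)).choose_spec.2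

theorem div_ge {T : ℝ} (hT : 2 * Real.pi * Real.exp 1 ≤ T) : Real.exp 1 ≤ T / (2 * Real.pi) := by
  rw [le_div_iff₀ tp]
  linarith

theorem rvm_le_iff {a b : ℝ} (ha : 2 * Real.pi * Real.exp 1 ≤ a) (hb : 2 * Real.pi * Real.exp 1 ≤ b) :
    rvm a ≤ rvm b ↔ a ≤ b := by
  unfold rvm
  rw [GA_le_iff (div_ge ha) (div_ge hb), div_le_div_iff_of_pos_right tp]

theorem rvm_lt_iff {a b : ℝ} (ha : 2 * Real.pi * Real.exp 1 ≤ a) (hb : 2 * Real.pi * Real.exp 1 ≤ b) :
    rvm a < rvm b ↔ a < b := by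
  unfold rvm
  rw [GA_lt_iff (div_ge ha) (div_ge hb), div_lt_div_iff_of_pos_right tp]

theorem gi_mono : StrictMono gi := by
  refine strictMono_nat_of_lt_succ fun n => ?_
  rw [← rvm_lt_iff (gi_ge n) (gi_ge (n + 1)), rvm_gi, rvm_gi]
  push_cast
  linarith

theorem c_bounds : 17 ≤ 2 * Real.pi * Real.exp 1 ∧ 2 * Real.pi * Real.exp 1 ≤ 18 := by
  have h1 := Real.pi_gt_d2
  have h2 := Real.pi_lt_d2
  have h3 := Real.exp_one_gt_d9
  have h4 := Real.exp_one_lt_d9
  constructor <;> nlinarith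

theorem rvm_nonneg {T : ℝ} (hT : 2 * Real.pi * Real.exp 1 ≤ T) : 0 ≤ rvm T := by
  have h1 := GA_inc le_rfl (div_ge hT)
  rw [GA_e] at h1
  have := div_ge hT
  unfold rvm
  linarith

theorem rvm_le_sq {T : ℝ} (hT : 2 * Real.pi * Real.exp 1 ≤ T) : rvm T ≤ T ^ 2 / 36 := by
  unfold rvm GA
  have h1 := Real.pi_gt_d2
  have hT0 : 0 < T := by linarith [c_bounds.1]
  set t := T / (2 * Real.pi) with ht
  have ht0 : 0 < t := div_pos hT0 tp
  have h2 : t ≤ T / 6 := div_le_div_of_nonneg_left hT0.le (by norm_num) (by linarith)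
  have h3 := Real.log_le_sub_one_of_pos ht0
  nlinarith

/-- The sequence `γ` follows the main term of the Riemann-von Mangoldt formula with a logarithmic error. -/
def Near (γ : ℕ → ℝ) : Prop :=
  (∀ k, 2 * Real.pi * Real.exp 1 ≤ γ k) ∧ (∀ k : ℕ, rvm (γ k) ≤ k + 1) ∧
    ∀ k : ℕ, (k : ℝ) ≤ rvm (γ k) + Real.log (k + 3)

theorem near_pos {γ : ℕ → ℝ} (h : Near γ) (k : ℕ) : 0 < γ k := by
  have := h.1 k
  linarith [c_bounds.1]

theorem near_upper {γ : ℕ → ℝ} (h : Near γ) {T : ℝ} {k : ℕ} (hk : γ k ≤ T) : (k : ℝ) ≤ rvm T + 2 * Real.log T := by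
  have hT : 2 * Real.pi * Real.exp 1 ≤ T := (h.1 k).trans hk
  have hT17 : 17 ≤ T := c_bounds.1.trans hT
  have h1 := h.2.2 k
  have h2 : rvm (γ k) ≤ rvm T := (rvm_le_iff (h.1 k) hT).2 hk
  have hk0 := Nat.cast_nonneg (α := ℝ) k
  have h3 : Real.log ((k : ℝ) + 3) ≤ ((k : ℝ) + 3) / 2 := by
    have h4 := Real.log_le_sub_one_of_pos (show 0 < ((k : ℝ) + 3) / 2 by positivity)
    rw [Real.log_div (by positivity) (by norm_num)] at h4
    have h5 := Real.log_two_lt_d9
    linarith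
  have h4 : (k : ℝ) + 3 ≤ T ^ 2 := by
    have := rvm_le_sq hT
    nlinarith
  have h5 : Real.log ((k : ℝ) + 3) ≤ 2 * Real.log T := by
    have := Real.log_le_log (by positivity) h4
    rw [Real.log_pow] at this
    push_cast at this
    exact this
  linarith

theorem near_lower {γ : ℕ → ℝ} (h : Near γ) {T : ℝ} (hT : 2 * Real.pi * Real.exp 1 ≤ T) {k : ℕ}
    (hk : (k : ℝ) + 1 ≤ rvm T) : γ k ≤ T := by
  rw [← rvm_le_iff (h.1 k) hT]
  exact (h.2.1 k).trans hk

theorem card_real {S : Finset ℕ} {a b : ℝ} (h : ∀ k ∈ S, a ≤ k ∧ (k : ℝ) ≤ b) (hab : a ≤ b + 1) :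
    (S.card : ℝ) ≤ b - a + 1 := by
  rcases S.eq_empty_or_nonempty with he | hne
  · rw [he]
    simp
    linarith
  · have h1 : S ⊆ Finset.Icc (S.min' hne) (S.max' hne) := fun k hk =>
      Finset.mem_Icc.2 ⟨S.min'_le k hk, S.le_max' k hk⟩
    have h2 := Finset.card_le_card h1
    rw [Nat.card_Icc] at h2
    have h3 := (h _ (S.min'_mem hne)).1
    have h4 := (h _ (S.max'_mem hne)).2
    have h5 : S.min' hne ≤ S.max' hne := S.min'_le _ (S.max'_mem hne)
    have h6 : ((S.max' hne + 1 - S.min' hne : ℕ) : ℝ) = (S.max' hne : ℝ) + 1 - S.min' hne := by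
      rw [Nat.cast_sub (by omega)]
      push_cast
      ring
    have h7 : (S.card : ℝ) ≤ ((S.max' hne + 1 - S.min' hne : ℕ) : ℝ) := by exact_mod_cast h2
    rw [h6] at h7
    linarith

theorem near_windows {γ : ℕ → ℝ} (h : Near γ) : Windows γ := by
  intro ε hε
  refine ⟨3 * (19 ^ ε / ε) + 3, fun T hT S hS => ?_⟩
  set T' := max T (2 * Real.pi * Real.exp 1) with hT'
  have h1 : 2 * Real.pi * Real.exp 1 ≤ T' := le_max_right _ _
  have h17 : 17 ≤ T' := c_bounds.1.trans h1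
  have h2 : ∀ k ∈ S, rvm T' - 1 ≤ k ∧ (k : ℝ) ≤ rvm (T' + 1) + 2 * Real.log (T' + 1) := by
    intro k hk
    obtain ⟨h3, h4⟩ := hS k hk
    have h5 : T' ≤ γ k := max_le h3 (h.1 k)
    have h6 : γ k ≤ T' + 1 := h4.trans (by linarith [le_max_left T (2 * Real.pi * Real.exp 1)])
    refine ⟨?_, near_upper h h6⟩
    have h7 := (rvm_le_iff h1 (h.1 k)).2 h5
    have h8 := h.2.1 k
    linarith
  have h3 : rvm T' ≤ rvm (T' + 1) := (rvm_le_iff h1 (by linarith)).2 (by linarith)
  have hL : 0 ≤ Real.log (T' + 1) := Real.log_nonneg (by linarith)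
  have h4 := card_real h2 (by linarith)
  have h5 : rvm (T' + 1) - rvm T' ≤ Real.log (T' + 1) := by
    unfold rvm
    have hp := Real.pi_gt_d2
    have h6 := GA_le (a := T' / (2 * Real.pi)) (b := (T' + 1) / (2 * Real.pi)) (by
      have := tp
      positivity) (div_le_div_of_nonneg_right (by linarith) tp.le)
    have h7 : (T' + 1) / (2 * Real.pi) - T' / (2 * Real.pi) = 1 / (2 * Real.pi) := by ring
    rw [h7] at h6
    have h8 : Real.log ((T' + 1) / (2 * Real.pi)) ≤ Real.log (T' + 1) := by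
      refine Real.log_le_log (div_pos (by linarith) tp) ?_
      rw [div_le_iff₀ tp]
      nlinarith
    have h9 : 1 / (2 * Real.pi) ≤ 1 := by
      rw [div_le_one tp]
      linarith
    have h10 : 0 < 1 / (2 * Real.pi) := by
      have := tp
      positivity
    calc GA ((T' + 1) / (2 * Real.pi)) - GA (T' / (2 * Real.pi))
        ≤ 1 / (2 * Real.pi) * Real.log ((T' + 1) / (2 * Real.pi)) := h6
      _ ≤ 1 / (2 * Real.pi) * Real.log (T' + 1) := mul_le_mul_of_nonneg_left h8 h10.le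
      _ ≤ 1 * Real.log (T' + 1) := mul_le_mul_of_nonneg_right h9 hL
      _ = _ := one_mul _
  have h6 : (S.card : ℝ) ≤ 3 * Real.log (T' + 1) + 3 := by linarith
  have h7 : Real.log (T' + 1) ≤ (T' + 1) ^ ε / ε := Real.log_le_rpow_div (by linarith) hε
  have h8 : T' + 1 ≤ 19 * (T + 1) := by
    have : T' ≤ T + 18 := max_le (by linarith) (by linarith [c_bounds.2])
    linarith
  have h9 : (T' + 1) ^ ε ≤ 19 ^ ε * (T + 1) ^ ε := by
    rw [← Real.mul_rpow (by norm_num) (by linarith)]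
    exact Real.rpow_le_rpow (by linarith) h8 hε.le
  have h10 : 1 ≤ (T + 1) ^ ε := Real.one_le_rpow (by linarith) hε.le
  have h11 : (T' + 1) ^ ε / ε ≤ 19 ^ ε / ε * (T + 1) ^ ε := by
    rw [div_mul_eq_mul_div]
    exact div_le_div_of_nonneg_right h9 hε.le
  calc (S.card : ℝ) ≤ 3 * (19 ^ ε / ε * (T + 1) ^ ε) + 3 * (T + 1) ^ ε := by linarith
    _ = _ := by ring

/-- the number of terms up to `T` -/
noncomputable def cnt (γ : ℕ → ℝ) (T : ℝ) : ℕ := {k | γ k ≤ T}.ncard

theorem cnt_set {γ : ℕ → ℝ} (hm : Monotone γ) (htop : Tendsto γ atTop atTop) (T : ℝ) :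
    {k | γ k ≤ T} = Iio (cnt γ T) := by
  classical
  have hex : ∃ n, T < γ n := (htop.eventually (eventually_gt_atTop T)).exists
  have h1 : {k | γ k ≤ T} = Iio (Nat.find hex) := by
    ext k
    rw [mem_Iio]
    constructor
    · intro h
      by_contra h2
      push Not at h2
      have := Nat.find_spec hex
      have h3 : γ k ≤ T := h
      linarith [hm h2]
    · intro h
      have := Nat.find_min hex h
      push Not at this
      exact this
  have h2 : cnt γ T = Nat.find hex := by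
    unfold cnt
    rw [h1, ← Finset.coe_range, Set.ncard_coe_finset, Finset.card_range]
  rw [h2, h1]

theorem lt_cnt {γ : ℕ → ℝ} (hm : Monotone γ) (htop : Tendsto γ atTop atTop) (T : ℝ) (k : ℕ) :
    k < cnt γ T ↔ γ k ≤ T := by
  have := cnt_set hm htop T
  rw [Set.ext_iff] at this
  exact (this k).symm

theorem near_cnt {γ : ℕ → ℝ} (h : Near γ) (hm : Monotone γ) (htop : Tendsto γ atTop atTop) {T : ℝ}
    (hT : 2 * Real.pi * Real.exp 1 ≤ T) : |(cnt γ T : ℝ) - rvm T| ≤ 2 * Real.log T + 1 := by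
  have hL : 0 ≤ Real.log T := Real.log_nonneg (by linarith [c_bounds.1])
  have h1 : (cnt γ T : ℝ) ≤ rvm T + 2 * Real.log T + 1 := by
    rcases Nat.eq_zero_or_pos (cnt γ T) with h0 | h0
    · rw [h0]
      have := rvm_nonneg hT
      push_cast
      linarith
    · have h2 := (lt_cnt hm htop T (cnt γ T - 1)).1 (by omega)
      have h3 := near_upper h h2
      rw [Nat.cast_sub h0] at h3
      push_cast at h3
      linarith
  have h2 : rvm T ≤ cnt γ T + 1 := by
    by_contra h3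
    push Not at h3
    have h4 := near_lower h hT h3.le
    have h5 := (lt_cnt hm htop T _).2 h4
    exact lt_irrefl _ h5
  rw [abs_le]
  constructor <;> linarith

end Pool.Agent.H49.BZ
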