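import Pool.Agent.H49.BZ.Pc

/-!
# The mass of the density: the sum over the zeros
-/

set_option autoImplicit false

open MeasureTheory Filter Topology Set

namespace Pool.Agent.H49.BZ

variable {γ : ℕ → ℝ}

theorem ek_ii (k : ℕ) {a b : ℝ} (ha : 2 ≤ a) (hb : 2 ≤ b) : IntervalIntegrable (ek γ k) volume a b := by
  rw [intervalIntegrable_iff]
  refine Measure.integrableOn_of_bounded (M := 4) (by simp) (ek_meas γ k).aestronglyMeasurable ?_
  refine (ae_restrict_iff' measurableSet_uIoc).2 (Eventually.of_forall fun u hu => ?_)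
  have hu2 : 2 ≤ u := by
    have := (mem_uIoc.1 hu)
    rcases this with h | h
    · exact ha.trans h.1.le
    · exact hb.trans h.1.le
  rw [Real.norm_eq_abs]
  refine (ek_abs k (by linarith)).trans ?_
  have hl2 : 1 / 2 ≤ Real.log u := by
    have h10 := Real.log_le_log (by norm_num) hu2
    have h11 := Real.log_two_gt_d9
    linarith
  have hs : 1 ≤ √u := Real.one_le_sqrt.2 (by linarith)
  rw [div_le_iff₀ (by positivity)]
  nlinarith

theorem ek_int_bd (h0 : ∀ k, 0 < γ k) (k : ℕ) {x : ℝ} (hx : 2 ≤ x) :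
    |∫ u in (2 : ℝ)..x, ek γ k u| ≤ if UU γ k ≤ x then 10 * √x / γ k else 0 := by
  have hU2 : 2 ≤ UU γ k := by
    have h1 := UU_sq h0 k
    have h2 := Nat.cast_nonneg (α := ℝ) k
    nlinarith
  split_ifs with h
  · rw [← intervalIntegral.integral_add_adjacent_intervals (ek_ii k le_rfl hU2) (ek_ii k hU2 hx)]
    have h1 : ∫ u in (2 : ℝ)..(UU γ k), ek γ k u = 0 := by
      refine intervalIntegral.integral_zero_ae ?_
      have h2 : ∀ᵐ u : ℝ, u ≠ UU γ k := compl_mem_ae_iff.2 (measure_singleton _)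
      filter_upwards [h2] with u hu hu2
      rw [uIoc_of_le hU2] at hu2
      unfold ek
      rw [if_neg]
      exact not_le.2 (lt_of_le_of_ne hu2.2 hu)
    have h2 : ∫ u in (UU γ k)..x, ek γ k u =
        ∫ u in (UU γ k)..x, 2 * Real.cos (γ k * Real.log u) / (√u * Real.log u) := by
      refine intervalIntegral.integral_congr fun u hu => ?_
      rw [uIcc_of_le h] at hu
      unfold ek
      simp only [if_pos hu.1]
    rw [h1, h2, zero_add]
    refine one_zero (h0 k) (UU_pos γ k) ?_ h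
    rw [UU_log]
    exact LL_one h0 k
  · have h1 : ∫ u in (2 : ℝ)..x, ek γ k u = 0 := by
      have h2 : ∫ u in (2 : ℝ)..x, ek γ k u = ∫ u in (2 : ℝ)..x, (0 : ℝ) := by
        refine intervalIntegral.integral_congr fun u hu => ?_
        rw [uIcc_of_le hx] at hu
        unfold ek
        have h3 : ¬ UU γ k ≤ u := fun h4 => h (h4.trans hu.2)
        simp only [if_neg h3]
      rw [h2]
      simp
    rw [h1]
    simp

theorem KK_mono {u x : ℝ} (h : u ≤ x) : KK u ≤ KK x := by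
  unfold KK
  refine Nat.floor_mono ?_
  have := Real.sqrt_le_sqrt h
  linarith

/-- the sum over the zeros -/
theorem ek_mass (h0 : ∀ k, 0 < γ k) (hm : Monotone γ) (hW : Windows γ) {ε : ℝ} (hε : 0 < ε) :
    ∃ C : ℝ, 0 ≤ C ∧ ∀ x : ℝ, 2 ≤ x → IntervalIntegrable (fun u => ∑' k, ek γ k u) volume 2 x ∧
      |∫ u in (2 : ℝ)..x, ∑' k, ek γ k u| ≤ C * x ^ (1 / 2 + ε) := by
  have hS := win_pow h0 hW hε
  set S := ∑' k, (1 + γ k) ^ (-1 - ε) with hSdef
  have hS0 : 0 ≤ S := tsum_nonneg fun k => Real.rpow_nonneg (by linarith [h0 k]) _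
  have hg0 := h0 0
  refine ⟨10 * (1 + 1 / γ 0) * S, by positivity, fun x hx => ?_⟩
  have hx0 : 0 < x := by linarith
  have hcongr : EqOn (fun u => ∑' k, ek γ k u) (fun u => ∑ k ∈ Finset.range (KK x), ek γ k u) (uIcc 2 x) := by
    intro u hu
    rw [uIcc_of_le hx] at hu
    beta_reduce
    refine tsum_eq_sum fun k hk => ek_zero h0 ?_
    rw [Finset.mem_range, not_lt] at hk
    exact (KK_mono hu.2).trans hk
  have hint : IntervalIntegrable (fun u => ∑ k ∈ Finset.range (KK x), ek γ k u) volume 2 x := by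
    have h1 := IntervalIntegrable.sum (Finset.range (KK x)) (f := ek γ) (μ := volume) (a := 2) (b := x)
      fun k _ => ek_ii k le_rfl hx
    have e : (fun u => ∑ k ∈ Finset.range (KK x), ek γ k u) = ∑ k ∈ Finset.range (KK x), ek γ k := by
      funext u
      rw [Finset.sum_apply]
    rw [e]
    exact h1
  constructor
  · refine hint.congr ?_
    intro u hu
    exact (hcongr (uIoc_subset_uIcc hu)).symm
  rw [intervalIntegral.integral_congr hcongr, intervalIntegral.integral_finsetSum fun k _ => ek_ii k le_rfl hx]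
  have hterm : ∀ k, |∫ u in (2 : ℝ)..x, ek γ k u| ≤ 10 * (1 + 1 / γ 0) * x ^ (1 / 2 + ε) * (1 + γ k) ^ (-1 - ε) := by
    intro k
    refine (ek_int_bd h0 k hx).trans ?_
    have hg := h0 k
    have hg1 : 0 < 1 + γ k := by linarith
    split_ifs with h
    · have h1 : 1 + γ k ≤ x := by
        refine le_trans ?_ ((UU_ge h0 k).trans h)
        refine le_mul_of_one_le_left hg1.le ?_
        have h2 := Nat.cast_nonneg (α := ℝ) k
        nlinarith
      have h2 : 1 / γ k ≤ (1 + 1 / γ 0) * (1 / (1 + γ k)) := by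
        have h3 : γ 0 ≤ γ k := hm (Nat.zero_le k)
        have h4 : 1 / γ k ≤ 1 / γ 0 := one_div_le_one_div_of_le hg0 h3
        have h5 : 1 / γ k = (1 + 1 / γ k) * (1 / (1 + γ k)) := by
          field_simp
          ring
        rw [h5]
        exact mul_le_mul_of_nonneg_right (by linarith) (by positivity)
      have h3 : 1 ≤ x ^ ε * (1 + γ k) ^ (-ε) := by
        rw [Real.rpow_neg hg1.le, ← div_eq_mul_inv, one_le_div (by positivity)]
        exact Real.rpow_le_rpow hg1.le h1 hε.le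
      have e1 : (1 + γ k) ^ (-1 - ε) = 1 / (1 + γ k) * (1 + γ k) ^ (-ε) := by
        rw [show -1 - ε = -1 + -ε by ring, Real.rpow_add hg1, Real.rpow_neg_one, one_div]
      have e2 : x ^ (1 / 2 + ε) = √x * x ^ ε := by
        rw [Real.rpow_add hx0, Real.sqrt_eq_rpow]
      rw [e1, e2]
      calc 10 * √x / γ k = 10 * √x * (1 / γ k) * 1 := by ring
        _ ≤ 10 * √x * ((1 + 1 / γ 0) * (1 / (1 + γ k))) * (x ^ ε * (1 + γ k) ^ (-ε)) := by
            refine mul_le_mul ?_ h3 zero_le_one (by positivity)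
            exact mul_le_mul_of_nonneg_left h2 (by positivity)
        _ = _ := by ring
    · have : 0 ≤ x ^ (1 / 2 + ε) := Real.rpow_nonneg hx0.le _
      have : 0 ≤ (1 + γ k) ^ (-1 - ε) := Real.rpow_nonneg hg1.le _
      positivity
  calc |∑ k ∈ Finset.range (KK x), ∫ u in (2 : ℝ)..x, ek γ k u|
      ≤ ∑ k ∈ Finset.range (KK x), |∫ u in (2 : ℝ)..x, ek γ k u| := Finset.abs_sum_le_sum_abs _ _
    _ ≤ ∑ k ∈ Finset.range (KK x), 10 * (1 + 1 / γ 0) * x ^ (1 / 2 + ε) * (1 + γ k) ^ (-1 - ε) :=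
        Finset.sum_le_sum fun k _ => hterm k
    _ = 10 * (1 + 1 / γ 0) * x ^ (1 / 2 + ε) * ∑ k ∈ Finset.range (KK x), (1 + γ k) ^ (-1 - ε) := by
        rw [Finset.mul_sum]
    _ ≤ 10 * (1 + 1 / γ 0) * x ^ (1 / 2 + ε) * S := by
        refine mul_le_mul_of_nonneg_left ?_ (by positivity)
        exact hS.sum_le_tsum _ fun k _ => Real.rpow_nonneg (by linarith [h0 k]) _
    _ = _ := by ring

/-- the mass of the density -/
theorem nd_mass (h0 : ∀ k, 0 < γ k) (hm : Monotone γ) (hW : Windows γ) {ε : ℝ} (hε : 0 < ε) :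
    ∃ C : ℝ, 0 ≤ C ∧ ∀ x : ℝ, 2 ≤ x →
      |(∫ u in (1 : ℝ)..x, nd γ u) - ∫ u in (2 : ℝ)..x, (Real.log u)⁻¹| ≤ C * x ^ (1 / 2 + ε) := by
  obtain ⟨C, hC0, hC⟩ := ek_mass h0 hm hW hε
  let _ : Dens := dens γ h0
  have hmi : ∀ a b : ℝ, 1 ≤ a → 1 ≤ b → IntervalIntegrable (nd γ) volume a b := fun a b ha hb => md_int ha hb
  refine ⟨|∫ u in (1 : ℝ)..2, nd γ u| + 4 + C, by positivity, fun x hx => ?_⟩
  obtain ⟨hi, hb⟩ := hC x hx
  have hx0 : 0 < x := by linarith
  have hli : IntervalIntegrable (fun u : ℝ => (Real.log u)⁻¹) volume 2 x := by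
    refine ContinuousOn.intervalIntegrable ?_
    rw [uIcc_of_le hx]
    intro u hu
    have hu1 : 1 < u := by linarith [hu.1]
    exact ((Real.continuousAt_log (by linarith)).inv₀ (log_pos' hu1).ne').continuousWithinAt
  have hxp : √x ≤ x ^ (1 / 2 + ε) := by
    rw [Real.sqrt_eq_rpow]
    exact Real.rpow_le_rpow_of_exponent_le (by linarith) (by linarith)
  have hsx : 1 ≤ √x := Real.one_le_sqrt.2 (by linarith)
  have h1 : (∫ u in (1 : ℝ)..x, nd γ u) = (∫ u in (1 : ℝ)..2, nd γ u) + ∫ u in (2 : ℝ)..x, nd γ u :=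
    (intervalIntegral.integral_add_adjacent_intervals (hmi 1 2 le_rfl (by norm_num)) (hmi 2 x (by norm_num) (by linarith))).symm
  have hr : IntervalIntegrable (fun u => nd γ u - (Real.log u)⁻¹ + ∑' k, ek γ k u) volume 2 x :=
    ((hmi 2 x (by norm_num) (by linarith)).sub hli).add hi
  have h2 : (∫ u in (2 : ℝ)..x, nd γ u) - ∫ u in (2 : ℝ)..x, (Real.log u)⁻¹ =
      (∫ u in (2 : ℝ)..x, (nd γ u - (Real.log u)⁻¹ + ∑' k, ek γ k u)) - ∫ u in (2 : ℝ)..x, ∑' k, ek γ k u := by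
    rw [intervalIntegral.integral_add ((hmi 2 x (by norm_num) (by linarith)).sub hli) hi,
      intervalIntegral.integral_sub (hmi 2 x (by norm_num) (by linarith)) hli]
    ring
  obtain ⟨hsi, hsv⟩ := sqrt_int (a := 2) (b := x) (by norm_num) hx
  have h3 : |∫ u in (2 : ℝ)..x, (nd γ u - (Real.log u)⁻¹ + ∑' k, ek γ k u)| ≤ ∫ u in (2 : ℝ)..x, 2 * (√u)⁻¹ := by
    rw [← Real.norm_eq_abs]
    refine intervalIntegral.norm_integral_le_of_norm_le hx (Eventually.of_forall fun u hu => ?_) (hsi.const_mul 2)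
    have hu2 : 2 ≤ u := hu.1.le
    have hu1 : 1 < u := by linarith
    have hl : 0 < Real.log u := log_pos' hu1
    have hl2 : 1 / 2 ≤ Real.log u := by
      have h10 := Real.log_le_log (by norm_num) hu2
      have h11 := Real.log_two_gt_d9
      linarith
    have e : nd γ u - (Real.log u)⁻¹ + ∑' k, ek γ k u = -(1 / 2 * ((√u)⁻¹ + u⁻¹) / Real.log u) := by
      unfold nd
      ring
    have h4 : u⁻¹ ≤ (√u)⁻¹ := by
      refine inv_anti₀ (Real.sqrt_pos.2 (by linarith)) ?_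
      rw [Real.sqrt_le_left (by linarith)]
      nlinarith
    have h5 : 0 < (√u)⁻¹ := inv_pos.2 (Real.sqrt_pos.2 (by linarith))
    have h6 : 0 < u⁻¹ := inv_pos.2 (by linarith)
    rw [e, norm_neg, Real.norm_of_nonneg (by positivity), div_le_iff₀ hl]
    nlinarith
  rw [intervalIntegral.integral_const_mul, hsv] at h3
  have h4 : (∫ u in (1 : ℝ)..x, nd γ u) - ∫ u in (2 : ℝ)..x, (Real.log u)⁻¹ =
      (∫ u in (1 : ℝ)..2, nd γ u) + ((∫ u in (2 : ℝ)..x, (nd γ u - (Real.log u)⁻¹ + ∑' k, ek γ k u)) -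
        ∫ u in (2 : ℝ)..x, ∑' k, ek γ k u) := by
    rw [← h2, h1]
    ring
  rw [h4]
  have h5 := abs_add_le (∫ u in (1 : ℝ)..2, nd γ u) ((∫ u in (2 : ℝ)..x, (nd γ u - (Real.log u)⁻¹ + ∑' k, ek γ k u)) -
        ∫ u in (2 : ℝ)..x, ∑' k, ek γ k u)
  have h6 := abs_sub (∫ u in (2 : ℝ)..x, (nd γ u - (Real.log u)⁻¹ + ∑' k, ek γ k u))
    (∫ u in (2 : ℝ)..x, ∑' k, ek γ k u)
  have h7 : 0 ≤ √2 := Real.sqrt_nonneg 2
  have h8 : |∫ u in (1 : ℝ)..2, nd γ u| ≤ |∫ u in (1 : ℝ)..2, nd γ u| * x ^ (1 / 2 + ε) :=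
    le_mul_of_one_le_right (abs_nonneg _) (hsx.trans hxp)
  calc _ ≤ |∫ u in (1 : ℝ)..2, nd γ u| + (2 * (2 * √x - 2 * √2) + C * x ^ (1 / 2 + ε)) := by linarith
    _ ≤ |∫ u in (1 : ℝ)..2, nd γ u| * x ^ (1 / 2 + ε) + (4 * x ^ (1 / 2 + ε) + C * x ^ (1 / 2 + ε)) := by linarith
    _ = _ := by ring

end Pool.Agent.H49.BZ
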