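import Pool.Agent.H49.BZ.Core
import Pool.Agent.H49.BZ.Pc2
import Pool.Agent.H49.BZ.Near

/-!
# Beurling systems with the Riemann hypothesis and with prescribed zeros

A system of generalised primes (Beurling primes) is a sequence `1 < q 0 < q 1 < ...` of real numbers; its generalised
integers are the products `gint q n = ∏ q (k - 1)` over the prime factors of `n` (with multiplicity, the factor being the
`k`-th prime number), one for every `n ≥ 1`, counted with multiplicity; for `q = 2, 3, 5, ...` one has `gint q n = n`.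
-/

set_option autoImplicit false

open MeasureTheory Filter Topology Set Complex

namespace Pool.Agent.H49.BZ

open Pool.Agent.H49.BP (gint pc)

/-- The number of generalised primes up to `x`. -/
noncomputable def primeCount (q : ℕ → ℝ) (x : ℝ) : ℕ := {j : ℕ | q j ≤ x}.ncard

/-- The number of generalised integers up to `x`, with multiplicity. -/
noncomputable def intCount (q : ℕ → ℝ) (x : ℝ) : ℕ := {n : ℕ | 1 ≤ n ∧ gint q n ≤ x}.ncard

/-- The generalised primes `q` have the zeta function `Z s / (s - 1)` and satisfy the analogues of the Riemann hypothesis and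
of the Lindelöf hypothesis: they increase strictly from `q 0 > 1`; their number up to `x` is `∫_2^x du / log u + O(x ^ (1 / 2 + ε))`
and the number of the generalised integers up to `x` is `ρ x + O(x ^ (1 / 2 + ε))` for every `ε > 0`, with a `ρ > 0`; the
function `Z` is holomorphic in `Re s > 1 / 3` and `∑ (gint q n) ^ (-s) = Z s / (s - 1)` for `Re s > 1`; in `Re s > 1 / 2` one has
`Z s = s * exp (G s)` with a holomorphic function `G` that is at most `C √(log (|Im s| + 3))` for `Re s ≥ σ`, for every `σ > 1 / 2`. -/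
def RHSystem (q : ℕ → ℝ) (Z : ℂ → ℂ) : Prop :=
  StrictMono q ∧ 1 < q 0 ∧
    (∀ ε : ℝ, 0 < ε → ∃ C : ℝ, ∀ x : ℝ, 2 ≤ x →
      |(primeCount q x : ℝ) - ∫ u in (2 : ℝ)..x, (Real.log u)⁻¹| ≤ C * x ^ (1 / 2 + ε)) ∧
    (∃ ρ : ℝ, 0 < ρ ∧ ∀ ε : ℝ, 0 < ε → ∃ C : ℝ, ∀ x : ℝ, 1 ≤ x →
      |(intCount q x : ℝ) - ρ * x| ≤ C * x ^ (1 / 2 + ε)) ∧
    (∀ s : ℂ, 1 / 3 < s.re → AnalyticAt ℂ Z s) ∧
    (∀ s : ℂ, 1 < s.re → ∑' n : ℕ, ((gint q (n + 1) : ℝ) : ℂ) ^ (-s) = Z s / (s - 1)) ∧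
    ∃ G : ℂ → ℂ, DifferentiableOn ℂ G {s | 1 / 2 < s.re} ∧
      (∀ s : ℂ, 1 / 2 < s.re → Z s = s * Complex.exp (G s)) ∧
      ∀ σ : ℝ, 1 / 2 < σ → ∃ C : ℝ, ∀ s : ℂ, σ ≤ s.re → ‖G s‖ ≤ C * √(Real.log (|s.im| + 3))

/-- the system with prescribed zeros -/
theorem prescribed {γ : ℕ → ℝ} (h0 : ∀ k, 0 < γ k) (hm : Monotone γ) (hW : Windows γ) :
    ∃ (q : ℕ → ℝ) (Z : ℂ → ℂ), RHSystem q Z ∧ ∀ s : ℂ, 1 / 3 < s.re →
      analyticOrderAt Z s = {k | s = 1 / 2 + γ k * I ∨ s = 1 / 2 - γ k * I}.encard := by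
  obtain ⟨q, hq1, hq2, _, hpc, ⟨ρ, hρ, hN⟩, Z, G, hZ1, hZ2, hG1, hG2, hG3, hord⟩ := core h0 hm hW
  refine ⟨q, Z, ⟨hq1, hq2, fun ε hε => ?_, ⟨ρ, hρ, fun ε hε => ?_⟩, hZ1, hZ2, G, hG1, hG2, fun σ hσ => ?_⟩, hord⟩
  · obtain ⟨C, hC0, hC⟩ := nd_mass h0 hm hW hε
    refine ⟨C + 1, fun x hx => ?_⟩
    have h1 := hpc x (by linarith)
    have h2 := hC x hx
    have h3 : 1 ≤ x ^ (1 / 2 + ε) := Real.one_le_rpow (by linarith) (by linarith)
    have h4 := abs_add_le ((pc q x : ℝ) - ∫ u in (1 : ℝ)..x, nd γ u)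
      ((∫ u in (1 : ℝ)..x, nd γ u) - ∫ u in (2 : ℝ)..x, (Real.log u)⁻¹)
    have e : ((pc q x : ℝ) - ∫ u in (1 : ℝ)..x, nd γ u) +
      ((∫ u in (1 : ℝ)..x, nd γ u) - ∫ u in (2 : ℝ)..x, (Real.log u)⁻¹) =
      (primeCount q x : ℝ) - ∫ u in (2 : ℝ)..x, (Real.log u)⁻¹ := by
      show _ = (pc q x : ℝ) - _
      ring
    rw [e] at h4
    linarith
  · obtain ⟨C, hC⟩ := hN ε hε
    refine ⟨C, fun x hx => ?_⟩
    have e : intCount q x = {n : ℕ | gint q (n + 1) ≤ x}.ncard := by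
      unfold intCount
      have h1 : {n : ℕ | 1 ≤ n ∧ gint q n ≤ x} = (fun n => n + 1) '' {n : ℕ | gint q (n + 1) ≤ x} := by
        ext n
        constructor
        · rintro ⟨h2, h3⟩
          refine ⟨n - 1, ?_, by simp only; omega⟩
          show gint q (n - 1 + 1) ≤ x
          rw [Nat.sub_add_cancel h2]
          exact h3
        · rintro ⟨k, hk, rfl⟩
          exact ⟨by simp only; omega, hk⟩
      rw [h1, Set.ncard_image_of_injective _ (fun a b hab => by simpa using hab)]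
    rw [e]
    exact hC x hx
  · obtain ⟨C, _, hC⟩ := hG3 σ hσ
    exact ⟨C, hC⟩

/-- The zeros in the half-plane `Re s > 1 / 3` with ordinates in `(T₁, T₂]`. -/
def zeros (Z : ℂ → ℂ) (T₁ T₂ : ℝ) : Set ℂ := {s | 1 / 3 < s.re ∧ T₁ < s.im ∧ s.im ≤ T₂ ∧ Z s = 0}

/-- The number of the zeros in `Re s > 1 / 3` with ordinates in `(T₁, T₂]`, with multiplicity. -/
noncomputable def zeroCount (Z : ℂ → ℂ) (T₁ T₂ : ℝ) : ℕ := ∑ᶠ s ∈ zeros Z T₁ T₂, analyticOrderNatAt Z s

/-- The number of the distinct zeros in `Re s > 1 / 3` with ordinates in `(T₁, T₂]`. -/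
noncomputable def distinctCount (Z : ℂ → ℂ) (T₁ T₂ : ℝ) : ℕ := (zeros Z T₁ T₂).ncard

/-- the point on the critical line -/
noncomputable def pt (γ : ℕ → ℝ) (k : ℕ) : ℂ := 1 / 2 + γ k * I

theorem pt_re (γ : ℕ → ℝ) (k : ℕ) : (pt γ k).re = 1 / 2 := by simp [pt]
theorem pt_im (γ : ℕ → ℝ) (k : ℕ) : (pt γ k).im = γ k := by simp [pt]

theorem pt_inj {γ : ℕ → ℝ} {j k : ℕ} : pt γ j = pt γ k ↔ γ j = γ k := by
  constructor
  · intro h
    rw [← pt_im γ j, ← pt_im γ k, h]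
  · intro h
    unfold pt
    rw [h]

section

variable {γ : ℕ → ℝ} (h0 : ∀ k, 0 < γ k) {Z : ℂ → ℂ} (hZ : ∀ s : ℂ, 1 / 3 < s.re → AnalyticAt ℂ Z s)
  (hord : ∀ s : ℂ, 1 / 3 < s.re → analyticOrderAt Z s = {k | s = 1 / 2 + γ k * I ∨ s = 1 / 2 - γ k * I}.encard)

include hZ hord

theorem zero_iff {s : ℂ} (hs : 1 / 3 < s.re) : Z s = 0 ↔ ∃ k, s = 1 / 2 + γ k * I ∨ s = 1 / 2 - γ k * I := by
  have h1 := (hZ s hs).analyticOrderAt_eq_zero
  rw [hord s hs, Set.encard_eq_zero] at h1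
  rw [← not_iff_not, ← ne_eq, ← h1, Set.eq_empty_iff_forall_notMem]
  simp only [mem_ofPred_eq, not_exists]

theorem zero_line {s : ℂ} (hs : 1 / 3 < s.re) (h : Z s = 0) : s.re = 1 / 2 := by
  obtain ⟨k, hk | hk⟩ := (zero_iff hZ hord hs).1 h
  · rw [hk]
    simp
  · rw [hk]
    simp

include h0

theorem upper_iff {s : ℂ} (hs : 1 / 3 < s.re) (hi : 0 < s.im) : Z s = 0 ↔ ∃ k, s = pt γ k := by
  rw [zero_iff hZ hord hs]
  constructor
  · rintro ⟨k, hk | hk⟩
    · exact ⟨k, hk⟩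
    · exfalso
      rw [hk] at hi
      simp at hi
      linarith [h0 k]
  · rintro ⟨k, hk⟩
    exact ⟨k, Or.inl hk⟩

theorem upper_order {s : ℂ} (hs : 1 / 3 < s.re) (hi : 0 < s.im) : analyticOrderAt Z s = {k | s = pt γ k}.encard := by
  rw [hord s hs]
  congr 1
  ext k
  simp only [mem_ofPred_eq]
  constructor
  · rintro (hk | hk)
    · exact hk
    · exfalso
      rw [hk] at hi
      simp at hi
      linarith [h0 k]
  · exact fun hk => Or.inl hk

theorem zeros_eq (hm : Monotone γ) (htop : Tendsto γ atTop atTop) {T₁ T₂ : ℝ} (hT : 0 ≤ T₁) :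
    zeros Z T₁ T₂ = ((Finset.Ico (cnt γ T₁) (cnt γ T₂)).image (pt γ) : Finset ℂ) := by
  classical
  ext s
  rw [Finset.coe_image]
  constructor
  · rintro ⟨h1, h2, h3, h4⟩
    obtain ⟨k, rfl⟩ := (upper_iff h0 hZ hord h1 (lt_of_le_of_lt hT h2)).1 h4
    rw [pt_im] at h2 h3
    refine ⟨k, ?_, rfl⟩
    rw [Finset.mem_coe, Finset.mem_Ico]
    refine ⟨?_, (lt_cnt hm htop T₂ k).2 h3⟩
    by_contra h5
    push Not at h5
    have := (lt_cnt hm htop T₁ k).1 h5
    linarith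
  · rintro ⟨k, hk, rfl⟩
    rw [Finset.mem_coe, Finset.mem_Ico] at hk
    have h3 := (lt_cnt hm htop T₂ k).1 hk.2
    have h2 : T₁ < γ k := by
      by_contra h5
      push Not at h5
      have := (lt_cnt hm htop T₁ k).2 h5
      omega
    have hre : 1 / 3 < (pt γ k).re := by
      rw [pt_re]
      norm_num
    refine ⟨hre, by rw [pt_im]; exact h2, by rw [pt_im]; exact h3, ?_⟩
    exact (upper_iff h0 hZ hord hre (by rw [pt_im]; exact h0 k)).2 ⟨k, rfl⟩

theorem distinct_eq (hm : Monotone γ) (htop : Tendsto γ atTop atTop) {T₁ T₂ : ℝ} (hT : 0 ≤ T₁) :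
    distinctCount Z T₁ T₂ = ((Finset.Ico (cnt γ T₁) (cnt γ T₂)).image γ).card := by
  classical
  unfold distinctCount
  rw [zeros_eq h0 hZ hord hm htop hT, Set.ncard_coe_finset]
  let f : ℝ → ℂ := fun t => 1 / 2 + t * I
  have e : (Finset.Ico (cnt γ T₁) (cnt γ T₂)).image (pt γ) = ((Finset.Ico (cnt γ T₁) (cnt γ T₂)).image γ).image f := by
    rw [Finset.image_image]
    rfl
  rw [e, Finset.card_image_of_injective]
  intro a b hab
  have h1 : (f a).im = (f b).im := by rw [hab]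
  simpa [f] using h1

theorem zeroCount_eq (hm : Monotone γ) (htop : Tendsto γ atTop atTop) {T₁ T₂ : ℝ} (hT : 0 ≤ T₁) :
    zeroCount Z T₁ T₂ = cnt γ T₂ - cnt γ T₁ := by
  classical
  unfold zeroCount
  rw [zeros_eq h0 hZ hord hm htop hT, finsum_mem_coe_finset, ← Nat.card_Ico,
    Finset.card_eq_sum_card_image (pt γ)]
  refine Finset.sum_congr rfl fun s hs => ?_
  obtain ⟨j, hj, rfl⟩ := Finset.mem_image.1 hs
  have hre : 1 / 3 < (pt γ j).re := by
    rw [pt_re]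
    norm_num
  unfold analyticOrderNatAt
  rw [upper_order h0 hZ hord hre (by rw [pt_im]; exact h0 j)]
  have e : {k | pt γ j = pt γ k} = ((Finset.Ico (cnt γ T₁) (cnt γ T₂)).filter fun k => pt γ k = pt γ j : Finset ℕ) := by
    ext k
    rw [Finset.coe_filter]
    simp only [mem_ofPred_eq, Finset.mem_Ico]
    constructor
    · intro h
      refine ⟨?_, h.symm⟩
      rw [Finset.mem_Ico] at hj
      have h1 := pt_inj.1 h
      have h2 : γ k ≤ T₂ := h1 ▸ (lt_cnt hm htop T₂ j).1 hj.2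
      refine ⟨?_, (lt_cnt hm htop T₂ k).2 h2⟩
      by_contra h5
      push Not at h5
      have h6 := (lt_cnt hm htop T₁ k).1 h5
      rw [← h1] at h6
      have := (lt_cnt hm htop T₁ j).2 h6
      omega
    · exact fun h => h.2.symm
  rw [e, Set.encard_coe_eq_coe_finsetCard, ENat.toNat_natCast]

end

/-- the systems whose zeros follow the main term of the Riemann-von Mangoldt formula -/
theorem near_system {γ : ℕ → ℝ} (h : Near γ) (hm : Monotone γ) :
    Tendsto γ atTop atTop ∧ ∃ (q : ℕ → ℝ) (Z : ℂ → ℂ), RHSystem q Z ∧ (∀ s : ℂ, 1 / 3 < s.re → Z s = 0 → s.re = 1 / 2) ∧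
      (∀ T₁ T₂ : ℝ, 0 ≤ T₁ → (zeros Z T₁ T₂).Finite ∧ zeroCount Z T₁ T₂ = cnt γ T₂ - cnt γ T₁ ∧
        distinctCount Z T₁ T₂ = ((Finset.Ico (cnt γ T₁) (cnt γ T₂)).image γ).card) ∧
      ((fun T : ℝ => (zeroCount Z 0 T : ℝ) - T / (2 * Real.pi) * Real.log (T / (2 * Real.pi * Real.exp 1))) =O[atTop]
        Real.log) ∧
      (∀ s : ℂ, 1 / 3 < s.re → 0 < s.im → analyticOrderAt Z s = {k | s = pt γ k}.encard) ∧
      ∀ s : ℂ, 1 / 3 < s.re → analyticOrderAt Z s = {k | s = 1 / 2 + γ k * I ∨ s = 1 / 2 - γ k * I}.encard := by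
  have h0 := near_pos h
  have hW := near_windows h
  have htop := gam_top h0 hm hW
  obtain ⟨q, Z, hS, hord⟩ := prescribed h0 hm hW
  have hZ := hS.2.2.2.2.1
  refine ⟨htop, q, Z, hS, fun s hs hz => zero_line hZ hord hs hz, fun T₁ T₂ hT => ⟨?_, ?_, ?_⟩, ?_, fun s hs hi => ?_, hord⟩
  · rw [zeros_eq h0 hZ hord hm htop hT]
    exact Finset.finite_toSet _
  · exact zeroCount_eq h0 hZ hord hm htop hT
  · exact distinct_eq h0 hZ hord hm htop hT
  · refine Asymptotics.IsBigO.of_bound 3 ?_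
    filter_upwards [eventually_ge_atTop (2 * Real.pi * Real.exp 1)] with T hT
    have h17 : 17 ≤ T := c_bounds.1.trans hT
    have hc0 : cnt γ 0 = 0 := by
      by_contra hne
      have := (lt_cnt hm htop 0 0).1 (Nat.pos_of_ne_zero hne)
      linarith [h0 0]
    rw [zeroCount_eq h0 hZ hord hm htop le_rfl, hc0, Nat.sub_zero]
    have hL : 1 ≤ Real.log T := by
      rw [Real.le_log_iff_exp_le (by linarith)]
      have := Real.exp_one_lt_d9
      linarith
    have h1 := near_cnt h hm htop hT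
    have e : T / (2 * Real.pi) * Real.log (T / (2 * Real.pi * Real.exp 1)) = rvm T := by
      unfold rvm GA
      have hp := tp
      have hTp : 0 < T / (2 * Real.pi) := by positivity
      have e2 : T / (2 * Real.pi * Real.exp 1) = T / (2 * Real.pi) / Real.exp 1 := (div_div _ _ _).symm
      rw [e2, Real.log_div hTp.ne' (Real.exp_pos 1).ne', Real.log_exp]
      ring
    rw [e, Real.norm_eq_abs, Real.norm_of_nonneg (by linarith)]
    linarith
  · exact upper_order h0 hZ hord hs hi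

end Pool.Agent.H49.BZ
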