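import Mathlib

/-!
# The exponential integral on the slit plane
-/

set_option autoImplicit false

open MeasureTheory Filter Topology Set Complex

namespace Pool.Agent.H49.BZ

/-- the integrand -/
noncomputable def ji (L : ℝ) (w : ℂ) (x : ℝ) : ℂ := Complex.exp (-(L : ℂ) * (w + x)) / (w + x)

/-- the exponential integral `∫_0^∞ exp (-L (w + x)) / (w + x) dx` -/
noncomputable def J (L : ℝ) (w : ℂ) : ℂ := ∫ x in Ioi (0 : ℝ), ji L w x

theorem slit_bd {w0 : ℂ} (hw : w0 ∈ slitPlane) :
    ∃ c : ℝ, 0 < c ∧ ∀ w ∈ Metric.ball w0 c, ∀ x : ℝ, 0 ≤ x → c ≤ ‖w + x‖ := by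
  rcases hw with h | h
  · refine ⟨w0.re / 2, by linarith, fun w hw x hx => ?_⟩
    rw [Metric.mem_ball, dist_eq_norm] at hw
    have h1 := Complex.abs_re_le_norm (w - w0)
    rw [Complex.sub_re] at h1
    have h2 := (abs_le.1 (h1.trans hw.le)).1
    have h3 := Complex.re_le_norm (w + x)
    rw [Complex.add_re, Complex.ofReal_re] at h3
    linarith
  · have h0 : 0 < |w0.im| := abs_pos.2 h
    refine ⟨|w0.im| / 2, by linarith, fun w hw x hx => ?_⟩
    rw [Metric.mem_ball, dist_eq_norm] at hw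
    have h1 := Complex.abs_im_le_norm (w - w0)
    rw [Complex.sub_im] at h1
    have h3 := Complex.abs_im_le_norm (w + x)
    rw [Complex.add_im, Complex.ofReal_im, add_zero] at h3
    have h4 := abs_sub_abs_le_abs_sub w0.im w.im
    rw [abs_sub_comm] at h4
    linarith

theorem exp_norm (L : ℝ) (w : ℂ) (x : ℝ) :
    ‖Complex.exp (-(L : ℂ) * (w + x))‖ = Real.exp (-L * w.re) * Real.exp (-L * x) := by
  rw [Complex.norm_exp, ← Real.exp_add]
  congr 1
  simp
  ring

theorem expL_int {L : ℝ} (hL : 0 < L) : IntegrableOn (fun x : ℝ => Real.exp (-L * x)) (Ioi 0) :=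
  integrableOn_exp_mul_Ioi (by linarith) 0

theorem expL_val {L : ℝ} (hL : 0 < L) : ∫ x in Ioi (0 : ℝ), Real.exp (-L * x) = 1 / L := by
  have h := integral_exp_mul_Ioi (a := -L) (by linarith) 0
  rw [h]
  simp

theorem ji_meas (L : ℝ) (w : ℂ) : Measurable (ji L w) := by
  unfold ji
  have h1 : Measurable fun x : ℝ => w + (x : ℂ) := measurable_const.add Complex.measurable_ofReal
  exact (Complex.measurable_exp.comp (h1.const_mul _)).div h1

theorem ji_bd {L : ℝ} {w : ℂ} {d : ℝ} (hd : 0 < d) (h : ∀ x : ℝ, 0 ≤ x → d ≤ ‖w + x‖) {x : ℝ} (hx : 0 ≤ x) :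
    ‖ji L w x‖ ≤ Real.exp (-L * w.re) / d * Real.exp (-L * x) := by
  unfold ji
  rw [norm_div, exp_norm]
  calc Real.exp (-L * w.re) * Real.exp (-L * x) / ‖w + x‖
      ≤ Real.exp (-L * w.re) * Real.exp (-L * x) / d :=
        div_le_div_of_nonneg_left (by positivity) hd (h x hx)
    _ = _ := by ring

theorem ji_int {L : ℝ} (hL : 0 < L) {w : ℂ} {d : ℝ} (hd : 0 < d) (h : ∀ x : ℝ, 0 ≤ x → d ≤ ‖w + x‖) :
    IntegrableOn (ji L w) (Ioi 0) := by
  refine Integrable.mono' ((expL_int hL).const_mul (Real.exp (-L * w.re) / d)) (ji_meas L w).aestronglyMeasurable ?_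
  refine (ae_restrict_iff' measurableSet_Ioi).2 (Eventually.of_forall fun x hx => ?_)
  have hx0 : (0 : ℝ) < x := hx
  exact ji_bd hd h hx0.le

theorem J_bd {L : ℝ} (hL : 0 < L) {w : ℂ} {d : ℝ} (hd : 0 < d) (h : ∀ x : ℝ, 0 ≤ x → d ≤ ‖w + x‖) :
    ‖J L w‖ ≤ Real.exp (-L * w.re) / (d * L) := by
  unfold J
  have h1 : ‖∫ x in Ioi (0 : ℝ), ji L w x‖ ≤ ∫ x in Ioi (0 : ℝ), Real.exp (-L * w.re) / d * Real.exp (-L * x) := by
    refine norm_integral_le_of_norm_le ((expL_int hL).const_mul _) ?_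
    refine (ae_restrict_iff' measurableSet_Ioi).2 (Eventually.of_forall fun x hx => ?_)
    have hx0 : (0 : ℝ) < x := hx
    exact ji_bd hd h hx0.le
  refine h1.trans (le_of_eq ?_)
  rw [integral_const_mul, expL_val hL]
  field_simp

/-- the derivative of the integrand -/
noncomputable def ji' (L : ℝ) (w : ℂ) (x : ℝ) : ℂ :=
  (-(L : ℂ) * Complex.exp (-(L : ℂ) * (w + x)) * (w + x) - Complex.exp (-(L : ℂ) * (w + x))) / (w + x) ^ 2

theorem ji_deriv (L : ℝ) {w : ℂ} {x : ℝ} (h : w + x ≠ 0) : HasDerivAt (fun w => ji L w x) (ji' L w x) w := by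
  have h1 : HasDerivAt (fun w : ℂ => w + x) 1 w := (hasDerivAt_id w).add_const _
  have h2 : HasDerivAt (fun w : ℂ => Complex.exp (-(L : ℂ) * (w + x)))
      (Complex.exp (-(L : ℂ) * (w + x)) * (-(L : ℂ) * 1)) w := (h1.const_mul _).cexp
  have h3 := h2.div h1 h
  unfold ji ji'
  refine h3.congr_deriv ?_
  ring

theorem ji_deriv_x (L : ℝ) {w : ℂ} {x : ℝ} (h : w + x ≠ 0) : HasDerivAt (fun x : ℝ => ji L w x) (ji' L w x) x := by
  have h0 : HasDerivAt (fun x : ℝ => (x : ℂ)) 1 x := Complex.ofRealCLM.hasDerivAt (x := x)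
  have h1 : HasDerivAt (fun x : ℝ => w + (x : ℂ)) 1 x := h0.const_add w
  have h2 : HasDerivAt (fun x : ℝ => Complex.exp (-(L : ℂ) * (w + x)))
      (Complex.exp (-(L : ℂ) * (w + x)) * (-(L : ℂ) * 1)) x := (h1.const_mul _).cexp
  have h3 := h2.div h1 h
  unfold ji ji'
  refine h3.congr_deriv ?_
  ring

theorem ji'_meas (L : ℝ) (w : ℂ) : Measurable (ji' L w) := by
  unfold ji'
  have h1 : Measurable fun x : ℝ => w + (x : ℂ) := measurable_const.add Complex.measurable_ofReal
  have h2 : Measurable fun x : ℝ => Complex.exp (-(L : ℂ) * (w + x)) := Complex.measurable_exp.comp (h1.const_mul _)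
  exact (((h2.const_mul _).mul h1).sub h2).div (h1.pow_const 2)

theorem ji'_bd {L : ℝ} (hL : 0 < L) {w : ℂ} {d : ℝ} (hd : 0 < d) {x : ℝ} (h : d ≤ ‖w + x‖) :
    ‖ji' L w x‖ ≤ Real.exp (-L * w.re) * (L / d + 1 / d ^ 2) * Real.exp (-L * x) := by
  have h0 : 0 < ‖w + x‖ := lt_of_lt_of_le hd h
  have hne : w + x ≠ 0 := norm_pos_iff.1 h0
  have e : ji' L w x = Complex.exp (-(L : ℂ) * (w + x)) * (-(L : ℂ) / (w + x) - 1 / (w + x) ^ 2) := by
    unfold ji'
    field_simp
  rw [e, norm_mul, exp_norm]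
  have h2 : ‖-(L : ℂ) / (w + x) - 1 / (w + x) ^ 2‖ ≤ L / d + 1 / d ^ 2 := by
    refine (norm_sub_le _ _).trans ?_
    rw [norm_div, norm_neg, Complex.norm_real, Real.norm_of_nonneg hL.le, norm_div, norm_one, norm_pow]
    refine add_le_add (div_le_div_of_nonneg_left hL.le hd h) ?_
    exact div_le_div_of_nonneg_left zero_le_one (by positivity) (pow_le_pow_left₀ hd.le h 2)
  calc Real.exp (-L * w.re) * Real.exp (-L * x) * ‖-(L : ℂ) / (w + x) - 1 / (w + x) ^ 2‖
      ≤ Real.exp (-L * w.re) * Real.exp (-L * x) * (L / d + 1 / d ^ 2) :=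
        mul_le_mul_of_nonneg_left h2 (by positivity)
    _ = _ := by ring

theorem J_deriv {L : ℝ} (hL : 0 < L) {w0 : ℂ} (hw : w0 ∈ slitPlane) :
    HasDerivAt (J L) (-(Complex.exp (-(L : ℂ) * w0) / w0)) w0 := by
  obtain ⟨c, hc, hb⟩ := slit_bd hw
  have hself : w0 ∈ Metric.ball w0 c := Metric.mem_ball_self hc
  have hmain := hasDerivAt_integral_of_dominated_loc_of_deriv_le (μ := volume.restrict (Ioi (0 : ℝ)))
    (F := ji L) (F' := ji' L) (x₀ := w0) (s := Metric.ball w0 c)
    (bound := fun x => Real.exp (L * (‖w0‖ + c)) * (L / c + 1 / c ^ 2) * Real.exp (-L * x))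
    (Metric.ball_mem_nhds w0 hc)
    (Eventually.of_forall fun w => (ji_meas L w).aestronglyMeasurable)
    (ji_int hL hc (hb w0 hself))
    (ji'_meas L w0).aestronglyMeasurable
    (by
      refine (ae_restrict_iff' measurableSet_Ioi).2 (Eventually.of_forall fun x hx w hwb => ?_)
      have hx0 : (0 : ℝ) < x := hx
      refine (ji'_bd hL hc (hb w hwb x hx0.le)).trans ?_
      have h1 : Real.exp (-L * w.re) ≤ Real.exp (L * (‖w0‖ + c)) := by
        refine Real.exp_le_exp.2 ?_
        have h2 := Complex.abs_re_le_norm w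
        have h3 := (abs_le.1 h2).1
        rw [Metric.mem_ball, dist_eq_norm] at hwb
        have h4 : ‖w‖ ≤ ‖w0‖ + c := by
          have := norm_add_le w0 (w - w0)
          rw [add_sub_cancel] at this
          linarith
        nlinarith
      gcongr)
    ((expL_int hL).const_mul _)
    (by
      refine (ae_restrict_iff' measurableSet_Ioi).2 (Eventually.of_forall fun x hx w hwb => ?_)
      have hx0 : (0 : ℝ) < x := hx
      exact ji_deriv L (norm_pos_iff.1 (lt_of_lt_of_le hc (hb w hwb x hx0.le))))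
  have hval : ∫ x in Ioi (0 : ℝ), ji' L w0 x = 0 - ji L w0 0 := by
    refine integral_Ioi_of_hasDerivAt_of_tendsto' (fun x hx => ?_) hmain.1 ?_
    · have hx0 : (0 : ℝ) ≤ x := hx
      exact ji_deriv_x L (norm_pos_iff.1 (lt_of_lt_of_le hc (hb w0 hself x hx0)))
    · have h1 : Tendsto (fun x : ℝ => Real.exp (-L * w0.re) / c * Real.exp (-L * x)) atTop (𝓝 (Real.exp (-L * w0.re) / c * 0)) := by
        refine Tendsto.const_mul _ ?_
        refine Real.tendsto_exp_atBot.comp ?_
        exact tendsto_id.const_mul_atTop_of_neg (by linarith)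
      rw [mul_zero] at h1
      refine squeeze_zero_norm' ?_ h1
      filter_upwards [eventually_ge_atTop 0] with x hx
      exact ji_bd hc (hb w0 hself) hx
  have h2 := hmain.2
  rw [hval] at h2
  have e : (0 : ℂ) - ji L w0 0 = -(Complex.exp (-(L : ℂ) * w0) / w0) := by
    unfold ji
    simp
  rw [e] at h2
  exact h2

theorem slit_pre : IsPreconnected slitPlane :=
  ((starConvex_one_slitPlane.isPathConnected one_mem_slitPlane).isConnected).isPreconnected

/-- the exponential of the exponential integral continues to an entire function with one simple zero -/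
theorem J_entire {L : ℝ} (hL : 0 < L) : ∃ (c : ℂ) (E : ℂ → ℂ), c ≠ 0 ∧ Differentiable ℂ E ∧
    ∀ w ∈ slitPlane, Complex.exp (-J L w) = c * w * Complex.exp (E w) := by
  set φ : ℂ → ℂ := fun w => 1 - Complex.exp (-(L : ℂ) * w) with hφ
  have hφd : Differentiable ℂ φ := by
    rw [hφ]
    fun_prop
  have hφ0 : φ 0 = 0 := by
    rw [hφ]
    simp
  have hg : Differentiable ℂ (dslope φ 0) := by
    have := (Complex.differentiableOn_dslope (f := φ) (c := 0) (univ_mem)).2 hφd.differentiableOn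
    exact differentiableOn_univ.1 this
  obtain ⟨E, hE⟩ := hg.isExactOn_univ
  have hE' : ∀ w, HasDerivAt E (dslope φ 0 w) w := fun w => hE w (mem_univ w)
  set ψ : ℂ → ℂ := fun w => Complex.exp (-J L w) * Complex.exp (E w) / w with hψ
  have hψd : ∀ w ∈ slitPlane, HasDerivAt ψ 0 w := by
    intro w hw
    have hw0 : w ≠ 0 := slitPlane_ne_zero hw
    have h1 := ((J_deriv hL hw).neg).cexp
    have h2 := (hE' w).cexp
    have h3 := (h1.mul h2).div (hasDerivAt_id w) hw0
    refine h3.congr_deriv ?_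
    rw [dslope_of_ne _ hw0, slope_def_field, hφ0]
    simp only [id, hφ, Pi.mul_apply, Pi.neg_apply]
    field_simp
    ring
  have hc : ∀ w ∈ slitPlane, ψ w = ψ 1 := by
    intro w hw
    exact isOpen_slitPlane.is_const_of_deriv_eq_zero slit_pre
      (fun z hz => (hψd z hz).differentiableAt.differentiableWithinAt)
      (fun z hz => (hψd z hz).deriv) hw one_mem_slitPlane
  refine ⟨ψ 1, fun w => -E w, ?_, fun w => (hE' w).differentiableAt.neg, fun w hw => ?_⟩
  · rw [hψ]
    simp [Complex.exp_ne_zero]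
  · rw [← hc w hw, hψ]
    have hw0 : w ≠ 0 := slitPlane_ne_zero hw
    beta_reduce
    rw [div_mul_cancel₀ _ hw0, mul_assoc, ← Complex.exp_add (E w)]
    simp

/-- the integral over `u` -/
theorem J_log {U : ℝ} (hU : 1 < U) {w : ℂ} (hw : 0 < w.re) :
    IntegrableOn (fun u : ℝ => (u : ℂ) ^ (-w - 1) / (Real.log u : ℂ)) (Ioi U) ∧
    ∫ u in Ioi U, (u : ℂ) ^ (-w - 1) / (Real.log u : ℂ) = J (Real.log U) w := by
  have hL : 0 < Real.log U := Real.log_pos hU
  have hU0 : 0 < U := by linarith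
  have hlog : ∀ u ∈ Ioi U, Real.log U ≤ Real.log u := fun u hu =>
    Real.log_le_log hU0 (le_of_lt hu)
  have hmeas : Measurable fun u : ℝ => (u : ℂ) ^ (-w - 1) / (Real.log u : ℂ) :=
    (Complex.measurable_ofReal.pow_const _).div (Complex.measurable_ofReal.comp Real.measurable_log)
  have hbase : IntegrableOn (fun u : ℝ => u ^ (-w.re - 1)) (Ioi U) :=
    integrableOn_Ioi_rpow_of_lt (by linarith) hU0
  have hint : IntegrableOn (fun u : ℝ => (u : ℂ) ^ (-w - 1) / (Real.log u : ℂ)) (Ioi U) := by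
    refine Integrable.mono' (hbase.div_const (Real.log U)) hmeas.aestronglyMeasurable ?_
    refine (ae_restrict_iff' measurableSet_Ioi).2 (Eventually.of_forall fun u hu => ?_)
    have hu0 : 0 < u := hU0.trans hu
    have hl := hlog u hu
    rw [norm_div, Complex.norm_cpow_eq_rpow_re_of_pos hu0, Complex.norm_real,
      Real.norm_of_nonneg (by linarith)]
    have e : (-w - 1).re = -w.re - 1 := by simp
    rw [e]
    exact div_le_div_of_nonneg_left (Real.rpow_nonneg hu0.le _) hL hl
  refine ⟨hint, ?_⟩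
  let F : ℝ → ℝ → ℂ := fun u x => (u : ℂ) ^ (-w - 1) * Complex.exp (-(Real.log u : ℂ) * x)
  have hFm : Measurable (Function.uncurry F) := by
    have h1 : Measurable fun p : ℝ × ℝ => (p.1 : ℂ) := Complex.measurable_ofReal.comp measurable_fst
    have h2 : Measurable fun p : ℝ × ℝ => (p.2 : ℂ) := Complex.measurable_ofReal.comp measurable_snd
    have h3 : Measurable fun p : ℝ × ℝ => (Real.log p.1 : ℂ) :=
      Complex.measurable_ofReal.comp (Real.measurable_log.comp measurable_fst)
    exact (h1.pow_const _).mul (Complex.measurable_exp.comp (h3.neg.mul h2))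
  have hFn : ∀ u ∈ Ioi U, ∀ x : ℝ, ‖F u x‖ = u ^ (-w.re - 1) * Real.exp (-(Real.log u) * x) := by
    intro u hu x
    have hu0 : 0 < u := hU0.trans hu
    simp only [F]
    rw [norm_mul, Complex.norm_cpow_eq_rpow_re_of_pos hu0, Complex.norm_exp]
    congr 2
    simp
  have hFi : Integrable (Function.uncurry F) ((volume.restrict (Ioi U)).prod (volume.restrict (Ioi (0 : ℝ)))) := by
    rw [integrable_prod_iff hFm.aestronglyMeasurable]
    constructor
    · refine (ae_restrict_iff' measurableSet_Ioi).2 (Eventually.of_forall fun u hu => ?_)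
      have hl := hlog u hu
      have h4 : IntegrableOn (fun x : ℝ => (u : ℂ) ^ (-w - 1) * Complex.exp (-(Real.log u : ℂ) * x)) (Ioi 0) :=
        (integrableOn_exp_mul_complex_Ioi (a := -(Real.log u : ℂ)) (by
          simp only [Complex.neg_re, Complex.ofReal_re]
          linarith) 0).const_mul _
      exact h4
    · have h5 : IntegrableOn (fun u : ℝ => u ^ (-w.re - 1) * (1 / Real.log u)) (Ioi U) := by
        refine Integrable.mono' (hbase.div_const (Real.log U)) ?_ ?_
        · exact hbase.aestronglyMeasurable.mul ((measurable_const.div Real.measurable_log).aestronglyMeasurable)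
        · refine (ae_restrict_iff' measurableSet_Ioi).2 (Eventually.of_forall fun u hu => ?_)
          have hu0 : 0 < u := hU0.trans hu
          have hl := hlog u hu
          have h6 : 0 < Real.log u := by linarith
          rw [Real.norm_of_nonneg (by positivity), mul_one_div]
          exact div_le_div_of_nonneg_left (Real.rpow_nonneg hu0.le _) hL hl
      refine h5.congr_fun (fun u hu => ?_) measurableSet_Ioi
      have hl := hlog u hu
      beta_reduce
      have e : (fun x => ‖Function.uncurry F (u, x)‖) = fun x => u ^ (-w.re - 1) * Real.exp (-(Real.log u) * x) := by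
        funext x
        exact hFn u hu x
      rw [e, integral_const_mul, expL_val (by linarith)]
  have hswap := integral_integral_swap hFi
  have hLe : ∫ u in Ioi U, ∫ x in Ioi (0 : ℝ), F u x = ∫ u in Ioi U, (u : ℂ) ^ (-w - 1) / (Real.log u : ℂ) := by
    refine setIntegral_congr_fun measurableSet_Ioi fun u hu => ?_
    have hl := hlog u hu
    beta_reduce
    simp only [F]
    rw [integral_const_mul, integral_exp_mul_complex_Ioi (by
        simp only [Complex.neg_re, Complex.ofReal_re]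
        linarith)]
    simp
    rfl
  have hRe : ∫ x in Ioi (0 : ℝ), ∫ u in Ioi U, F u x = J (Real.log U) w := by
    unfold J
    refine setIntegral_congr_fun measurableSet_Ioi fun x hx => ?_
    have hx0 : (0 : ℝ) < x := hx
    beta_reduce
    have e1 : ∫ u in Ioi U, F u x = ∫ u in Ioi U, (u : ℂ) ^ (-(w + x) - 1) := by
      refine setIntegral_congr_fun measurableSet_Ioi fun u hu => ?_
      have hu0 : 0 < u := hU0.trans hu
      have hune : (u : ℂ) ≠ 0 := by exact_mod_cast hu0.ne'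
      simp only [F]
      have e2 : -(w + x) - 1 = (-w - 1) + (-(x : ℂ)) := by ring
      rw [e2, Complex.cpow_add _ _ hune]
      congr 1
      rw [Complex.cpow_def_of_ne_zero hune, ← Complex.ofReal_log hu0.le]
      congr 1
      ring
    rw [e1, integral_Ioi_cpow_of_lt (by simp; linarith) hU0]
    unfold ji
    have e3 : -(w + x) - 1 + 1 = -(w + x) := by ring
    rw [e3, neg_div_neg_eq, Complex.cpow_def_of_ne_zero (by exact_mod_cast hU0.ne'), ← Complex.ofReal_log hU0.le]
    congr 2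
    ring
  rw [← hLe, hswap, hRe]

/-- two conjugate terms, when the phase at the end is real -/
theorem J_pair {L γ : ℝ} (hL : 1 ≤ L) (hγ : 0 < γ) (hs : Real.sin (γ * L) = 0) {z : ℂ} (hz : |z.im| ≤ γ / 2) :
    ‖J L (z - γ * I) + J L (z + γ * I)‖ ≤ 8 * Real.exp (-L * z.re) * (‖z‖ + 1) / γ ^ 2 := by
  have hL0 : 0 < L := by linarith
  have hz' := abs_le.1 hz
  have hd1 : ∀ x : ℝ, 0 ≤ x → γ / 2 ≤ ‖(z - γ * I) + x‖ := by
    intro x _
    have h1 := Complex.abs_im_le_norm ((z - γ * I) + x)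
    have e : ((z - γ * I) + x).im = z.im - γ := by simp
    rw [e, abs_of_neg (by linarith)] at h1
    linarith
  have hd2 : ∀ x : ℝ, 0 ≤ x → γ / 2 ≤ ‖(z + γ * I) + x‖ := by
    intro x _
    have h1 := Complex.abs_im_le_norm ((z + γ * I) + x)
    have e : ((z + γ * I) + x).im = z.im + γ := by simp
    rw [e, abs_of_pos (by linarith)] at h1
    linarith
  have hγ2 : 0 < γ / 2 := by linarith
  have hi1 := ji_int hL0 hγ2 hd1
  have hi2 := ji_int hL0 hγ2 hd2
  unfold J
  rw [← integral_add hi1 hi2]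
  have hxint : IntegrableOn (fun x : ℝ => x * Real.exp (-L * x)) (Ioi 0) ∧
      ∫ x in Ioi (0 : ℝ), x * Real.exp (-L * x) ≤ 1 / L := by
    have h1 : ∀ x : ℝ, x ∈ Ioi (0 : ℝ) → x ^ (2 - 1 : ℝ) * Real.exp (-(L * x)) = x * Real.exp (-L * x) := by
      intro x hx
      norm_num
    have h2 := Real.integral_rpow_mul_exp_neg_mul_Ioi (a := 2) (r := L) (by norm_num) hL0
    have h3 : IntegrableOn (fun x : ℝ => x ^ (1 : ℝ) * Real.exp (-L * x ^ (1 : ℝ))) (Ioi 0) :=
      integrableOn_rpow_mul_exp_neg_mul_rpow (by norm_num) one_pos hL0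
    refine ⟨h3.congr_fun (fun x hx => by simp) measurableSet_Ioi, ?_⟩
    rw [← setIntegral_congr_fun measurableSet_Ioi h1, h2]
    rw [Real.Gamma_two, mul_one]
    have h4 : (1 / L) ^ (2 : ℝ) = (1 / L) * (1 / L) := by
      rw [show (2 : ℝ) = ((2 : ℕ) : ℝ) by norm_num, Real.rpow_natCast]
      ring
    rw [h4]
    have h5 : 1 / L ≤ 1 := by
      rw [div_le_one hL0]
      exact hL
    have h6 : 0 < 1 / L := by positivity
    nlinarith
  have hbd : ∀ x ∈ Ioi (0 : ℝ), ‖ji L (z - γ * I) x + ji L (z + γ * I) x‖ ≤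
      8 * Real.exp (-L * z.re) / γ ^ 2 * (‖z‖ * Real.exp (-L * x) + x * Real.exp (-L * x)) := by
    intro x hx
    have hx0 : (0 : ℝ) < x := hx
    have hn1 : (z - γ * I) + x ≠ 0 := norm_pos_iff.1 (lt_of_lt_of_le hγ2 (hd1 x hx0.le))
    have hn2 : (z + γ * I) + x ≠ 0 := norm_pos_iff.1 (lt_of_lt_of_le hγ2 (hd2 x hx0.le))
    have hexp : Complex.exp ((γ * L : ℝ) * I) = ((Real.cos (γ * L) : ℝ) : ℂ) := by
      rw [Complex.exp_mul_I, ← Complex.ofReal_cos, ← Complex.ofReal_sin, hs]
      simp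
    have hexp2 : Complex.exp (-((γ * L : ℝ) * I)) = ((Real.cos (γ * L) : ℝ) : ℂ) := by
      have e : -(((γ * L : ℝ) : ℂ) * I) = ((-(γ * L) : ℝ) : ℂ) * I := by push_cast; ring
      rw [e, Complex.exp_mul_I, ← Complex.ofReal_cos, ← Complex.ofReal_sin, Real.cos_neg, Real.sin_neg, hs]
      simp
    have e1 : Complex.exp (-(L : ℂ) * ((z - γ * I) + x)) =
        Complex.exp (-(L : ℂ) * (z + x)) * ((Real.cos (γ * L) : ℝ) : ℂ) := by
      rw [← hexp, ← Complex.exp_add]
      congr 1
      push_cast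
      ring
    have e2 : Complex.exp (-(L : ℂ) * ((z + γ * I) + x)) =
        Complex.exp (-(L : ℂ) * (z + x)) * ((Real.cos (γ * L) : ℝ) : ℂ) := by
      rw [← hexp2, ← Complex.exp_add]
      congr 1
      push_cast
      ring
    have e3 : ji L (z - γ * I) x + ji L (z + γ * I) x =
        Complex.exp (-(L : ℂ) * (z + x)) * ((Real.cos (γ * L) : ℝ) : ℂ) * (2 * (z + x)) /
          (((z - γ * I) + x) * ((z + γ * I) + x)) := by
      unfold ji
      rw [e1, e2]
      field_simp
      ring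
    rw [e3, norm_div, norm_mul, norm_mul, norm_mul, exp_norm, Complex.norm_real, norm_mul]
    have h7 : ‖Real.cos (γ * L)‖ ≤ 1 := by
      rw [Real.norm_eq_abs]
      exact Real.abs_cos_le_one _
    have h8 : ‖(2 : ℂ)‖ * ‖z + x‖ ≤ 2 * (‖z‖ + x) := by
      have := norm_add_le z (x : ℂ)
      rw [Complex.norm_real, Real.norm_of_nonneg hx0.le] at this
      have e : ‖(2 : ℂ)‖ = 2 := by simp
      rw [e]
      linarith
    have h9 : γ ^ 2 / 4 ≤ ‖(z - γ * I) + x‖ * ‖(z + γ * I) + x‖ := by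
      calc γ ^ 2 / 4 = (γ / 2) * (γ / 2) := by ring
        _ ≤ _ := mul_le_mul (hd1 x hx0.le) (hd2 x hx0.le) hγ2.le (norm_nonneg _)
    have h10 : 0 ≤ Real.exp (-L * z.re) * Real.exp (-L * x) := by positivity
    calc Real.exp (-L * z.re) * Real.exp (-L * x) * ‖Real.cos (γ * L)‖ * (‖(2 : ℂ)‖ * ‖z + x‖) /
          (‖(z - γ * I) + x‖ * ‖(z + γ * I) + x‖)
        ≤ Real.exp (-L * z.re) * Real.exp (-L * x) * 1 * (2 * (‖z‖ + x)) / (γ ^ 2 / 4) := by
          refine div_le_div₀ (by positivity) ?_ (by positivity) h9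
          exact mul_le_mul (mul_le_mul_of_nonneg_left h7 h10) h8 (by positivity) (by positivity)
      _ = _ := by
          field_simp
          ring
  have hfin : ‖∫ x in Ioi (0 : ℝ), (ji L (z - γ * I) x + ji L (z + γ * I) x)‖ ≤
      ∫ x in Ioi (0 : ℝ), 8 * Real.exp (-L * z.re) / γ ^ 2 * (‖z‖ * Real.exp (-L * x) + x * Real.exp (-L * x)) := by
    refine norm_integral_le_of_norm_le ((((expL_int hL0).const_mul _).add hxint.1).const_mul _) ?_
    exact (ae_restrict_iff' measurableSet_Ioi).2 (Eventually.of_forall hbd)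
  refine hfin.trans ?_
  rw [integral_const_mul, integral_add ((expL_int hL0).const_mul _) hxint.1, integral_const_mul, expL_val hL0]
  have h11 : 1 / L ≤ 1 := by
    rw [div_le_one hL0]
    exact hL
  have h12 : ‖z‖ * (1 / L) + ∫ x in Ioi (0 : ℝ), x * Real.exp (-L * x) ≤ ‖z‖ + 1 := by
    have := mul_le_of_le_one_right (norm_nonneg z) h11
    linarith [hxint.2]
  calc 8 * Real.exp (-L * z.re) / γ ^ 2 * (‖z‖ * (1 / L) + ∫ x in Ioi (0 : ℝ), x * Real.exp (-L * x))
      ≤ 8 * Real.exp (-L * z.re) / γ ^ 2 * (‖z‖ + 1) := mul_le_mul_of_nonneg_left h12 (by positivity)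
    _ = _ := by ring

end Pool.Agent.H49.BZ
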