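import Pool.Agent.H49.BZ.Samp
import Pool.Agent.H49.BP.Trans

/-!
# The transform of the discrepancy
-/

set_option autoImplicit false

open MeasureTheory Filter Topology Set Complex

namespace Pool.Agent.H49.BZ

open Pool.Agent.H49.BP (em em_eq em_norm em_meas pc pc_set lt_pc pc_mono AA AA_meas em_cont em_cpow AA_trans)

variable [Dens]

/-- the integral -/
noncomputable def BB (m : ℤ) (x : ℝ) : ℂ := ∫ u in (1 : ℝ)..x, em m u * (md u : ℂ)

theorem BB_norm (m : ℤ) {x : ℝ} (hx : 1 ≤ x) : ‖BB m x‖ ≤ x - 1 := by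
  unfold BB
  have h1 := intervalIntegral.norm_integral_le_of_norm_le_const (a := 1) (b := x) (C := 1)
    (f := fun u => em m u * (md u : ℂ)) (fun u hu => by
      rw [uIoc_of_le hx] at hu
      rw [norm_mul, em_norm, one_mul, Complex.norm_real, Real.norm_of_nonneg (md_nonneg hu.1.le)]
      exact md_le_one hu.1.le)
  rw [one_mul, abs_of_nonneg (by linarith)] at h1
  exact h1

/-- the transform of the density -/
noncomputable def Tm (s : ℂ) : ℂ := ∫ u in Ioi (1 : ℝ), (u : ℂ) ^ (-s) * (md u : ℂ)

theorem BB_cont (m : ℤ) : ContinuousOn (BB m) (Ici 1) := by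
  have h : LipschitzOnWith 1 (BB m) (Ici 1) := by
    refine LipschitzOnWith.of_dist_le_mul fun x hx y hy => ?_
    have hx1 : (1 : ℝ) ≤ x := hx
    have hy1 : (1 : ℝ) ≤ y := hy
    rw [dist_eq_norm, Real.dist_eq, NNReal.coe_one, one_mul]
    have hi : ∀ a b : ℝ, 1 ≤ a → 1 ≤ b → IntervalIntegrable (fun u => em m u * (md u : ℂ)) volume a b :=
      fun a b ha hb => mdg_int (em_meas m) (fun u => (em_norm m u).le) ha hb
    have e : BB m x - BB m y = ∫ u in y..x, em m u * (md u : ℂ) := by
      unfold BB
      exact intervalIntegral.integral_interval_sub_left (hi _ _ le_rfl hx1) (hi _ _ le_rfl hy1)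
    rw [e]
    have h1 := intervalIntegral.norm_integral_le_of_norm_le_const (a := y) (b := x) (C := 1)
      (f := fun u => em m u * (md u : ℂ)) (fun u hu => by
        have hu1 : 1 ≤ u := by
          rcases le_total y x with h | h
          · rw [uIoc_of_le h] at hu
            linarith [hu.1]
          · rw [uIoc_of_ge h] at hu
            linarith [hu.1]
        rw [norm_mul, em_norm, one_mul, Complex.norm_real, Real.norm_of_nonneg (md_nonneg hu1)]
        exact md_le_one hu1)
    rw [one_mul] at h1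
    exact h1
  exact h.continuousOn

/-- the transform of the integral -/
theorem BB_trans (m : ℤ) {w : ℂ} (hw : 1 < w.re) :
    IntegrableOn (fun x : ℝ => (x : ℂ) ^ (-w - 1) * BB m x) (Ioi 1) ∧
      w * ∫ x in Ioi (1 : ℝ), (x : ℂ) ^ (-w - 1) * BB m x = Tm (w + m * I) := by
  have hw0 : w ≠ 0 := by
    intro h
    rw [h] at hw
    simp at hw
    linarith
  have hpc : ∀ z : ℂ, ContinuousOn (fun x : ℝ => (x : ℂ) ^ z) (Ioi 1) := by
    intro z x hx
    have hx1 : (1 : ℝ) < x := hx
    refine ContinuousAt.continuousWithinAt ?_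
    exact (Complex.continuousAt_ofReal_cpow_const x z (Or.inr (by linarith)))
  have hI : IntegrableOn (fun x : ℝ => (x : ℂ) ^ (-w - 1) * BB m x) (Ioi 1) := by
    refine Integrable.mono' (integrableOn_Ioi_rpow_of_lt (a := -w.re) (by linarith) one_pos) ?_ ?_
    · exact ((hpc _).mul ((BB_cont m).mono fun x hx => by
        have h : (1 : ℝ) < x := hx
        exact h.le)).aestronglyMeasurable measurableSet_Ioi
    · refine (ae_restrict_iff' measurableSet_Ioi).2 (Eventually.of_forall fun x hx => ?_)
      have hx1 : (1 : ℝ) < x := hx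
      rw [norm_mul, Complex.norm_cpow_eq_rpow_re_of_pos (by linarith)]
      have e : (-w - 1).re = -w.re - 1 := by simp
      rw [e]
      calc x ^ (-w.re - 1) * ‖BB m x‖ ≤ x ^ (-w.re - 1) * x :=
            mul_le_mul_of_nonneg_left ((BB_norm m hx1.le).trans (by linarith))
              (Real.rpow_nonneg (by linarith) _)
        _ = x ^ (-w.re) := by
            rw [Real.rpow_sub_one (by linarith)]
            field_simp
  refine ⟨hI, ?_⟩
  -- the kernel
  set g : ℝ → ℂ := fun u => em m u * (md u : ℂ) with hg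
  have hgm : Measurable g := (em_meas m).mul (Complex.measurable_ofReal.comp md_meas)
  have hgn : ∀ u, 1 ≤ u → ‖g u‖ ≤ 1 := by
    intro u hu
    rw [hg]
    beta_reduce
    rw [norm_mul, em_norm, one_mul, Complex.norm_real, Real.norm_of_nonneg (md_nonneg hu)]
    exact md_le_one hu
  let F : ℝ → ℝ → ℂ := fun x u => indicator (Iio x) (fun u => (x : ℂ) ^ (-w - 1) * g u) u
  have hFm : AEStronglyMeasurable (Function.uncurry F) ((volume.restrict (Ioi 1)).prod (volume.restrict (Ioi 1))) := by
    have h1 : Measurable fun p : ℝ × ℝ => ((p.1 : ℂ) ^ (-w - 1) * g p.2) := by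
      have h2 : Measurable fun p : ℝ × ℝ => (p.1 : ℂ) := Complex.measurable_ofReal.comp measurable_fst
      exact (h2.pow_const _).mul (hgm.comp measurable_snd)
    have h3 : MeasurableSet {p : ℝ × ℝ | p.2 < p.1} := measurableSet_lt measurable_snd measurable_fst
    have h4 : Function.uncurry F = indicator {p : ℝ × ℝ | p.2 < p.1} (fun p => (p.1 : ℂ) ^ (-w - 1) * g p.2) := by
      funext p
      simp only [Function.uncurry, F, indicator, mem_Iio, mem_ofPred_eq]
    rw [h4]
    exact (h1.indicator h3).aestronglyMeasurable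
  have hxint : ∀ u : ℝ, 1 < u → IntegrableOn (fun x : ℝ => (x : ℂ) ^ (-w - 1)) (Ioi u) := fun u hu =>
    integrableOn_Ioi_cpow_of_lt (by simp; linarith) (by linarith)
  have hsec : ∀ u : ℝ, 1 < u → ∀ (φ : ℝ → ℂ), ∫ x in Ioi (1 : ℝ), indicator (Ioi u) φ x = ∫ x in Ioi u, φ x := by
    intro u hu φ
    rw [setIntegral_indicator measurableSet_Ioi]
    congr 2
    exact inter_eq_self_of_subset_right (Ioi_subset_Ioi hu.le)
  have hFswap : ∀ x u : ℝ, F x u = indicator (Ioi u) (fun x : ℝ => (x : ℂ) ^ (-w - 1) * g u) x := by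
    intro x u
    simp only [F, indicator, mem_Iio, mem_Ioi]
  have hnr : ∀ u : ℝ, 1 < u → ∫ x in Ioi (1 : ℝ), ‖F x u‖ = ‖g u‖ * (u ^ (-w.re) / w.re) := by
    intro u hu
    have e1 : (fun x => ‖F x u‖) = indicator (Ioi u) (fun x : ℝ => ‖(x : ℂ) ^ (-w - 1) * g u‖) := by
      funext x
      rw [hFswap, norm_indicator_eq_indicator_norm]
    rw [e1, setIntegral_indicator measurableSet_Ioi, inter_eq_self_of_subset_right (Ioi_subset_Ioi hu.le)]
    have e2 : ∫ x in Ioi u, ‖(x : ℂ) ^ (-w - 1) * g u‖ = ∫ x in Ioi u, ‖g u‖ * x ^ (-w.re - 1) := by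
      refine setIntegral_congr_fun measurableSet_Ioi fun x hx => ?_
      have hx0 : 0 < x := by
        have : u < x := hx
        linarith
      beta_reduce
      rw [norm_mul, Complex.norm_cpow_eq_rpow_re_of_pos hx0, mul_comm]
      simp
    rw [e2, integral_const_mul, integral_Ioi_rpow_of_lt (by linarith) (by linarith)]
    have e3 : -w.re - 1 + 1 = -w.re := by ring
    rw [e3, neg_div_neg_eq]
  have hbase : IntegrableOn (fun u : ℝ => u ^ (-w.re)) (Ioi 1) := integrableOn_Ioi_rpow_of_lt (by linarith) one_pos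
  have hFi : Integrable (Function.uncurry F) ((volume.restrict (Ioi 1)).prod (volume.restrict (Ioi 1))) := by
    rw [integrable_prod_iff' hFm]
    constructor
    · refine (ae_restrict_iff' measurableSet_Ioi).2 (Eventually.of_forall fun u hu => ?_)
      have hu1 : (1 : ℝ) < u := hu
      have e : (fun x => Function.uncurry F (x, u)) = indicator (Ioi u) (fun x : ℝ => (x : ℂ) ^ (-w - 1) * g u) := by
        funext x
        exact hFswap x u
      rw [e, integrable_indicator_iff measurableSet_Ioi, IntegrableOn, Measure.restrict_restrict measurableSet_Ioi,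
        inter_eq_self_of_subset_left (Ioi_subset_Ioi hu1.le)]
      exact (hxint u hu1).mul_const _
    · have h5 : IntegrableOn (fun u : ℝ => ‖g u‖ * (u ^ (-w.re) / w.re)) (Ioi 1) := by
        refine Integrable.mono' (hbase.div_const w.re) ?_ ?_
        · exact (hgm.norm.aestronglyMeasurable.mul (hbase.div_const w.re).aestronglyMeasurable)
        · refine (ae_restrict_iff' measurableSet_Ioi).2 (Eventually.of_forall fun u hu => ?_)
          have hu1 : (1 : ℝ) < u := hu
          have h6 : 0 ≤ u ^ (-w.re) / w.re := div_nonneg (Real.rpow_nonneg (by linarith) _) (by linarith)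
          rw [norm_mul, norm_norm, Real.norm_of_nonneg h6]
          exact mul_le_of_le_one_left h6 (hgn u hu1.le)
      refine h5.congr_fun (fun u hu => ?_) measurableSet_Ioi
      exact (hnr u hu).symm
  have hswap := integral_integral_swap hFi
  have hL : ∫ x in Ioi (1 : ℝ), ∫ u in Ioi (1 : ℝ), F x u = ∫ x in Ioi (1 : ℝ), (x : ℂ) ^ (-w - 1) * BB m x := by
    refine setIntegral_congr_fun measurableSet_Ioi fun x hx => ?_
    have hx1 : (1 : ℝ) < x := hx
    beta_reduce
    simp only [F]
    rw [setIntegral_indicator measurableSet_Iio, integral_const_mul]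
    unfold BB
    rw [intervalIntegral.integral_of_le hx1.le, integral_Ioc_eq_integral_Ioo, Ioi_inter_Iio]
  have hR : ∫ u in Ioi (1 : ℝ), ∫ x in Ioi (1 : ℝ), F x u = ∫ u in Ioi (1 : ℝ), (u : ℂ) ^ (-w) * g u / w := by
    refine setIntegral_congr_fun measurableSet_Ioi fun u hu => ?_
    have hu1 : (1 : ℝ) < u := hu
    beta_reduce
    have e : (fun x => F x u) = indicator (Ioi u) (fun x : ℝ => (x : ℂ) ^ (-w - 1) * g u) := by
      funext x
      exact hFswap x u
    rw [e, hsec u hu1, integral_mul_const, integral_Ioi_cpow_of_lt (by simp; linarith) (by linarith)]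
    have e3 : -w - 1 + 1 = -w := by ring
    rw [e3, neg_div_neg_eq]
    ring
  rw [hL, hR] at hswap
  rw [hswap, integral_div, mul_div_cancel₀ _ hw0]
  unfold Tm
  refine setIntegral_congr_fun measurableSet_Ioi fun u hu => ?_
  have hu1 : (1 : ℝ) < u := hu
  beta_reduce
  rw [hg]
  beta_reduce
  rw [← em_cpow m (by linarith)]
  ring

end Pool.Agent.H49.BZ
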