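import Pool.Agent.H49.BZ.Cut
import Pool.Agent.H49.BZ.J
import Pool.Agent.H49.BZ.Trans

/-!
# The contributions of the zeros to the logarithm of the zeta function
-/

set_option autoImplicit false

open MeasureTheory Filter Topology Set Complex

namespace Pool.Agent.H49.BZ

/-- the contribution of one zero and its conjugate -/
noncomputable def hh (γ : ℕ → ℝ) (k : ℕ) (s : ℂ) : ℂ :=
  -(J (LL γ k) (s - 1 / 2 - γ k * I) + J (LL γ k) (s - 1 / 2 + γ k * I))

/-- the sum of the contributions -/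
noncomputable def HH (γ : ℕ → ℝ) (s : ℂ) : ℂ := ∑' k, hh γ k s

theorem re1 (s : ℂ) (g : ℝ) : (s - 1 / 2 - g * I).re = s.re - 1 / 2 := by simp
theorem re2 (s : ℂ) (g : ℝ) : (s - 1 / 2 + g * I).re = s.re - 1 / 2 := by simp
theorem im1 (s : ℂ) (g : ℝ) : (s - 1 / 2 - g * I).im = s.im - g := by simp
theorem im2 (s : ℂ) (g : ℝ) : (s - 1 / 2 + g * I).im = s.im + g := by simp

theorem slit12 {s : ℂ} {g : ℝ} (h : 1 / 2 < s.re ∨ |s.im| < g) :
    s - 1 / 2 - g * I ∈ slitPlane ∧ s - 1 / 2 + g * I ∈ slitPlane := by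
  rcases h with h | h
  · exact ⟨Or.inl (by rw [re1]; linarith), Or.inl (by rw [re2]; linarith)⟩
  · have h1 := abs_lt.1 h
    refine ⟨Or.inr ?_, Or.inr ?_⟩
    · rw [im1]
      linarith
    · rw [im2]
      linarith

theorem hh_diff {γ : ℕ → ℝ} (h0 : ∀ k, 0 < γ k) {k : ℕ} {s : ℂ} (h : 1 / 2 < s.re ∨ |s.im| < γ k) :
    DifferentiableAt ℂ (hh γ k) s := by
  have hL : 0 < LL γ k := by linarith [LL_one h0 k]
  obtain ⟨h1, h2⟩ := slit12 h
  unfold hh
  have h3 : DifferentiableAt ℂ (fun s : ℂ => J (LL γ k) (s - 1 / 2 - γ k * I)) s :=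
    DifferentiableAt.comp (f := fun s : ℂ => s - 1 / 2 - γ k * I) s (J_deriv hL h1).differentiableAt (by fun_prop)
  have h4 : DifferentiableAt ℂ (fun s : ℂ => J (LL γ k) (s - 1 / 2 + γ k * I)) s :=
    DifferentiableAt.comp (f := fun s : ℂ => s - 1 / 2 + γ k * I) s (J_deriv hL h2).differentiableAt (by fun_prop)
  exact (h3.add h4).neg

theorem exp_le_pow {γ : ℕ → ℝ} (h0 : ∀ k, 0 < γ k) (k : ℕ) {δ : ℝ} (hδ : 0 < δ) :
    Real.exp (-(LL γ k) * δ) ≤ (1 + γ k) ^ (-δ) := by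
  have h1 := LL_ge h0 k
  have h2 := log9 k
  have h3 : Real.log (1 + γ k) ≤ LL γ k := by linarith
  rw [Real.rpow_def_of_pos (by linarith [h0 k])]
  refine Real.exp_le_exp.2 ?_
  nlinarith

theorem hh_bd {γ : ℕ → ℝ} (h0 : ∀ k, 0 < γ k) (k : ℕ) {δ : ℝ} (hδ : 0 < δ) {s : ℂ} (hs : 1 / 2 + δ ≤ s.re) :
    ‖hh γ k s‖ ≤ 4 * (1 + γ k) ^ (-δ) / (δ + |(|s.im| - γ k)|) := by
  have hL1 := LL_one h0 k
  have hL : 0 < LL γ k := by linarith
  set d := (δ + |(|s.im| - γ k)|) / 2 with hd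
  have hd0 : 0 < d := by positivity
  have key : ∀ w : ℂ, w.re = s.re - 1 / 2 → |(|s.im| - γ k)| ≤ |w.im| →
      ‖J (LL γ k) w‖ ≤ (1 + γ k) ^ (-δ) / d := by
    intro w hw1 hw2
    have h1 : ∀ x : ℝ, 0 ≤ x → d ≤ ‖w + x‖ := by
      intro x hx
      have h2 := Complex.re_le_norm (w + x)
      have h3 := Complex.abs_im_le_norm (w + x)
      rw [Complex.add_re, Complex.ofReal_re] at h2
      rw [Complex.add_im, Complex.ofReal_im, add_zero] at h3
      rw [hd]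
      linarith
    refine (J_bd hL hd0 h1).trans ?_
    have h4 : Real.exp (-(LL γ k) * w.re) ≤ (1 + γ k) ^ (-δ) := by
      refine le_trans (Real.exp_le_exp.2 ?_) (exp_le_pow h0 k hδ)
      rw [hw1]
      nlinarith
    refine div_le_div₀ (Real.rpow_nonneg (by linarith [h0 k]) _) h4 hd0 ?_
    exact le_mul_of_one_le_right hd0.le hL1
  have hg : |γ k| = γ k := abs_of_pos (h0 k)
  have k1 := key (s - 1 / 2 - γ k * I) (re1 _ _) (by
    rw [im1]
    have := abs_abs_sub_abs_le s.im (γ k)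
    rwa [hg] at this)
  have k2 := key (s - 1 / 2 + γ k * I) (re2 _ _) (by
    rw [im2]
    have := abs_abs_sub_abs_le s.im (-γ k)
    rwa [abs_neg, hg, sub_neg_eq_add] at this)
  unfold hh
  rw [norm_neg]
  refine (norm_add_le _ _).trans ((add_le_add k1 k2).trans (le_of_eq ?_))
  rw [hd]
  field_simp
  ring

theorem hh_bd2 {γ : ℕ → ℝ} (h0 : ∀ k, 0 < γ k) (k : ℕ) {δ : ℝ} (hδ : 0 < δ) (hδ1 : δ ≤ 1) {s : ℂ}
    (hs : 1 / 2 + δ ≤ s.re) :
    ‖hh γ k s‖ ≤ 8 / δ * (((⌊γ k⌋₊ : ℝ) + 1) ^ (-δ) / (1 + |(|s.im| - ⌊γ k⌋₊)|)) := by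
  refine (hh_bd h0 k hδ hs).trans ?_
  have hfl := Nat.floor_le (h0 k).le
  have hfl2 := Nat.lt_floor_add_one (γ k)
  have h1 : (1 + γ k) ^ (-δ) ≤ ((⌊γ k⌋₊ : ℝ) + 1) ^ (-δ) :=
    Real.rpow_le_rpow_of_nonpos (by positivity) (by linarith) (by linarith)
  have h2 : |(|s.im| - (⌊γ k⌋₊ : ℝ))| ≤ |(|s.im| - γ k)| + 1 := by
    have e : |s.im| - (⌊γ k⌋₊ : ℝ) = (|s.im| - γ k) + (γ k - ⌊γ k⌋₊) := by ring
    rw [e]
    refine (abs_add_le _ _).trans ?_
    have : |γ k - ⌊γ k⌋₊| ≤ 1 := by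
      rw [abs_le]
      constructor <;> linarith
    linarith
  have h3 : δ / 2 * (1 + |(|s.im| - (⌊γ k⌋₊ : ℝ))|) ≤ δ + |(|s.im| - γ k)| := by
    have h4 := abs_nonneg (|s.im| - γ k)
    nlinarith
  have h5 : 0 < δ / 2 * (1 + |(|s.im| - (⌊γ k⌋₊ : ℝ))|) := by positivity
  calc 4 * (1 + γ k) ^ (-δ) / (δ + |(|s.im| - γ k)|)
      ≤ 4 * ((⌊γ k⌋₊ : ℝ) + 1) ^ (-δ) / (δ / 2 * (1 + |(|s.im| - (⌊γ k⌋₊ : ℝ))|)) :=
        div_le_div₀ (by positivity) (mul_le_mul_of_nonneg_left h1 (by norm_num)) h5 h3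
    _ = _ := by
        field_simp
        ring

theorem HH_bd {γ : ℕ → ℝ} (h0 : ∀ k, 0 < γ k) (hW : Windows γ) {σ : ℝ} (hσ : 1 / 2 < σ) :
    ∃ C : ℝ, 0 ≤ C ∧ ∀ s : ℂ, σ ≤ s.re → Summable (fun k => hh γ k s) ∧ ‖HH γ s‖ ≤ C := by
  set δ := min (σ - 1 / 2) 1 with hδ
  have hδ0 : 0 < δ := lt_min (by linarith) one_pos
  have hδ1 : δ ≤ 1 := min_le_right _ _
  have hδ2 : δ ≤ σ - 1 / 2 := min_le_left _ _
  obtain ⟨C, hC0, hC⟩ := zsum h0 hW hδ0
  refine ⟨8 / δ * C, by positivity, fun s hs => ?_⟩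
  obtain ⟨h1, h2⟩ := hC |s.im|
  have h3 := h1.mul_left (8 / δ)
  have h4 : ∀ k, ‖hh γ k s‖ ≤ 8 / δ * (((⌊γ k⌋₊ : ℝ) + 1) ^ (-δ) / (1 + |(|s.im| - ⌊γ k⌋₊)|)) := fun k =>
    hh_bd2 h0 k hδ0 hδ1 (by linarith)
  refine ⟨Summable.of_norm_bounded h3 h4, ?_⟩
  unfold HH
  refine (tsum_of_norm_bounded h3.hasSum h4).trans ?_
  rw [tsum_mul_left]
  exact mul_le_mul_of_nonneg_left h2 (by positivity)

theorem HH_diff {γ : ℕ → ℝ} (h0 : ∀ k, 0 < γ k) (hW : Windows γ) : DifferentiableOn ℂ (HH γ) {s | 1 / 2 < s.re} := by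
  intro s0 hs0
  have hs0' : 1 / 2 < s0.re := hs0
  set δ := (s0.re - 1 / 2) / 2 with hδ
  have hδ0 : 0 < δ := by rw [hδ]; linarith
  set R := |s0.im| + 1 with hR
  have hR0 : 0 < R := by positivity
  have hopen : IsOpen {s : ℂ | 1 / 2 + δ < s.re ∧ |s.im| < R} :=
    (isOpen_lt continuous_const Complex.continuous_re).inter
      (isOpen_lt (Complex.continuous_im.abs) continuous_const)
  have hmem : s0 ∈ {s : ℂ | 1 / 2 + δ < s.re ∧ |s.im| < R} := by
    refine ⟨?_, ?_⟩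
    · rw [hδ]
      linarith
    · rw [hR]
      linarith
  set M := (1 + R) / δ + 1 with hM
  have hM0 : 0 < M := by positivity
  have hsum : Summable fun k => 4 * M * (1 + γ k) ^ (-1 - δ) := (win_pow h0 hW hδ0).mul_left _
  have h1 : DifferentiableOn ℂ (HH γ) {s : ℂ | 1 / 2 + δ < s.re ∧ |s.im| < R} := by
    unfold HH
    refine Complex.differentiableOn_tsum_of_summable_norm hsum (fun k s hs => ?_) hopen fun k s hs => ?_
    · exact (hh_diff h0 (Or.inl (by linarith [hs.1]))).differentiableWithinAt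
    · refine (hh_bd h0 k hδ0 hs.1.le).trans ?_
      have hg := h0 k
      have h2 : 1 + γ k ≤ M * (δ + |(|s.im| - γ k)|) := by
        have h3 : γ k ≤ |s.im| + |(|s.im| - γ k)| := by
          have := neg_abs_le (|s.im| - γ k)
          linarith
        have h4 : M * (δ + |(|s.im| - γ k)|) = (1 + R) + δ + ((1 + R) / δ + 1) * |(|s.im| - γ k)| := by
          rw [hM]
          field_simp
        rw [h4]
        have h5 : 0 ≤ (1 + R) / δ * |(|s.im| - γ k)| := by positivity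
        have h6 : |s.im| < R := hs.2
        linarith
      have h7 : 0 < δ + |(|s.im| - γ k)| := by positivity
      have h8 : (1 + γ k) ^ (-1 - δ) = (1 + γ k) ^ (-δ) / (1 + γ k) := by
        rw [← Real.rpow_sub_one (by linarith)]
        congr 1
        ring
      rw [h8, mul_div_assoc', div_le_div_iff₀ h7 (by linarith)]
      have h9 : 0 ≤ (1 + γ k) ^ (-δ) := Real.rpow_nonneg (by linarith) _
      calc 4 * (1 + γ k) ^ (-δ) * (1 + γ k) ≤ 4 * (1 + γ k) ^ (-δ) * (M * (δ + |(|s.im| - γ k)|)) :=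
            mul_le_mul_of_nonneg_left h2 (by positivity)
        _ = _ := by ring
  exact (h1.differentiableAt (hopen.mem_nhds hmem)).differentiableWithinAt

/-- the transform of the contribution to the density -/
theorem ek_trans {γ : ℕ → ℝ} (h0 : ∀ k, 0 < γ k) (k : ℕ) {s : ℂ} (hs : 1 < s.re) :
    Integrable (fun u : ℝ => (u : ℂ) ^ (-s) * (ek γ k u : ℂ)) (volume.restrict (Ioi 1)) ∧
      ∫ u in Ioi (1 : ℝ), (u : ℂ) ^ (-s) * (ek γ k u : ℂ) = -hh γ k s ∧
      ∫ u in Ioi (1 : ℝ), ‖(u : ℂ) ^ (-s) * (ek γ k u : ℂ)‖ ≤ 4 * ((k : ℝ) + 1) ^ (1 - 2 * s.re) := by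
  have hU := UU_one h0 k
  set U := UU γ k with hUdef
  have hU0 : 0 < U := by linarith
  have hlogU : 1 ≤ Real.log U := by
    rw [hUdef, UU_log]
    exact LL_one h0 k
  have hlog : ∀ u ∈ Ioi U, 1 ≤ Real.log u := fun u hu =>
    hlogU.trans (Real.log_le_log hU0 (le_of_lt hu))
  -- restriction to u > U
  have hind : ∀ u : ℝ, u ∈ Ioi (1 : ℝ) → u ≠ U → (u : ℂ) ^ (-s) * (ek γ k u : ℂ) =
      indicator (Ioi U) (fun u : ℝ => (u : ℂ) ^ (-s) * ((2 * Real.cos (γ k * Real.log u) / (√u * Real.log u) : ℝ) : ℂ)) u := by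
    intro u _ hne
    unfold ek
    by_cases h : U < u
    · rw [if_pos h.le, indicator_of_mem (show u ∈ Ioi U from h)]
    · rw [if_neg (fun h2 => h (lt_of_le_of_ne h2 (Ne.symm hne))), indicator_of_notMem (by simpa using h)]
      simp
  have hae : (fun u : ℝ => (u : ℂ) ^ (-s) * (ek γ k u : ℂ)) =ᵐ[volume.restrict (Ioi 1)]
      indicator (Ioi U) (fun u : ℝ => (u : ℂ) ^ (-s) * ((2 * Real.cos (γ k * Real.log u) / (√u * Real.log u) : ℝ) : ℂ)) := by
    have h1 : ∀ᵐ u : ℝ ∂(volume.restrict (Ioi 1)), u ≠ U := by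
      refine Measure.ae_ne _ _
    filter_upwards [h1, ae_restrict_mem measurableSet_Ioi] with u hu1 hu2
    exact hind u hu2 hu1
  -- the two exponentials
  have hpt : ∀ u ∈ Ioi U, (u : ℂ) ^ (-s) * ((2 * Real.cos (γ k * Real.log u) / (√u * Real.log u) : ℝ) : ℂ) =
      (u : ℂ) ^ (-(s - 1 / 2 - γ k * I) - 1) / (Real.log u : ℂ) +
        (u : ℂ) ^ (-(s - 1 / 2 + γ k * I) - 1) / (Real.log u : ℂ) := by
    intro u hu
    have hu0 : 0 < u := hU0.trans hu
    have hune : (u : ℂ) ≠ 0 := by exact_mod_cast hu0.ne'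
    have hl : (Real.log u : ℂ) ≠ 0 := by
      have := hlog u hu
      have : Real.log u ≠ 0 := by linarith
      exact_mod_cast this
    have hsq : ((√u : ℝ) : ℂ) = (u : ℂ) ^ (1 / 2 : ℂ) := by
      rw [Real.sqrt_eq_rpow, Complex.ofReal_cpow hu0.le]
      push_cast
      rfl
    have hsqne : ((√u : ℝ) : ℂ) ≠ 0 := by
      have : √u ≠ 0 := (Real.sqrt_pos.2 hu0).ne'
      exact_mod_cast this
    have e1 : (u : ℂ) ^ (-(s - 1 / 2 - γ k * I) - 1) =
        (u : ℂ) ^ (-s) * ((u : ℂ) ^ (1 / 2 : ℂ))⁻¹ * Complex.exp ((γ k * Real.log u : ℝ) * I) := by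
      rw [← Complex.cpow_neg, ← Complex.cpow_add _ _ hune, Complex.cpow_def_of_ne_zero hune,
        Complex.cpow_def_of_ne_zero hune, ← Complex.ofReal_log hu0.le, ← Complex.exp_add]
      congr 1
      push_cast
      ring
    have e2 : (u : ℂ) ^ (-(s - 1 / 2 + γ k * I) - 1) =
        (u : ℂ) ^ (-s) * ((u : ℂ) ^ (1 / 2 : ℂ))⁻¹ * Complex.exp (-((γ k * Real.log u : ℝ) * I)) := by
      rw [← Complex.cpow_neg, ← Complex.cpow_add _ _ hune, Complex.cpow_def_of_ne_zero hune,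
        Complex.cpow_def_of_ne_zero hune, ← Complex.ofReal_log hu0.le, ← Complex.exp_add]
      congr 1
      push_cast
      ring
    have e3 : Complex.exp ((γ k * Real.log u : ℝ) * I) + Complex.exp (-((γ k * Real.log u : ℝ) * I)) =
        2 * ((Real.cos (γ k * Real.log u) : ℝ) : ℂ) := by
      rw [Complex.ofReal_cos, Complex.cos]
      ring_nf
    rw [e1, e2, ← add_div, ← mul_add, e3, ← hsq]
    push_cast
    field_simp
  have hJ1 := J_log hU (w := s - 1 / 2 - γ k * I) (by rw [re1]; linarith)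
  have hJ2 := J_log hU (w := s - 1 / 2 + γ k * I) (by rw [re2]; linarith)
  have hi : IntegrableOn (fun u : ℝ => (u : ℂ) ^ (-s) * ((2 * Real.cos (γ k * Real.log u) / (√u * Real.log u) : ℝ) : ℂ)) (Ioi U) :=
    (hJ1.1.add hJ2.1).congr_fun (fun u hu => (hpt u hu).symm) measurableSet_Ioi
  have hsub : Ioi (1 : ℝ) ∩ Ioi U = Ioi U := inter_eq_self_of_subset_right (Ioi_subset_Ioi hU.le)
  have hI1 : Integrable (indicator (Ioi U) (fun u : ℝ => (u : ℂ) ^ (-s) * ((2 * Real.cos (γ k * Real.log u) / (√u * Real.log u) : ℝ) : ℂ)))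
      (volume.restrict (Ioi 1)) := by
    rw [integrable_indicator_iff measurableSet_Ioi, IntegrableOn, Measure.restrict_restrict measurableSet_Ioi,
      inter_comm, hsub]
    exact hi
  refine ⟨hI1.congr hae.symm, ?_, ?_⟩
  · rw [integral_congr_ae hae, setIntegral_indicator measurableSet_Ioi, hsub,
      setIntegral_congr_fun measurableSet_Ioi hpt, integral_add hJ1.1 hJ2.1, hJ1.2, hJ2.2, hUdef, UU_log]
    unfold hh
    ring
  · have h1 : ∫ u in Ioi (1 : ℝ), ‖(u : ℂ) ^ (-s) * (ek γ k u : ℂ)‖ =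
        ∫ u in Ioi U, ‖(u : ℂ) ^ (-s) * ((2 * Real.cos (γ k * Real.log u) / (√u * Real.log u) : ℝ) : ℂ)‖ := by
      have h2 : (fun u : ℝ => ‖(u : ℂ) ^ (-s) * (ek γ k u : ℂ)‖) =ᵐ[volume.restrict (Ioi 1)]
          fun u : ℝ => ‖indicator (Ioi U) (fun u : ℝ => (u : ℂ) ^ (-s) *
          ((2 * Real.cos (γ k * Real.log u) / (√u * Real.log u) : ℝ) : ℂ)) u‖ := by
        filter_upwards [hae] with u hu
        rw [hu]
      rw [integral_congr_ae h2]
      have h3 : (fun u : ℝ => ‖indicator (Ioi U) (fun u : ℝ => (u : ℂ) ^ (-s) *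
          ((2 * Real.cos (γ k * Real.log u) / (√u * Real.log u) : ℝ) : ℂ)) u‖) =
          indicator (Ioi U) (fun u : ℝ => ‖(u : ℂ) ^ (-s) *
          ((2 * Real.cos (γ k * Real.log u) / (√u * Real.log u) : ℝ) : ℂ)‖) := by
        funext u
        rw [norm_indicator_eq_indicator_norm]
      rw [h3, setIntegral_indicator measurableSet_Ioi, hsub]
    rw [h1]
    have hbase : IntegrableOn (fun u : ℝ => 2 * u ^ (-s.re - 1 / 2)) (Ioi U) :=
      (integrableOn_Ioi_rpow_of_lt (by linarith) hU0).const_mul 2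
    have h4 : ∫ u in Ioi U, ‖(u : ℂ) ^ (-s) * ((2 * Real.cos (γ k * Real.log u) / (√u * Real.log u) : ℝ) : ℂ)‖ ≤
        ∫ u in Ioi U, 2 * u ^ (-s.re - 1 / 2) := by
      refine setIntegral_mono_on hi.norm hbase measurableSet_Ioi fun u hu => ?_
      have hu0 : 0 < u := hU0.trans hu
      have hl := hlog u hu
      have hs0 : 0 < √u := Real.sqrt_pos.2 hu0
      rw [norm_mul, Complex.norm_cpow_eq_rpow_re_of_pos hu0, Complex.norm_real, Complex.neg_re, norm_div, norm_mul]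
      have h5 : ‖Real.cos (γ k * Real.log u)‖ ≤ 1 := by
        rw [Real.norm_eq_abs]
        exact Real.abs_cos_le_one _
      have h6 : ‖√u * Real.log u‖ = √u * Real.log u := Real.norm_of_nonneg (by positivity)
      have h7 : ‖(2 : ℝ)‖ = 2 := by norm_num
      rw [h6, h7]
      have h8 : 2 * ‖Real.cos (γ k * Real.log u)‖ / (√u * Real.log u) ≤ 2 / √u := by
        refine div_le_div₀ (by norm_num) (by linarith) hs0 ?_
        exact le_mul_of_one_le_right hs0.le hl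
      calc u ^ (-s.re) * (2 * ‖Real.cos (γ k * Real.log u)‖ / (√u * Real.log u)) ≤ u ^ (-s.re) * (2 / √u) :=
            mul_le_mul_of_nonneg_left h8 (by positivity)
        _ = 2 * u ^ (-s.re - 1 / 2) := by
            rw [Real.rpow_sub hu0, ← Real.sqrt_eq_rpow]
            ring
    refine h4.trans ?_
    rw [integral_const_mul, integral_Ioi_rpow_of_lt (by linarith) hU0]
    have e : -s.re - 1 / 2 + 1 = -(s.re - 1 / 2) := by ring
    rw [e, neg_div_neg_eq]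
    have h9 : U ^ (-(s.re - 1 / 2)) ≤ ((k : ℝ) + 1) ^ (1 - 2 * s.re) := by
      have h10 : ((k : ℝ) + 1) ^ (2 : ℝ) ≤ U := by
        rw [show (2 : ℝ) = ((2 : ℕ) : ℝ) by norm_num, Real.rpow_natCast]
        refine le_trans ?_ (UU_sq h0 k)
        have := Nat.cast_nonneg (α := ℝ) k
        nlinarith
      calc U ^ (-(s.re - 1 / 2)) ≤ (((k : ℝ) + 1) ^ (2 : ℝ)) ^ (-(s.re - 1 / 2)) :=
            Real.rpow_le_rpow_of_nonpos (by positivity) h10 (by linarith)
        _ = _ := by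
            rw [← Real.rpow_mul (by positivity)]
            congr 1
            ring
    have h11 : U ^ (-(s.re - 1 / 2)) / (s.re - 1 / 2) ≤ 2 * ((k : ℝ) + 1) ^ (1 - 2 * s.re) := by
      rw [div_le_iff₀ (by linarith)]
      have h12 : 0 ≤ ((k : ℝ) + 1) ^ (1 - 2 * s.re) := by positivity
      nlinarith
    linarith

end Pool.Agent.H49.BZ
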