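import Pool.Agent.H49.BZ.Final

/-!
# Systems with simple zeros and ordinates in a dense set
-/

set_option autoImplicit false

open Filter Topology Set Complex

namespace Pool.Agent.H49.BZ

/-- The zeros in `Re s > 1 / 3` are simple, they have the real part `1 / 2`, and their number with ordinates in `(0, T]`
is `(T / 2 π) log (T / 2 π e) + O(log T)`. -/
def RegularZeros (Z : ℂ → ℂ) : Prop :=
  (∀ s : ℂ, 1 / 3 < s.re → Z s = 0 → s.re = 1 / 2 ∧ analyticOrderAt Z s = 1) ∧
    (∀ T₁ T₂ : ℝ, 0 ≤ T₁ → (zeros Z T₁ T₂).Finite) ∧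
    (fun T : ℝ => (zeroCount Z 0 T : ℝ) - T / (2 * Real.pi) * Real.log (T / (2 * Real.pi * Real.exp 1))) =O[atTop]
      Real.log

/-- The set of the positive ordinates of the zeros in `Re s > 1 / 3`. -/
def ordinates (Z : ℂ → ℂ) : Set ℝ := {t | 0 < t ∧ ∃ β : ℝ, 1 / 3 < β ∧ Z (β + t * I) = 0}

/-- a sequence between the solutions of the equation `rvm T = n` -/
def Between (γ : ℕ → ℝ) : Prop := ∀ n, gi n < γ n ∧ γ n < gi (n + 1)

theorem Between.near {γ : ℕ → ℝ} (h : Between γ) : Near γ := by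
  have h1 : ∀ k, 2 * Real.pi * Real.exp 1 ≤ γ k := fun k => (gi_ge k).trans (h k).1.le
  refine ⟨h1, fun k => ?_, fun k => ?_⟩
  · have h2 := (rvm_le_iff (h1 k) (gi_ge (k + 1))).2 (h k).2.le
    rw [rvm_gi] at h2
    push_cast at h2
    exact h2
  · have h2 := (rvm_le_iff (gi_ge k) (h1 k)).2 (h k).1.le
    rw [rvm_gi] at h2
    have := log9 0
    have h3 : 0 ≤ Real.log ((k : ℝ) + 3) := Real.log_nonneg (by linarith [Nat.cast_nonneg (α := ℝ) k])
    linarith

theorem Between.strictMono {γ : ℕ → ℝ} (h : Between γ) : StrictMono γ :=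
  strictMono_nat_of_lt_succ fun n => (h n).2.trans (h (n + 1)).1

theorem between_system {γ : ℕ → ℝ} (h : Between γ) : ∃ (q : ℕ → ℝ) (Z : ℂ → ℂ), RHSystem q Z ∧ RegularZeros Z ∧
    ordinates Z = range γ := by
  have hsm := h.strictMono
  have h0 := near_pos h.near
  obtain ⟨_, q, Z, hS, hline, hcount, hrvm, _, hord⟩ := near_system h.near hsm.monotone
  have hZ := hS.2.2.2.2.1
  refine ⟨q, Z, hS, ⟨fun s hs hz => ⟨hline s hs hz, ?_⟩, fun T₁ T₂ hT => (hcount T₁ T₂ hT).1, hrvm⟩, ?_⟩
  · obtain ⟨k, hk⟩ := (zero_iff hZ hord hs).1 hz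
    rw [hord s hs, Set.encard_eq_one]
    refine ⟨k, ?_⟩
    ext j
    rw [mem_singleton_iff, mem_ofPred_eq]
    constructor
    · intro hj
      have h1 := h0 k
      have h2 := h0 j
      rcases hk with hk | hk <;> rcases hj with hj | hj <;> rw [hk] at hj
      · have := congrArg Complex.im hj
        simp at this
        exact (hsm.injective this).symm
      · have := congrArg Complex.im hj
        simp at this
        linarith
      · have := congrArg Complex.im hj
        simp at this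
        linarith
      · have := congrArg Complex.im hj
        simp at this
        exact (hsm.injective this).symm
    · rintro rfl
      exact hk
  · ext t
    constructor
    · rintro ⟨ht, β, hβ, hz⟩
      obtain ⟨k, hk⟩ := (upper_iff h0 hZ hord (s := β + t * I) (by simpa using hβ) (by simpa using ht)).1 hz
      refine ⟨k, ?_⟩
      have := congrArg Complex.im hk
      rw [pt_im] at this
      simp at this
      exact this.symm
    · rintro ⟨k, rfl⟩
      refine ⟨h0 k, 1 / 2, by norm_num, ?_⟩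
      refine (zero_iff hZ hord (by simp; norm_num)).2 ⟨k, Or.inl ?_⟩
      push_cast
      rfl

/-- ordinates in a dense set -/
theorem dense_system {A : Set ℝ} (hA : Dense A) : ∃ (q : ℕ → ℝ) (Z : ℂ → ℂ), RHSystem q Z ∧ RegularZeros Z ∧
    ordinates Z ⊆ A := by
  have hex : ∀ n, ∃ t ∈ A, gi n < t ∧ t < gi (n + 1) := fun n => by
    obtain ⟨t, ht1, ht2⟩ := hA.exists_between (gi_mono (Nat.lt_succ_self n))
    exact ⟨t, ht1, ht2⟩
  choose γ hγA hγ using hex
  obtain ⟨q, Z, hS, hR, ho⟩ := between_system (γ := γ) hγ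
  refine ⟨q, Z, hS, hR, ?_⟩
  rw [ho]
  rintro _ ⟨k, rfl⟩
  exact hγA k

theorem exists_indep : ∃ x : ℕ → ℝ, AlgebraicIndependent ℚ x := by
  obtain ⟨s, hs⟩ := exists_isTranscendenceBasis ℚ ℝ
  have hinf : Infinite s := by
    by_contra hfin
    rw [not_infinite_iff_finite] at hfin
    have h1 : Cardinal.mk (Algebra.adjoin ℚ (range ((↑) : s → ℝ))) ≤ Cardinal.aleph0 := by
      rw [← Cardinal.mk_congr hs.1.aevalEquiv.toEquiv]
      refine MvPolynomial.cardinalMk_le_max.trans ?_
      simp only [max_le_iff, le_refl, and_true]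
      exact ⟨Cardinal.mk_le_aleph0, Cardinal.mk_le_aleph0⟩
    have h2 : Algebra.IsAlgebraic (Algebra.adjoin ℚ (range ((↑) : s → ℝ))) ℝ := hs.isAlgebraic
    have h3 := Algebra.IsAlgebraic.cardinalMk_le_max (Algebra.adjoin ℚ (range ((↑) : s → ℝ))) ℝ
    rw [Cardinal.mk_real] at h3
    have h4 := h3.trans (max_le h1 le_rfl)
    exact absurd Cardinal.aleph0_lt_continuum (not_lt.2 h4)
  exact ⟨_, hs.1.comp _ (Infinite.natEmbedding s).injective⟩

/-- rational multiples of algebraically independent numbers -/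
theorem scale_indep {x : ℕ → ℝ} (hx : AlgebraicIndependent ℚ x) {r : ℕ → ℚ} (hr : ∀ n, r n ≠ 0) :
    AlgebraicIndependent ℚ (fun n => (r n : ℝ) * x n) := by
  have h1 : AlgebraicIndependent ℚ (fun n => MvPolynomial.C (r n) * MvPolynomial.X n : ℕ → MvPolynomial ℕ ℚ) := by
    have h2 : Function.LeftInverse (MvPolynomial.aeval (fun n => MvPolynomial.C (r n)⁻¹ * MvPolynomial.X n :
        ℕ → MvPolynomial ℕ ℚ)) (MvPolynomial.aeval (fun n => MvPolynomial.C (r n) * MvPolynomial.X n :
        ℕ → MvPolynomial ℕ ℚ)) := by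
      intro p
      have h3 : ((MvPolynomial.aeval (fun n => MvPolynomial.C (r n)⁻¹ * MvPolynomial.X n :
        ℕ → MvPolynomial ℕ ℚ)).comp (MvPolynomial.aeval (fun n => MvPolynomial.C (r n) * MvPolynomial.X n :
        ℕ → MvPolynomial ℕ ℚ))) = AlgHom.id ℚ _ := by
        refine MvPolynomial.algHom_ext fun n => ?_
        simp only [AlgHom.comp_apply, MvPolynomial.aeval_X, map_mul, AlgHom.id_apply]
        rw [MvPolynomial.algHom_C, MvPolynomial.algebraMap_eq, ← mul_assoc, ← MvPolynomial.C_mul,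
          mul_inv_cancel₀ (hr n), MvPolynomial.C_1, one_mul]
      exact DFunLike.congr_fun h3 p
    exact h2.injective
  have h3 := hx.aeval_of_algebraicIndependent h1
  refine (iff_of_eq ?_).1 h3
  congr 1
  funext n
  simp [MvPolynomial.aeval_def]

/-- an algebraically independent sequence between the solutions -/
theorem exists_indep_between : ∃ γ : ℕ → ℝ, Between γ ∧ AlgebraicIndependent ℚ γ := by
  obtain ⟨x, hx⟩ := exists_indep
  have hx0 : ∀ n, x n ≠ 0 := fun n => hx.ne_zero n
  have hex : ∀ n, ∃ r : ℚ, r ≠ 0 ∧ gi n < r * x n ∧ r * x n < gi (n + 1) := by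
    intro n
    have hlt := gi_mono (Nat.lt_succ_self n)
    have hpos : 0 < gi n := by linarith [gi_ge n, c_bounds.1]
    rcases lt_or_gt_of_ne (hx0 n) with h | h
    · have h1 : gi (n + 1) / x n < gi n / x n := div_lt_div_of_neg_of_lt h hlt
      obtain ⟨r, hr1, hr2⟩ := exists_rat_btwn h1
      refine ⟨r, ?_, ?_, ?_⟩
      · rintro rfl
        have : gi n / x n < 0 := div_neg_of_pos_of_neg hpos h
        rw [Rat.cast_zero] at hr2
        linarith
      · rwa [lt_div_iff_of_neg h] at hr2
      · rwa [div_lt_iff_of_neg h] at hr1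
    · have h1 : gi n / x n < gi (n + 1) / x n := div_lt_div_of_pos_right hlt h
      obtain ⟨r, hr1, hr2⟩ := exists_rat_btwn h1
      refine ⟨r, ?_, ?_, ?_⟩
      · rintro rfl
        have : 0 < gi n / x n := div_pos hpos h
        rw [Rat.cast_zero] at hr1
        linarith
      · rwa [div_lt_iff₀ h] at hr1
      · rwa [lt_div_iff₀ h] at hr2
  choose r hr0 hr using hex
  exact ⟨fun n => r n * x n, hr, scale_indep hx hr0⟩

end Pool.Agent.H49.BZ
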