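import Pool.Agent.H49.BZ.Cut

/-!
# The mass of the density
-/

set_option autoImplicit false

open MeasureTheory Filter Topology Set

namespace Pool.Agent.H49.BZ

theorem sqrt_int {a b : ℝ} (ha : 0 < a) (hab : a ≤ b) : IntervalIntegrable (fun u : ℝ => (√u)⁻¹) volume a b ∧
    ∫ u in a..b, (√u)⁻¹ = 2 * √b - 2 * √a := by
  have hcont : ContinuousOn (fun u : ℝ => (√u)⁻¹) (uIcc a b) := by
    rw [uIcc_of_le hab]
    intro u hu
    have hu0 : 0 < u := lt_of_lt_of_le ha hu.1
    exact (Real.continuous_sqrt.continuousAt.inv₀ (Real.sqrt_pos.2 hu0).ne').continuousWithinAt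
  refine ⟨hcont.intervalIntegrable, ?_⟩
  refine intervalIntegral.integral_eq_sub_of_hasDerivAt (f := fun u => 2 * √u) (fun u hu => ?_) hcont.intervalIntegrable
  rw [uIcc_of_le hab] at hu
  have hu0 : 0 < u := lt_of_lt_of_le ha hu.1
  have h := (Real.hasDerivAt_sqrt hu0.ne').const_mul 2
  have e : 2 * (1 / (2 * √u)) = (√u)⁻¹ := by
    have := Real.sqrt_pos.2 hu0
    field_simp
  rwa [e] at h

/-- the primitive -/
noncomputable def ph1 (g u : ℝ) : ℝ := 2 / g * (√u * Real.sin (g * Real.log u) / Real.log u)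

/-- the lower order term of the derivative -/
noncomputable def ph2 (g u : ℝ) : ℝ :=
  2 / g * ((1 / (2 * √u) * Real.sin (g * Real.log u) * Real.log u - √u * Real.sin (g * Real.log u) * u⁻¹) /
    Real.log u ^ 2)

theorem ph1_deriv {g u : ℝ} (hg : 0 < g) (hu : 1 < u) :
    HasDerivAt (ph1 g) (2 * Real.cos (g * Real.log u) / (√u * Real.log u) + ph2 g u) u := by
  have hu0 : 0 < u := by linarith
  have hl := Real.log_pos hu
  have hs := Real.sqrt_pos.2 hu0
  have h1 := Real.hasDerivAt_sqrt hu0.ne'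
  have h2 := Real.hasDerivAt_log hu0.ne'
  have h3 : HasDerivAt (fun u => Real.sin (g * Real.log u)) (Real.cos (g * Real.log u) * (g * u⁻¹)) u :=
    (h2.const_mul g).sin
  have h4 := ((h1.mul h3).div h2 hl.ne').const_mul (2 / g)
  refine h4.congr_deriv ?_
  unfold ph2
  have e : u⁻¹ = (√u)⁻¹ * (√u)⁻¹ := by
    rw [← mul_inv, Real.mul_self_sqrt hu0.le]
  simp only [Pi.mul_apply]
  rw [e]
  field_simp
  ring

theorem ph1_abs {g u : ℝ} (hg : 0 < g) (hu : 1 ≤ Real.log u) : |ph1 g u| ≤ 2 * √u / g := by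
  unfold ph1
  have hl : 0 < Real.log u := by linarith
  rw [abs_mul, abs_of_pos (by positivity : 0 < 2 / g), abs_div, abs_mul, abs_of_nonneg (Real.sqrt_nonneg u), abs_of_pos hl]
  have h1 : √u * |Real.sin (g * Real.log u)| / Real.log u ≤ √u := by
    rw [div_le_iff₀ hl]
    exact mul_le_mul_of_nonneg_left ((Real.abs_sin_le_one _).trans hu) (Real.sqrt_nonneg u)
  calc 2 / g * (√u * |Real.sin (g * Real.log u)| / Real.log u) ≤ 2 / g * √u :=
        mul_le_mul_of_nonneg_left h1 (by positivity)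
    _ = 2 * √u / g := by ring

theorem ph2_abs {g u : ℝ} (hg : 0 < g) (hu0 : 0 < u) (hu : 1 ≤ Real.log u) : |ph2 g u| ≤ 3 / g * (√u)⁻¹ := by
  unfold ph2
  have hl : 0 < Real.log u := by linarith
  have hs := Real.sqrt_pos.2 hu0
  rw [abs_mul, abs_of_pos (by positivity : 0 < 2 / g), abs_div, abs_of_pos (by positivity : 0 < Real.log u ^ 2)]
  have e : √u * Real.sin (g * Real.log u) * u⁻¹ = (√u)⁻¹ * Real.sin (g * Real.log u) := by
    have e : u⁻¹ = (√u)⁻¹ * (√u)⁻¹ := by
      rw [← mul_inv, Real.mul_self_sqrt hu0.le]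
    rw [e]
    field_simp
  have hsin := Real.abs_sin_le_one (g * Real.log u)
  have h1 : |1 / (2 * √u) * Real.sin (g * Real.log u) * Real.log u - √u * Real.sin (g * Real.log u) * u⁻¹| ≤
      3 / 2 * (√u)⁻¹ * Real.log u ^ 2 := by
    rw [e]
    have h2 : |1 / (2 * √u) * Real.sin (g * Real.log u) * Real.log u| ≤ 1 / 2 * (√u)⁻¹ * Real.log u := by
      rw [abs_mul, abs_mul, abs_of_pos hl, abs_of_pos (by positivity : 0 < 1 / (2 * √u))]
      refine mul_le_mul_of_nonneg_right ?_ hl.le
      calc 1 / (2 * √u) * |Real.sin (g * Real.log u)| ≤ 1 / (2 * √u) * 1 :=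
            mul_le_mul_of_nonneg_left hsin (by positivity)
        _ = 1 / 2 * (√u)⁻¹ := by
            field_simp
    have h3 : |(√u)⁻¹ * Real.sin (g * Real.log u)| ≤ (√u)⁻¹ := by
      rw [abs_mul, abs_of_pos (by positivity : 0 < (√u)⁻¹)]
      exact mul_le_of_le_one_right (by positivity) hsin
    have h4 : Real.log u ≤ Real.log u ^ 2 := by nlinarith
    have h5 : 1 ≤ Real.log u ^ 2 := by nlinarith
    have h6 : 0 < (√u)⁻¹ := by positivity
    have h7 := mul_le_mul_of_nonneg_left h4 h6.le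
    have h8 := mul_le_mul_of_nonneg_left h5 h6.le
    refine (abs_sub _ _).trans ?_
    nlinarith
  calc 2 / g * (|1 / (2 * √u) * Real.sin (g * Real.log u) * Real.log u - √u * Real.sin (g * Real.log u) * u⁻¹| /
        Real.log u ^ 2) ≤ 2 / g * (3 / 2 * (√u)⁻¹) := by
        refine mul_le_mul_of_nonneg_left ?_ (by positivity)
        rw [div_le_iff₀ (by positivity)]
        exact h1
    _ = _ := by ring

/-- the contribution of one zero -/
theorem one_zero {g U x : ℝ} (hg : 0 < g) (hU : 0 < U) (hU1 : 1 ≤ Real.log U) (hx : U ≤ x) :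
    |∫ u in U..x, 2 * Real.cos (g * Real.log u) / (√u * Real.log u)| ≤ 10 * √x / g := by
  have hu1 : ∀ u ∈ uIcc U x, 1 < u ∧ 1 ≤ Real.log u := by
    intro u hu
    rw [uIcc_of_le hx] at hu
    have h1 : 1 ≤ Real.log u := hU1.trans (Real.log_le_log hU hu.1)
    refine ⟨?_, h1⟩
    by_contra h
    push Not at h
    have := Real.log_nonpos (hU.le.trans hu.1) h
    linarith
  have hc1 : ContinuousOn (fun u : ℝ => 2 * Real.cos (g * Real.log u) / (√u * Real.log u)) (uIcc U x) := by
    intro u hu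
    obtain ⟨h1, h2⟩ := hu1 u hu
    have hlp : 0 < Real.log u := by linarith
    have hl : ContinuousAt Real.log u := Real.continuousAt_log (by linarith)
    have hs := Real.sqrt_pos.2 (show 0 < u by linarith)
    refine ContinuousAt.continuousWithinAt ?_
    refine ContinuousAt.div ?_ (Real.continuous_sqrt.continuousAt.mul hl) (mul_pos hs hlp).ne'
    exact ((Real.continuous_cos.continuousAt).comp (continuousAt_const.mul hl)).const_mul 2 |>.congr (by
      refine Eventually.of_forall fun u => ?_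
      rfl)
  have hc2 : ContinuousOn (ph2 g) (uIcc U x) := by
    intro u hu
    obtain ⟨h1, h2⟩ := hu1 u hu
    have hlp : 0 < Real.log u := by linarith
    have hl : ContinuousAt Real.log u := Real.continuousAt_log (by linarith)
    have hs := Real.sqrt_pos.2 (show 0 < u by linarith)
    have hsq : ContinuousAt (fun u : ℝ => √u) u := Real.continuous_sqrt.continuousAt
    have hsin : ContinuousAt (fun u => Real.sin (g * Real.log u)) u :=
      ContinuousAt.comp (f := fun u => g * Real.log u) Real.continuous_sin.continuousAt (continuousAt_const.mul hl)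
    refine ContinuousAt.continuousWithinAt ?_
    unfold ph2
    refine continuousAt_const.mul (ContinuousAt.div ?_ (hl.pow 2) (by positivity))
    refine ContinuousAt.sub (((continuousAt_const.div (continuousAt_const.mul hsq)
      (mul_pos two_pos hs).ne').mul hsin).mul hl) ?_
    exact (hsq.mul hsin).mul (continuousAt_inv₀ (by linarith))
  have h1 : ∫ u in U..x, (2 * Real.cos (g * Real.log u) / (√u * Real.log u) + ph2 g u) = ph1 g x - ph1 g U :=
    intervalIntegral.integral_eq_sub_of_hasDerivAt (fun u hu => ph1_deriv hg (hu1 u hu).1)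
      (hc1.add hc2).intervalIntegrable
  rw [intervalIntegral.integral_add hc1.intervalIntegrable hc2.intervalIntegrable] at h1
  obtain ⟨hsi, hsv⟩ := sqrt_int hU hx
  have h2 : |∫ u in U..x, ph2 g u| ≤ ∫ u in U..x, 3 / g * (√u)⁻¹ := by
    rw [← Real.norm_eq_abs]
    refine intervalIntegral.norm_integral_le_of_norm_le hx (Eventually.of_forall fun u hu => ?_) (hsi.const_mul _)
    have hu' : u ∈ uIcc U x := by
      rw [uIcc_of_le hx]
      exact ⟨hu.1.le, hu.2⟩
    obtain ⟨h3, h4⟩ := hu1 u hu'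
    exact ph2_abs hg (by linarith) h4
  rw [intervalIntegral.integral_const_mul, hsv] at h2
  have h3 := ph1_abs hg (u := x) (hU1.trans (Real.log_le_log hU hx))
  have h4 := ph1_abs hg hU1
  have h5 : √U ≤ √x := Real.sqrt_le_sqrt hx
  have h6 : 2 * √U / g ≤ 2 * √x / g := div_le_div_of_nonneg_right (by linarith) hg.le
  have h7 : 3 / g * (2 * √x - 2 * √U) ≤ 6 * √x / g := by
    have h8 : 0 ≤ √U := Real.sqrt_nonneg U
    calc 3 / g * (2 * √x - 2 * √U) ≤ 3 / g * (2 * √x) := mul_le_mul_of_nonneg_left (by linarith) (by positivity)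
      _ = 6 * √x / g := by ring
  have h8 : ∫ u in U..x, 2 * Real.cos (g * Real.log u) / (√u * Real.log u) =
      ph1 g x - ph1 g U - ∫ u in U..x, ph2 g u := by
    rw [← h1]
    ring
  rw [h8]
  have h9 := abs_sub (ph1 g x - ph1 g U) (∫ u in U..x, ph2 g u)
  have h10 := abs_sub (ph1 g x) (ph1 g U)
  have h11 : 10 * √x / g = 2 * √x / g + 2 * √x / g + 6 * √x / g := by ring
  rw [h11]
  linarith

end Pool.Agent.H49.BZ
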