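import Pool.Agent.H49.BZ.Hk

/-!
# The continuation of the exponential of the contributions of the zeros
-/

set_option autoImplicit false

open MeasureTheory Filter Topology Set Complex

namespace Pool.Agent.H49.BZ

section
variable {γ : ℕ → ℝ}

/-- the entire function with the two zeros -/
theorem exists_AA (h0 : ∀ k, 0 < γ k) : ∃ A : ℕ → ℂ → ℂ, (∀ k, Differentiable ℂ (A k)) ∧
    (∀ k s, (1 / 2 < s.re ∨ |s.im| < γ k) → A k s = Complex.exp (hh γ k s)) ∧
    ∀ k s, analyticOrderAt (A k) s = if s = 1 / 2 + γ k * I ∨ s = 1 / 2 - γ k * I then 1 else 0 := by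
  have hL : ∀ k, 0 < LL γ k := fun k => by linarith [LL_one h0 k]
  choose c E hc hE hcE using fun k => J_entire (hL k)
  refine ⟨fun k s => (c k * (s - 1 / 2 - γ k * I) * Complex.exp (E k (s - 1 / 2 - γ k * I))) *
    (c k * (s - 1 / 2 + γ k * I) * Complex.exp (E k (s - 1 / 2 + γ k * I))), fun k => ?_, fun k s hs => ?_, fun k s => ?_⟩
  · have h1 : Differentiable ℂ fun s : ℂ => E k (s - 1 / 2 - γ k * I) := (hE k).comp (by fun_prop)
    have h2 : Differentiable ℂ fun s : ℂ => E k (s - 1 / 2 + γ k * I) := (hE k).comp (by fun_prop)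
    fun_prop
  · obtain ⟨h1, h2⟩ := slit12 hs
    beta_reduce
    rw [← hcE k _ h1, ← hcE k _ h2, ← Complex.exp_add]
    unfold hh
    congr 1
    ring
  · -- the order
    have h1 : Differentiable ℂ fun s : ℂ => E k (s - 1 / 2 - γ k * I) := (hE k).comp (by fun_prop)
    have h2 : Differentiable ℂ fun s : ℂ => E k (s - 1 / 2 + γ k * I) := (hE k).comp (by fun_prop)
    have hfac : ∀ (a : ℂ) (e : ℂ → ℂ) (z : ℂ), Differentiable ℂ e → z ≠ 0 →
        analyticOrderAt (fun s : ℂ => z * (s - a) * Complex.exp (e s)) s = if s = a then 1 else 0 := by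
      intro a e z he hz
      have g1 : AnalyticAt ℂ (fun s : ℂ => s - a) s := analyticAt_id.sub analyticAt_const
      have g2 : AnalyticAt ℂ (fun s : ℂ => z * Complex.exp (e s)) s :=
        (Differentiable.analyticAt (by fun_prop) s)
      have g3 : (fun s : ℂ => z * (s - a) * Complex.exp (e s)) = (fun s : ℂ => s - a) * fun s : ℂ => z * Complex.exp (e s) := by
        funext s
        simp only [Pi.mul_apply]
        ring
      rw [g3, analyticOrderAt_mul g1 g2]
      have g4 : analyticOrderAt (fun s : ℂ => z * Complex.exp (e s)) s = 0 := by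
        rw [g2.analyticOrderAt_eq_zero]
        exact mul_ne_zero hz (Complex.exp_ne_zero _)
      rw [g4, add_zero]
      split_ifs with h
      · rw [h]
        exact analyticOrderAt_id_sub_const_self
      · rw [g1.analyticOrderAt_eq_zero]
        exact sub_ne_zero.2 h
    have k1 := hfac (1 / 2 + γ k * I) (fun s : ℂ => E k (s - 1 / 2 - γ k * I)) (c k) h1 (hc k)
    have k2 := hfac (1 / 2 - γ k * I) (fun s : ℂ => E k (s - 1 / 2 + γ k * I)) (c k) h2 (hc k)
    have e1 : (fun s : ℂ => c k * (s - (1 / 2 + γ k * I)) * Complex.exp (E k (s - 1 / 2 - γ k * I))) =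
        fun s : ℂ => c k * (s - 1 / 2 - γ k * I) * Complex.exp (E k (s - 1 / 2 - γ k * I)) := by
      funext s
      ring
    have e2 : (fun s : ℂ => c k * (s - (1 / 2 - γ k * I)) * Complex.exp (E k (s - 1 / 2 + γ k * I))) =
        fun s : ℂ => c k * (s - 1 / 2 + γ k * I) * Complex.exp (E k (s - 1 / 2 + γ k * I)) := by
      funext s
      ring
    rw [e1] at k1
    rw [e2] at k2
    have g1 : AnalyticAt ℂ (fun s : ℂ => c k * (s - 1 / 2 - γ k * I) * Complex.exp (E k (s - 1 / 2 - γ k * I))) s :=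
      Differentiable.analyticAt (by fun_prop) s
    have g2 : AnalyticAt ℂ (fun s : ℂ => c k * (s - 1 / 2 + γ k * I) * Complex.exp (E k (s - 1 / 2 + γ k * I))) s :=
      Differentiable.analyticAt (by fun_prop) s
    have g3 := analyticOrderAt_mul g1 g2
    have g4 : (fun s : ℂ => (c k * (s - 1 / 2 - γ k * I) * Complex.exp (E k (s - 1 / 2 - γ k * I))) *
        (c k * (s - 1 / 2 + γ k * I) * Complex.exp (E k (s - 1 / 2 + γ k * I)))) =
        (fun s : ℂ => c k * (s - 1 / 2 - γ k * I) * Complex.exp (E k (s - 1 / 2 - γ k * I))) *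
        fun s : ℂ => c k * (s - 1 / 2 + γ k * I) * Complex.exp (E k (s - 1 / 2 + γ k * I)) := rfl
    beta_reduce
    rw [g4, g3, k1, k2]
    by_cases a1 : s = 1 / 2 + γ k * I
    · have a2 : s ≠ 1 / 2 - γ k * I := by
        intro h
        rw [a1] at h
        have := congrArg Complex.im h
        simp at this
        linarith [h0 k]
      rw [if_pos a1, if_neg a2, if_pos (Or.inl a1), add_zero]
    · rw [if_neg a1, zero_add]
      by_cases a2 : s = 1 / 2 - γ k * I
      · rw [if_pos a2, if_pos (Or.inr a2)]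
      · rw [if_neg a2, if_neg (fun h => h.elim a1 a2)]

/-- the bound for the starts -/
theorem LL_log (h0 : ∀ k, 0 < γ k) (hm : Monotone γ) (hW : Windows γ) :
    ∃ A : ℝ, ∀ k, LL γ k ≤ A + 4 * Real.log (1 + γ k) := by
  obtain ⟨C, hC1, hC⟩ := idx h0 hm hW
  refine ⟨2 * Real.log (9 * C) + Real.pi / γ 0, fun k => ?_⟩
  have h1 := LL_le h0 k
  have hg := h0 k
  have h2 : Real.log (8 * k + 9) ≤ Real.log (9 * C) + 3 / 2 * Real.log (1 + γ k) := by
    rw [← Real.log_rpow (by linarith), ← Real.log_mul (by positivity) (by positivity)]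
    refine Real.log_le_log (by positivity) ?_
    have := hC k
    have h3 := Nat.cast_nonneg (α := ℝ) k
    linarith
  have h4 : Real.pi / γ k ≤ Real.pi / γ 0 :=
    div_le_div_of_nonneg_left Real.pi_pos.le (h0 0) (hm (Nat.zero_le k))
  linarith

/-- the bound for the contributions of the distant zeros -/
theorem hh_far (h0 : ∀ k, 0 < γ k) (hm : Monotone γ) (hW : Windows γ) (M : ℝ) (hM : 0 ≤ M) :
    ∃ C : ℝ, 0 ≤ C ∧ ∀ (k : ℕ) (s : ℂ), 1 / 3 ≤ s.re → ‖s‖ ≤ M → 2 * |s.im| ≤ γ k →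
      ‖hh γ k s‖ ≤ C * (1 + γ k) ^ (-1 - 1 / 3 : ℝ) := by
  obtain ⟨A, hA⟩ := LL_log h0 hm hW
  set D := 1 / γ 0 + 1 with hD
  have hg0 := h0 0
  have hD0 : 0 < D := by positivity
  refine ⟨8 * Real.exp (A / 6) * (M + 2) * D ^ 2, by positivity, fun k s hs hsM hk => ?_⟩
  have hg := h0 k
  have hL1 := LL_one h0 k
  have hp := J_pair hL1 hg (LL_sin h0 k) (z := s - 1 / 2) (by
    have e : (s - 1 / 2).im = s.im := by simp
    rw [e]
    linarith)
  unfold hh
  rw [norm_neg]
  refine hp.trans ?_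
  have h1 : Real.exp (-(LL γ k) * (s - 1 / 2).re) ≤ Real.exp (A / 6) * (1 + γ k) ^ (2 / 3 : ℝ) := by
    rw [Real.rpow_def_of_pos (by linarith), ← Real.exp_add]
    refine Real.exp_le_exp.2 ?_
    have e : (s - 1 / 2).re = s.re - 1 / 2 := by simp
    rw [e]
    have := hA k
    nlinarith
  have h2 : ‖s - 1 / 2‖ + 1 ≤ M + 2 := by
    have h3 := norm_sub_le s (1 / 2 : ℂ)
    have h4 : ‖(1 / 2 : ℂ)‖ ≤ 1 := by
      rw [norm_div]
      norm_num
    linarith
  have h5 : 1 + γ k ≤ D * γ k := by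
    have h6 : γ 0 ≤ γ k := hm (Nat.zero_le k)
    have h7 : 1 ≤ 1 / γ 0 * γ k := by
      rw [one_div, ← div_eq_inv_mul, one_le_div hg0]
      exact h6
    rw [hD]
    linarith
  have h8 : 1 / γ k ^ 2 ≤ D ^ 2 * (1 + γ k) ^ (-2 : ℝ) := by
    rw [Real.rpow_neg (by linarith), show (2 : ℝ) = ((2 : ℕ) : ℝ) by norm_num, Real.rpow_natCast, ← div_eq_mul_inv,
      div_le_div_iff₀ (by positivity) (by positivity), one_mul, ← mul_pow]
    exact pow_le_pow_left₀ (by linarith) h5 2
  have h9 : (1 + γ k) ^ (2 / 3 : ℝ) * (1 + γ k) ^ (-2 : ℝ) = (1 + γ k) ^ (-1 - 1 / 3 : ℝ) := by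
    rw [← Real.rpow_add (by linarith)]
    norm_num
  calc 8 * Real.exp (-(LL γ k) * (s - 1 / 2).re) * (‖s - 1 / 2‖ + 1) / γ k ^ 2
      = 8 * (Real.exp (-(LL γ k) * (s - 1 / 2).re) * (‖s - 1 / 2‖ + 1)) * (1 / γ k ^ 2) := by ring
    _ ≤ 8 * ((Real.exp (A / 6) * (1 + γ k) ^ (2 / 3 : ℝ)) * (M + 2)) * (D ^ 2 * (1 + γ k) ^ (-2 : ℝ)) := by
        have h10 : Real.exp (-(LL γ k) * (s - 1 / 2).re) * (‖s - 1 / 2‖ + 1) ≤
            (Real.exp (A / 6) * (1 + γ k) ^ (2 / 3 : ℝ)) * (M + 2) :=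
          mul_le_mul h1 h2 (by positivity) (by positivity)
        exact mul_le_mul (mul_le_mul_of_nonneg_left h10 (by norm_num)) h8 (by positivity) (by positivity)
    _ = 8 * Real.exp (A / 6) * (M + 2) * D ^ 2 * ((1 + γ k) ^ (2 / 3 : ℝ) * (1 + γ k) ^ (-2 : ℝ)) := by ring
    _ = _ := by rw [h9]

/-- the tail -/
noncomputable def TT (γ : ℕ → ℝ) (K : ℕ) (s : ℂ) : ℂ := ∑' k, hh γ (k + K) s

theorem hh_sum (h0 : ∀ k, 0 < γ k) (hm : Monotone γ) (hW : Windows γ) {s : ℂ} (hs : 1 / 3 < s.re) :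
    Summable fun k => hh γ k s := by
  obtain ⟨C, hC0, hC⟩ := hh_far h0 hm hW ‖s‖ (norm_nonneg s)
  have hsum : Summable fun k => C * (1 + γ k) ^ (-1 - 1 / 3 : ℝ) := (win_pow h0 hW (by norm_num)).mul_left _
  obtain ⟨K, hK⟩ := (((gam_top h0 hm hW).eventually (eventually_ge_atTop (2 * |s.im|))).exists_forall_of_atTop)
  refine (summable_nat_add_iff K).1 ?_
  refine Summable.of_norm_bounded ((summable_nat_add_iff K).2 hsum) fun k => ?_
  exact hC (k + K) s hs.le le_rfl (hK _ (by omega))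

theorem TT_diff (h0 : ∀ k, 0 < γ k) (hm : Monotone γ) (hW : Windows γ) (K : ℕ) {s0 : ℂ} (hs : 1 / 3 < s0.re)
    (hK : 2 * |s0.im| < γ K) : AnalyticAt ℂ (TT γ K) s0 := by
  set M := ‖s0‖ + 1 with hM
  obtain ⟨C, hC0, hC⟩ := hh_far h0 hm hW M (by positivity)
  set U : Set ℂ := {s | 1 / 3 < s.re ∧ 2 * |s.im| < γ K ∧ ‖s‖ < M} with hU
  have hopen : IsOpen U :=
    (isOpen_lt continuous_const Complex.continuous_re).inter
      ((isOpen_lt (continuous_const.mul Complex.continuous_im.abs) continuous_const).inter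
        (isOpen_lt continuous_norm continuous_const))
  have hmem : s0 ∈ U := ⟨hs, hK, by rw [hM]; linarith⟩
  have hsum : Summable fun k => C * (1 + γ (k + K)) ^ (-1 - 1 / 3 : ℝ) :=
    (summable_nat_add_iff K).2 ((win_pow h0 hW (by norm_num)).mul_left C)
  have h1 : DifferentiableOn ℂ (TT γ K) U := by
    unfold TT
    refine Complex.differentiableOn_tsum_of_summable_norm hsum (fun k s hs => ?_) hopen fun k s hs => ?_
    · have h2 : γ K ≤ γ (k + K) := hm (by omega)
      refine (hh_diff h0 (Or.inr ?_)).differentiableWithinAt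
      have := hs.2.1
      have := abs_nonneg s.im
      linarith
    · have h2 : γ K ≤ γ (k + K) := hm (by omega)
      exact hC (k + K) s hs.1.le hs.2.2.le (by linarith [hs.2.1])
  exact h1.analyticAt (hopen.mem_nhds hmem)

end

end Pool.Agent.H49.BZ
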