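import Pool.Agent.H49.BZ.Base
import Pool.Agent.H49.BP.Samp

/-!
# One point in every slot, with small twisted sums
-/

set_option autoImplicit false

open MeasureTheory Filter Topology Set Complex

namespace Pool.Agent.H49.BZ

open Pool.Agent.H49.BP (em em_eq em_norm em_meas greedy0 ph ph_meas ph_abs sgn sgn_abs wt wt_pos wt_sum L_ge opt)

variable [Dens]

/-- the distribution in a slot -/
noncomputable def mu (j : ℕ) : Measure ℝ :=
  (volume.restrict (Ioc (tt j) (tt (j + 1)))).withDensity fun x => ENNReal.ofReal (md x)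

theorem tt_le_succ (j : ℕ) : tt j ≤ tt (j + 1) := tt_mono.monotone (Nat.le_succ j)

theorem md_intOn (j : ℕ) : IntegrableOn md (Ioc (tt j) (tt (j + 1))) := by
  have := md_int (tt_one_le j) (tt_one_le (j + 1))
  rwa [intervalIntegrable_iff_integrableOn_Ioc_of_le (tt_le_succ j)] at this

instance (j : ℕ) : IsProbabilityMeasure (mu j) := by
  constructor
  unfold mu
  rw [withDensity_apply _ MeasurableSet.univ, Measure.restrict_univ,
    ← ofReal_integral_eq_lintegral_ofReal (md_intOn j)]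
  · rw [← intervalIntegral.integral_of_le (tt_le_succ j), ← MM_sub (tt_one_le _) (tt_one_le _), MM_tt, MM_tt]
    push_cast
    simp
  · refine (ae_restrict_iff' measurableSet_Ioc).2 (Eventually.of_forall fun u hu => ?_)
    exact md_nonneg ((tt_one_le j).trans hu.1.le)

theorem mu_compl (j : ℕ) : (mu j) (Ioc (tt j) (tt (j + 1)))ᶜ = 0 := by
  unfold mu
  rw [withDensity_apply _ measurableSet_Ioc.compl]
  have : (volume.restrict (Ioc (tt j) (tt (j + 1)))).restrict (Ioc (tt j) (tt (j + 1)))ᶜ = 0 := by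
    rw [Measure.restrict_restrict measurableSet_Ioc.compl, compl_inter_self, Measure.restrict_empty]
  rw [this, lintegral_zero_measure]

theorem mu_integral (j : ℕ) (g : ℝ → ℝ) :
    ∫ x, g x ∂(mu j) = ∫ u in (tt j)..(tt (j + 1)), md u * g u := by
  unfold mu
  rw [integral_withDensity_eq_integral_toReal_smul (md_meas.ennreal_ofReal)
    (Eventually.of_forall fun x => ENNReal.ofReal_lt_top), intervalIntegral.integral_of_le (tt_le_succ j)]
  refine setIntegral_congr_fun measurableSet_Ioc (fun u hu => ?_)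
  have h1 : 1 ≤ u := (tt_one_le j).trans hu.1.le
  rw [ENNReal.toReal_ofReal (md_nonneg h1), smul_eq_mul]

theorem mdg_int {g : ℝ → ℂ} (hg : Measurable g) (hb : ∀ u, ‖g u‖ ≤ 1) {a b : ℝ} (ha : 1 ≤ a) (hb' : 1 ≤ b) :
    IntervalIntegrable (fun u => g u * (md u : ℂ)) volume a b := by
  have h1 := md_int ha hb'
  refine h1.mono_fun ?_ ?_
  · exact (hg.mul (Complex.measurable_ofReal.comp md_meas)).aestronglyMeasurable
  · refine Eventually.of_forall fun u => ?_
    beta_reduce
    rw [norm_mul, Complex.norm_real]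
    exact mul_le_of_le_one_left (norm_nonneg _) (hb u)

/-- the integral of `em` over a slot -/
theorem em_slot (m : ℤ) (j : ℕ) : ∫ u in (tt j)..(tt (j + 1)), em m u * (md u : ℂ) =
    ((∫ x, Real.cos (m * Real.log x) ∂(mu j) : ℝ) : ℂ) - ((∫ x, Real.sin (m * Real.log x) ∂(mu j) : ℝ) : ℂ) * I := by
  rw [mu_integral, mu_integral, ← intervalIntegral.integral_ofReal, ← intervalIntegral.integral_ofReal,
    ← intervalIntegral.integral_mul_const, ← intervalIntegral.integral_sub]
  · refine intervalIntegral.integral_congr fun u _ => ?_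
    beta_reduce
    unfold BP.em
    push_cast
    ring
  · have := mdg_int (g := fun u => ((Real.cos (m * Real.log u) : ℝ) : ℂ)) (by
      have h1 : Measurable fun u : ℝ => Real.cos (m * Real.log u) := by fun_prop
      exact Complex.measurable_ofReal.comp h1) (fun u => by
        rw [Complex.norm_real]; exact Real.abs_cos_le_one _) (tt_one_le j) (tt_one_le (j + 1))
    refine this.congr (fun u _ => ?_)
    beta_reduce
    push_cast
    ring
  · have := mdg_int (g := fun u => ((Real.sin (m * Real.log u) : ℝ) : ℂ)) (by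
      have h1 : Measurable fun u : ℝ => Real.sin (m * Real.log u) := by fun_prop
      exact Complex.measurable_ofReal.comp h1) (fun u => by
        rw [Complex.norm_real]; exact Real.abs_sin_le_one _) (tt_one_le j) (tt_one_le (j + 1))
    refine (this.mul_const I).congr (fun u _ => ?_)
    beta_reduce
    push_cast
    ring

/-- the centred tests -/
noncomputable def YY (j : ℕ) (p : ℤ × Bool × Bool × ℕ) (x : ℝ) : ℝ :=
  sgn p.2.2.1 * ((ph p.1 p.2.1 x - ∫ y, ph p.1 p.2.1 y ∂(mu j)) / 2)

theorem mean_abs (m : ℤ) (b : Bool) (j : ℕ) : |∫ y, ph m b y ∂(mu j)| ≤ 1 := by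
  have h1 := norm_integral_le_of_norm_le_const (μ := mu j) (f := ph m b) (C := 1)
    (Eventually.of_forall fun x => by rw [Real.norm_eq_abs]; exact ph_abs m b x)
  simpa using h1

theorem YY_abs (j : ℕ) (p : ℤ × Bool × Bool × ℕ) (x : ℝ) : |YY j p x| ≤ 1 := by
  unfold YY
  rw [abs_mul, sgn_abs, one_mul, abs_div, abs_two, div_le_one (by norm_num)]
  have h1 := ph_abs p.1 p.2.1 x
  have h2 := mean_abs p.1 p.2.1 j
  have h3 := abs_sub (ph p.1 p.2.1 x) (∫ y, ph p.1 p.2.1 y ∂(mu j))
  linarith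

theorem YY_meas (j : ℕ) (p : ℤ × Bool × Bool × ℕ) : Measurable (YY j p) := by
  unfold YY
  exact (((ph_meas p.1 p.2.1).sub measurable_const).div_const 2).const_mul _

theorem YY_mean (j : ℕ) (p : ℤ × Bool × Bool × ℕ) : ∫ x, YY j p x ∂(mu j) = 0 := by
  unfold YY
  have hi : Integrable (ph p.1 p.2.1) (mu j) := Integrable.of_bound (ph_meas p.1 p.2.1).aestronglyMeasurable 1
    (Eventually.of_forall fun x => by rw [Real.norm_eq_abs]; exact ph_abs _ _ x)
  rw [integral_const_mul, integral_div, integral_sub hi (integrable_const _)]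
  simp

theorem sample : ∃ q : ℕ → ℝ, (∀ j, q j ∈ Ioc (tt j) (tt (j + 1))) ∧ ∀ δ : ℝ, 0 < δ → ∃ C : ℝ, 0 ≤ C ∧
    ∀ (m : ℤ) (J : ℕ), ‖∑ j ∈ Finset.range J, (em m (q j) - ∫ u in (tt j)..(tt (j + 1)), em m u * (md u : ℂ))‖ ≤
      C * (J : ℝ) ^ (1 / 2 + δ) * √(Real.log (|(m : ℝ)| + 3)) := by
  obtain ⟨q, hq1, hq2⟩ := greedy0 mu (fun j => Ioc (tt j) (tt (j + 1))) YY (fun p => (1 / 2) ^ p.2.2.2) wt
    mu_compl YY_meas YY_abs YY_mean (fun p => by positivity) (fun p => pow_le_one₀ (by norm_num) (by norm_num))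
    wt_pos wt_sum
  refine ⟨q, hq1, fun δ hδ => ?_⟩
  set W := ∑' p, wt p with hW
  have hW0 : 0 < W := wt_sum.tsum_pos (fun p => (wt_pos p).le) (0, true, true, 0) (wt_pos _)
  set C₀ := |Real.log W| + 2 with hC₀
  have hC₀0 : 0 ≤ C₀ := by positivity
  have hD0 : 0 ≤ 3 + C₀ + 1 / δ := by positivity
  refine ⟨8 * (3 + C₀ + 1 / δ), by positivity, fun m J => ?_⟩
  set L := Real.log (|(m : ℝ)| + 3) with hLdef
  have hL : 1 ≤ L := L_ge m
  -- one test
  have hone : ∀ b c : Bool, ∑ j ∈ Finset.range J, YY j (m, b, c, 0) (q j) ≤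
      (3 + C₀ + 1 / δ) * (J : ℝ) ^ (1 / 2 + δ) * √L := by
    intro b c
    refine opt (Nat.cast_nonneg J) hL hC₀0 hδ ?_ ?_ ?_
    · rcases Nat.eq_zero_or_pos J with h | h
      · left; exact_mod_cast h
      · right; exact_mod_cast h
    · calc ∑ j ∈ Finset.range J, YY j (m, b, c, 0) (q j) ≤ ∑ j ∈ Finset.range J, (1 : ℝ) :=
            Finset.sum_le_sum fun j _ => (le_abs_self _).trans (YY_abs _ _ _)
        _ = J := by simp
    · intro k
      have h1 := hq2 J (m, b, c, k)
      have h2 : ∑ j ∈ Finset.range J, YY j (m, b, c, k) (q j) = ∑ j ∈ Finset.range J, YY j (m, b, c, 0) (q j) := rfl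
      rw [h2] at h1
      set S := ∑ j ∈ Finset.range J, YY j (m, b, c, 0) (q j) with hS
      have h3 : Real.log (W / wt (m, b, c, k)) ≤ C₀ * L + k := by
        unfold wt
        rw [Real.log_div hW0.ne' (by positivity), Real.log_mul (by positivity) (by positivity),
          Real.log_div one_ne_zero (by positivity), Real.log_one, Real.log_pow, Real.log_pow]
        have h4 : Real.log (1 / 2) = -Real.log 2 := by rw [one_div, Real.log_inv]
        rw [h4]
        have h5 : Real.log 2 ≤ 1 := by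
          have := Real.log_two_lt_d9
          linarith
        have h6 : (k : ℝ) * Real.log 2 ≤ k := mul_le_of_le_one_right (Nat.cast_nonneg k) h5
        have h7 := le_abs_self (Real.log W)
        have h8 : |Real.log W| ≤ |Real.log W| * L := le_mul_of_one_le_right (abs_nonneg _) hL
        have h9 : C₀ * L = |Real.log W| * L + 2 * L := by rw [hC₀]; ring
        push_cast
        linarith
      have h10 : (2 : ℝ) ^ k * ((1 / 2) ^ k * S) = S := by
        rw [← mul_assoc, ← mul_pow]
        norm_num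
      have h11 : (2 : ℝ) ^ k * (((1 / 2) ^ k) ^ 2 * J) = (1 / 2) ^ k * J := by
        rw [pow_two, mul_assoc ((1 / 2 : ℝ) ^ k), ← mul_assoc, ← mul_pow]
        norm_num
      have h12 : (1 / 2 : ℝ) ^ k * S ≤ ((1 / 2) ^ k) ^ 2 * J + (C₀ * L + k) := h1.trans (by linarith)
      calc S = (2 : ℝ) ^ k * ((1 / 2) ^ k * S) := h10.symm
        _ ≤ (2 : ℝ) ^ k * (((1 / 2) ^ k) ^ 2 * J + (C₀ * L + k)) :=
            mul_le_mul_of_nonneg_left h12 (by positivity)
        _ = (1 / 2) ^ k * J + 2 ^ k * (C₀ * L + k) := by rw [mul_add, h11]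
  have habs : ∀ b : Bool, |∑ j ∈ Finset.range J, (ph m b (q j) - ∫ y, ph m b y ∂(mu j))| ≤
      2 * ((3 + C₀ + 1 / δ) * (J : ℝ) ^ (1 / 2 + δ) * √L) := by
    intro b
    have h1 := hone b true
    have h2 := hone b false
    have e1 : ∑ j ∈ Finset.range J, YY j (m, b, true, 0) (q j) =
        (∑ j ∈ Finset.range J, (ph m b (q j) - ∫ y, ph m b y ∂(mu j))) / 2 := by
      rw [Finset.sum_div]
      refine Finset.sum_congr rfl fun j _ => ?_
      simp [YY, sgn]
    have e2 : ∑ j ∈ Finset.range J, YY j (m, b, false, 0) (q j) =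
        -((∑ j ∈ Finset.range J, (ph m b (q j) - ∫ y, ph m b y ∂(mu j))) / 2) := by
      rw [Finset.sum_div, ← Finset.sum_neg_distrib]
      refine Finset.sum_congr rfl fun j _ => ?_
      simp [YY, sgn]
    rw [e1] at h1
    rw [e2] at h2
    rw [abs_le]
    constructor <;> linarith
  have hfin : ∑ j ∈ Finset.range J, (em m (q j) - ∫ u in (tt j)..(tt (j + 1)), em m u * (md u : ℂ)) =
      ((∑ j ∈ Finset.range J, (ph m true (q j) - ∫ y, ph m true y ∂(mu j)) : ℝ) : ℂ) -
      ((∑ j ∈ Finset.range J, (ph m false (q j) - ∫ y, ph m false y ∂(mu j)) : ℝ) : ℂ) * I := by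
    push_cast
    rw [Finset.sum_mul, ← Finset.sum_sub_distrib]
    refine Finset.sum_congr rfl fun j _ => ?_
    rw [em_slot]
    unfold BP.em
    simp only [ph, if_true, Bool.false_eq_true, if_false]
    ring
  rw [hfin]
  refine (norm_sub_le _ _).trans ?_
  rw [norm_mul, Complex.norm_I, mul_one, Complex.norm_real, Complex.norm_real, Real.norm_eq_abs, Real.norm_eq_abs]
  have h1 := habs true
  have h2 := habs false
  have h3 : 0 ≤ (3 + C₀ + 1 / δ) * (J : ℝ) ^ (1 / 2 + δ) * √L := by positivity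
  calc |∑ j ∈ Finset.range J, (ph m true (q j) - ∫ y, ph m true y ∂(mu j))| +
        |∑ j ∈ Finset.range J, (ph m false (q j) - ∫ y, ph m false y ∂(mu j))|
      ≤ 8 * ((3 + C₀ + 1 / δ) * (J : ℝ) ^ (1 / 2 + δ) * √L) := by linarith
    _ = _ := by ring

end Pool.Agent.H49.BZ
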