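import Pool.Agent.H49.BZ.Cont

/-!
# The sampled sequence
-/

set_option autoImplicit false

open MeasureTheory Filter Topology Set Complex

namespace Pool.Agent.H49.BZ

open Pool.Agent.H49.BP (em em_norm em_meas pc lt_pc AA AA_meas L_ge zero_bot)

variable [Dens]

theorem s_mono {q : ℕ → ℝ} (hq : ∀ j, q j ∈ Ioc (tt j) (tt (j + 1))) : StrictMono q :=
  strictMono_nat_of_lt_succ fun j => lt_of_le_of_lt (hq j).2 (hq (j + 1)).1

theorem s_ge {q : ℕ → ℝ} (hq : ∀ j, q j ∈ Ioc (tt j) (tt (j + 1))) (j : ℕ) : (j : ℝ) + 1 ≤ q j :=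
  (tt_ge j).trans (hq j).1.le

theorem s_zero {q : ℕ → ℝ} (hq : ∀ j, q j ∈ Ioc (tt j) (tt (j + 1))) : 1 < q 0 := by
  have := (hq 0).1
  rwa [tt_zero] at this

theorem s_pc {q : ℕ → ℝ} (hq : ∀ j, q j ∈ Ioc (tt j) (tt (j + 1))) {x : ℝ} {J : ℕ} (h1 : tt J ≤ x)
    (h2 : x < tt (J + 1)) : J ≤ pc q x ∧ pc q x ≤ J + 1 := by
  have hm := s_mono hq
  have hg := s_ge hq
  constructor
  · by_contra h
    push Not at h
    have h3 : pc q x < pc q x := (lt_pc hm hg x (pc q x)).2 (((hq _).2.trans (tt_mono.monotone h)).trans h1)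
    exact lt_irrefl _ h3
  · by_contra h
    push Not at h
    have h3 := (lt_pc hm hg x (J + 1)).1 h
    have h4 := (hq (J + 1)).1
    linarith

theorem slots_sum {g : ℝ → ℂ} (hg : ∀ a b : ℝ, 1 ≤ a → 1 ≤ b → IntervalIntegrable g volume a b) (J : ℕ) :
    ∑ j ∈ Finset.range J, ∫ u in (tt j)..(tt (j + 1)), g u = ∫ u in (1 : ℝ)..(tt J), g u := by
  have h := intervalIntegral.sum_integral_adjacent_intervals (μ := volume) (f := g) (a := tt) (n := J)
    (fun k _ => hg _ _ (tt_one_le _) (tt_one_le _))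
  rw [h, tt_zero]

theorem part_bd (m : ℤ) {x : ℝ} {J : ℕ} (h1 : tt J ≤ x) (h2 : x < tt (J + 1)) :
    ‖∫ u in (tt J)..x, em m u * (md u : ℂ)‖ ≤ 1 := by
  have hx : 1 ≤ x := (tt_one_le J).trans h1
  have h3 : ‖∫ u in (tt J)..x, em m u * (md u : ℂ)‖ ≤ ∫ u in (tt J)..x, md u := by
    refine intervalIntegral.norm_integral_le_of_norm_le h1 ?_ (md_int (tt_one_le J) hx)
    refine Eventually.of_forall fun u hu => ?_
    have hu1 : 1 ≤ u := (tt_one_le J).trans hu.1.le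
    rw [norm_mul, em_norm, one_mul, Complex.norm_real, Real.norm_of_nonneg (md_nonneg hu1)]
  rw [← MM_sub (tt_one_le J) hx, MM_tt] at h3
  have h4 : MM x < J + 1 := by
    have := MM_lt hx h2
    rw [MM_tt] at this
    push_cast at this
    exact this
  linarith

theorem s_disc {q : ℕ → ℝ} (hq : ∀ j, q j ∈ Ioc (tt j) (tt (j + 1)))
    (hs : ∀ δ : ℝ, 0 < δ → ∃ C : ℝ, 0 ≤ C ∧
      ∀ (m : ℤ) (J : ℕ), ‖∑ j ∈ Finset.range J, (em m (q j) - ∫ u in (tt j)..(tt (j + 1)), em m u * (md u : ℂ))‖ ≤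
        C * (J : ℝ) ^ (1 / 2 + δ) * √(Real.log (|(m : ℝ)| + 3))) : Disc q := by
  intro δ hδ
  obtain ⟨C, hC0, hC⟩ := hs δ hδ
  refine ⟨C + 2, by positivity, fun m x hx => ?_⟩
  obtain ⟨J, h1, h2⟩ := exists_slot hx
  obtain ⟨h3, h4⟩ := s_pc hq h1 h2
  have hgi : ∀ a b : ℝ, 1 ≤ a → 1 ≤ b → IntervalIntegrable (fun u => em m u * (md u : ℂ)) volume a b :=
    fun a b ha hb => mdg_int (em_meas m) (fun u => (em_norm m u).le) ha hb
  have e1 : BB m x = ∑ j ∈ Finset.range J, (∫ u in (tt j)..(tt (j + 1)), em m u * (md u : ℂ)) +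
      ∫ u in (tt J)..x, em m u * (md u : ℂ) := by
    rw [slots_sum hgi]
    unfold BB
    exact (intervalIntegral.integral_add_adjacent_intervals (hgi _ _ le_rfl (tt_one_le J)) (hgi _ _ (tt_one_le J) hx)).symm
  have e2 : AA q m x = ∑ j ∈ Finset.range J, em m (q j) + ∑ j ∈ Finset.Ico J (pc q x), em m (q j) := by
    unfold AA
    exact (Finset.sum_range_add_sum_Ico _ h3).symm
  have e3 : AA q m x - BB m x = (∑ j ∈ Finset.range J, (em m (q j) - ∫ u in (tt j)..(tt (j + 1)), em m u * (md u : ℂ))) +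
      ∑ j ∈ Finset.Ico J (pc q x), em m (q j) - ∫ u in (tt J)..x, em m u * (md u : ℂ) := by
    rw [e1, e2, Finset.sum_sub_distrib]
    ring
  have h5 : ‖∑ j ∈ Finset.Ico J (pc q x), em m (q j)‖ ≤ 1 := by
    refine (norm_sum_le _ _).trans ?_
    simp only [em_norm, Finset.sum_const, Nat.card_Ico, nsmul_eq_mul, mul_one]
    have : pc q x - J ≤ 1 := by omega
    exact_mod_cast this
  have hL : 1 ≤ √(Real.log (|(m : ℝ)| + 3)) := Real.one_le_sqrt.2 (L_ge m)
  have hJ : (J : ℝ) ≤ x := by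
    have := tt_ge J
    linarith
  have hxp : 1 ≤ x ^ (1 / 2 + δ) := Real.one_le_rpow hx (by linarith)
  have h6 : (J : ℝ) ^ (1 / 2 + δ) ≤ x ^ (1 / 2 + δ) := Real.rpow_le_rpow (Nat.cast_nonneg J) hJ (by linarith)
  have h7 : 1 ≤ x ^ (1 / 2 + δ) * √(Real.log (|(m : ℝ)| + 3)) := one_le_mul_of_one_le_of_one_le hxp hL
  rw [e3]
  calc ‖(∑ j ∈ Finset.range J, (em m (q j) - ∫ u in (tt j)..(tt (j + 1)), em m u * (md u : ℂ))) +
      ∑ j ∈ Finset.Ico J (pc q x), em m (q j) - ∫ u in (tt J)..x, em m u * (md u : ℂ)‖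
      ≤ C * (J : ℝ) ^ (1 / 2 + δ) * √(Real.log (|(m : ℝ)| + 3)) + 1 + 1 := by
        refine (norm_sub_le _ _).trans (add_le_add ((norm_add_le _ _).trans (add_le_add (hC m J) h5)) (part_bd m h1 h2))
    _ ≤ C * x ^ (1 / 2 + δ) * √(Real.log (|(m : ℝ)| + 3)) + 2 * (x ^ (1 / 2 + δ) * √(Real.log (|(m : ℝ)| + 3))) := by
        have h8 : C * (J : ℝ) ^ (1 / 2 + δ) * √(Real.log (|(m : ℝ)| + 3)) ≤
            C * x ^ (1 / 2 + δ) * √(Real.log (|(m : ℝ)| + 3)) :=
          mul_le_mul_of_nonneg_right (mul_le_mul_of_nonneg_left h6 hC0) (by linarith)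
        linarith
    _ = _ := by ring

theorem s_count {q : ℕ → ℝ} (hq : ∀ j, q j ∈ Ioc (tt j) (tt (j + 1))) {x : ℝ} (hx : 1 ≤ x) :
    |(pc q x : ℝ) - MM x| ≤ 1 := by
  obtain ⟨J, h1, h2⟩ := exists_slot hx
  obtain ⟨h3, h4⟩ := s_pc hq h1 h2
  have h5 : (J : ℝ) ≤ MM x := by
    rw [← MM_tt J]
    exact MM_le (tt_one_le J) h1
  have h6 : MM x < J + 1 := by
    have := MM_lt hx h2
    rw [MM_tt] at this
    push_cast at this
    exact this
  have h7 : (J : ℝ) ≤ pc q x := by exact_mod_cast h3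
  have h8 : (pc q x : ℝ) ≤ J + 1 := by exact_mod_cast h4
  rw [abs_le]
  constructor <;> linarith

theorem s_count0 {q : ℕ → ℝ} (hq : ∀ j, q j ∈ Ioc (tt j) (tt (j + 1))) {x : ℝ} (hx : 1 ≤ x) :
    ‖AA q 0 x - BB 0 x‖ ≤ 1 := by
  have e0 : ∀ u : ℝ, em 0 u = 1 := by
    intro u
    unfold BP.em
    simp
  have e1 : AA q 0 x = ((pc q x : ℝ) : ℂ) := by
    unfold AA
    simp [e0]
  have e2 : BB 0 x = ((MM x : ℝ) : ℂ) := by
    unfold BB MM
    simp only [e0, one_mul]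
    exact intervalIntegral.integral_ofReal
  rw [e1, e2, ← Complex.ofReal_sub, Complex.norm_real]
  exact s_count hq hx

/-- continuation to the right half-plane -/
theorem FF_half {q : ℕ → ℝ} (hq : ∀ j, q j ∈ Ioc (tt j) (tt (j + 1))) :
    DifferentiableOn ℂ (FF q 0) {w | 0 < w.re} := by
  intro w hw
  have hw' : 0 < w.re := hw
  have hb : ∀ x : ℝ, ‖DD q 0 x‖ ≤ 1 := by
    intro x
    unfold DD
    split_ifs with h
    · exact s_count0 hq h.le
    · simp
  have hloc : LocallyIntegrableOn (DD q 0) (Ioi 0) := by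
    have h1 : LocallyIntegrable (DD q 0) := by
      refine (locallyIntegrable_const (1 : ℝ)).mono (DD_meas (s_mono hq) (s_ge hq) 0) ?_
      refine Eventually.of_forall fun u => ?_
      simpa using hb u
    exact h1.locallyIntegrableOn _
  have htop : DD q 0 =O[atTop] (fun x : ℝ => x ^ (-(0 : ℝ))) := by
    refine Asymptotics.IsBigO.of_bound 1 (Eventually.of_forall fun x => ?_)
    simpa using hb x
  have hmel := mellin_differentiableAt_of_isBigO_rpow (a := 0) (b := -w.re - 1) (s := -w) hloc htop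
    (by rw [Complex.neg_re]; linarith)
    (zero_bot (fun u hu => by unfold DD; rw [if_neg (not_lt.2 hu)]) _) (by rw [Complex.neg_re]; linarith)
  have h2 : DifferentiableAt ℂ (fun w : ℂ => mellin (DD q 0) (-w)) w :=
    DifferentiableAt.comp (f := fun w : ℂ => -w) w hmel differentiableAt_id.neg
  exact (differentiableAt_id.mul h2).differentiableWithinAt

end Pool.Agent.H49.BZ
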